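import Mathlib

set_option autoImplicit false

namespace Pool.Agent.V1123.PolyThree

open Polynomial

section

variable {K : Type} [Field K]

/-- A nonzero polynomial of total degree less than the cardinality of the finite field has a
nonvanishing point. -/
theorem exists_eval_ne_zero [Fintype K] (p : MvPolynomial (Fin 2) K) (hp : p ≠ 0)
    (hd : p.totalDegree < Fintype.card K) : ∃ v : Fin 2 → K, MvPolynomial.eval v p ≠ 0 := by
  classical
  by_contra hcon
  push Not at hcon
  have h := MvPolynomial.schwartz_zippel_totalDegree hp (Finset.univ : Finset K)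
  have h1 : (Fintype.piFinset fun _ : Fin 2 => (Finset.univ : Finset K)).filter
      (fun f => MvPolynomial.eval f p = 0) = Finset.univ := by
    ext f; simp [hcon f]
  rw [h1] at h
  have hc : (0 : ℚ≥0) < (Fintype.card K : ℚ≥0) := by
    exact_mod_cast Fintype.card_pos
  simp only [Finset.card_univ] at h
  have h2 : (Fintype.card (Fin 2 → K) : ℚ≥0) = (Fintype.card K : ℚ≥0) ^ 2 := by
    rw [Fintype.card_fun]; simp
  rw [h2, div_self (pow_ne_zero _ hc.ne'), le_div_iff₀ hc, one_mul] at h
  have h3 : Fintype.card K ≤ p.totalDegree := by exact_mod_cast h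
  omega

theorem totalDegree_aeval_le (q : MvPolynomial (Fin 2) K) (f : K[X]) :
    (aeval q f).totalDegree ≤ f.natDegree * q.totalDegree := by
  rw [aeval_eq_sum_range]
  refine MvPolynomial.totalDegree_finsetSum_le fun i hi => ?_
  have hi' : i ≤ f.natDegree := by
    have := Finset.mem_range.1 hi; omega
  refine (MvPolynomial.totalDegree_smul_le _ _).trans ?_
  refine (MvPolynomial.totalDegree_pow _ _).trans ?_
  exact Nat.mul_le_mul_right _ hi'

theorem eval_aeval (v : Fin 2 → K) (q : MvPolynomial (Fin 2) K) (f : K[X]) :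
    MvPolynomial.eval v (aeval q f) = f.eval (MvPolynomial.eval v q) := by
  have : MvPolynomial.eval v (aeval q f) = MvPolynomial.aeval v (aeval q f) := by
    rw [MvPolynomial.aeval_eq_eval]
  rw [this, ← Polynomial.aeval_algHom_apply, MvPolynomial.aeval_eq_eval, Polynomial.coe_aeval_eq_eval]

/-- The polynomial in the first variable. -/
noncomputable def a1 (f : K[X]) : MvPolynomial (Fin 2) K := aeval (MvPolynomial.X 0) f
/-- The polynomial in the second variable. -/
noncomputable def a2 (f : K[X]) : MvPolynomial (Fin 2) K := aeval (MvPolynomial.X 1) f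
/-- The polynomial in the product of the variables. -/
noncomputable def a3 (f : K[X]) : MvPolynomial (Fin 2) K :=
  aeval (MvPolynomial.X 0 * MvPolynomial.X 1) f

/-- Put the second variable equal to zero. -/
noncomputable def e0 : MvPolynomial (Fin 2) K →ₐ[K] K[X] := MvPolynomial.aeval ![X, 0]
/-- Put the first variable equal to zero. -/
noncomputable def e1 : MvPolynomial (Fin 2) K →ₐ[K] K[X] := MvPolynomial.aeval ![0, X]
/-- Put the second variable equal to one. -/
noncomputable def e2 : MvPolynomial (Fin 2) K →ₐ[K] K[X] := MvPolynomial.aeval ![X, 1]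

theorem e0_a1 (f : K[X]) : e0 (a1 f) = f := by
  unfold a1
  rw [← Polynomial.aeval_algHom_apply]
  simp [e0]

theorem e0_a2 (f : K[X]) : e0 (a2 f) = C (f.coeff 0) := by
  unfold a2
  rw [← Polynomial.aeval_algHom_apply]
  simp only [e0, MvPolynomial.aeval_X, Matrix.cons_val_one, Matrix.cons_val_fin_one]
  rw [← Polynomial.coeff_zero_eq_aeval_zero']
  rfl

theorem e0_a3 (f : K[X]) : e0 (a3 f) = C (f.coeff 0) := by
  unfold a3
  rw [← Polynomial.aeval_algHom_apply]
  simp only [e0, map_mul, MvPolynomial.aeval_X, Matrix.cons_val_one, Matrix.cons_val_fin_one,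
    mul_zero]
  rw [← Polynomial.coeff_zero_eq_aeval_zero']
  rfl

theorem e1_a2 (f : K[X]) : e1 (a2 f) = f := by
  unfold a2
  rw [← Polynomial.aeval_algHom_apply]
  simp [e1]

theorem e2_a3 (f : K[X]) : e2 (a3 f) = f := by
  unfold a3
  rw [← Polynomial.aeval_algHom_apply]
  simp [e2]

theorem a1_inj {f g : K[X]} (h : a1 f = a1 g) : f = g := by
  rw [← e0_a1 f, h, e0_a1]

theorem a1_ne {f : K[X]} (h : f ≠ 0) : a1 f ≠ 0 := by
  intro h0; apply h; rw [← e0_a1 f, h0, map_zero]

theorem a2_ne {f : K[X]} (h : f ≠ 0) : a2 f ≠ 0 := by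
  intro h0; apply h; rw [← e1_a2 f, h0, map_zero]

theorem a3_ne {f : K[X]} (h : f ≠ 0) : a3 f ≠ 0 := by
  intro h0; apply h; rw [← e2_a3 f, h0, map_zero]

theorem a1_mul (f g : K[X]) : a1 (f * g) = a1 f * a1 g := map_mul _ _ _
theorem a2_mul (f g : K[X]) : a2 (f * g) = a2 f * a2 g := map_mul _ _ _
theorem a3_mul (f g : K[X]) : a3 (f * g) = a3 f * a3 g := map_mul _ _ _
theorem a1_X (n : ℕ) : a1 ((X : K[X]) ^ n) = MvPolynomial.X 0 ^ n := by simp [a1]
theorem a2_X (n : ℕ) : a2 ((X : K[X]) ^ n) = MvPolynomial.X 1 ^ n := by simp [a2]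
theorem a3_X (n : ℕ) : a3 ((X : K[X]) ^ n) = MvPolynomial.X 0 ^ n * MvPolynomial.X 1 ^ n := by
  simp [a3, mul_pow]

/-- If the three-term identity holds then the polynomials agree up to a power of `X`. -/
theorem shift_of_identity (f g : K[X]) (hf : f ≠ 0) (hg : g ≠ 0)
    (h : a1 g * a2 g * a3 f = a1 f * a2 f * a3 g) : ∃ a a' : ℕ, X ^ a * g = X ^ a' * f := by
  obtain ⟨f1, hf1, hf2⟩ := Polynomial.exists_eq_pow_rootMultiplicity_mul_and_not_dvd f hf 0
  obtain ⟨g1, hg1, hg2⟩ := Polynomial.exists_eq_pow_rootMultiplicity_mul_and_not_dvd g hg 0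
  simp only [map_zero, sub_zero] at hf1 hf2 hg1 hg2
  set a := f.rootMultiplicity 0
  set a' := g.rootMultiplicity 0
  rw [X_dvd_iff] at hf2 hg2
  have hX0 : (MvPolynomial.X 0 : MvPolynomial (Fin 2) K) ≠ 0 := MvPolynomial.X_ne_zero 0
  have hX1 : (MvPolynomial.X 1 : MvPolynomial (Fin 2) K) ≠ 0 := MvPolynomial.X_ne_zero 1
  have h1 : a1 g1 * a2 g1 * a3 f1 = a1 f1 * a2 f1 * a3 g1 := by
    have h2 : (MvPolynomial.X 0 : MvPolynomial (Fin 2) K) ^ (a + a') * MvPolynomial.X 1 ^ (a + a') ≠ 0 :=
      mul_ne_zero (pow_ne_zero _ hX0) (pow_ne_zero _ hX1)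
    apply mul_left_cancel₀ h2
    rw [hf1, hg1] at h
    simp only [a1_mul, a2_mul, a3_mul, a1_X, a2_X, a3_X] at h
    rw [pow_add, pow_add]
    linear_combination h
  have h2 := congrArg e0 h1
  simp only [map_mul, e0_a1, e0_a2, e0_a3] at h2
  have h3 : (C (g1.coeff 0) * C (f1.coeff 0) : K[X]) ≠ 0 := by
    rw [← C_mul, Ne, C_eq_zero]
    exact mul_ne_zero hg2 hf2
  have h4 : g1 = f1 := by
    apply mul_right_cancel₀ h3
    linear_combination h2
  refine ⟨a, a', ?_⟩
  rw [hf1, hg1, h4]; ring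

/-- Key identity lemma with a family. -/
theorem shift_family {ι : Type} (F G : ι → K[X]) (s0 : ι) (hf : F s0 ≠ 0) (hg : G s0 ≠ 0)
    (h : ∀ s, a1 (G s) * a2 (G s0) * a3 (F s0) = a1 (F s) * a2 (F s0) * a3 (G s0)) :
    ∃ a a' : ℕ, ∀ s, X ^ a * G s = X ^ a' * F s := by
  obtain ⟨a, a', haa⟩ := shift_of_identity (F s0) (G s0) hf hg (h s0)
  refine ⟨a, a', fun s => ?_⟩
  have hX1 : (MvPolynomial.X 1 : MvPolynomial (Fin 2) K) ≠ 0 := MvPolynomial.X_ne_zero 1
  have e2' := congrArg a2 haa
  have e3' := congrArg a3 haa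
  simp only [a2_mul, a3_mul, a2_X, a3_X] at e2' e3'
  apply a1_inj
  rw [a1_mul, a1_mul, a1_X, a1_X]
  have hne : (MvPolynomial.X 1 : MvPolynomial (Fin 2) K) ^ a' * a2 (F s0) * a3 (F s0) ≠ 0 :=
    mul_ne_zero (mul_ne_zero (pow_ne_zero _ hX1) (a2_ne hf)) (a3_ne hf)
  apply mul_right_cancel₀ hne
  have hs := h s
  linear_combination (MvPolynomial.X 0 ^ a * MvPolynomial.X 1 ^ a) * hs -
    MvPolynomial.X 0 ^ a * a1 (G s) * a3 (F s0) * e2' + a1 (F s) * a2 (F s0) * e3'

end

/-- Existence of a good pair of points. -/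
theorem exists_points {K : Type} [Field K] [Fintype K] (d : ℕ) [NeZero d] (F G : ZMod d → K[X])
    (E : ℕ) (hF : ∀ s, (F s).natDegree ≤ E) (hG : ∀ s, (G s).natDegree ≤ E)
    (s0 : ZMod d) (hs0 : F s0 ≠ 0)
    (hno : ∀ (a a' : ℕ) (j : ZMod d), ¬ ∀ s, X ^ a * G (s + j) = X ^ a' * F s)
    (hcard : 2 + 4 * E * d < Fintype.card K) :
    ∃ x y : K, x ≠ 0 ∧ y ≠ 0 ∧ ∀ (j : ZMod d) (α β : K), α ≠ 0 →
      ¬ (∀ s, (G (s + j)).eval x = α * (F s).eval x ∧ (G (s + j)).eval y = β * (F s).eval y ∧
        (G (s + j)).eval (x * y) = α * β * (F s).eval (x * y)) := by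
  classical
  have key : ∀ j : ZMod d, ∃ I : MvPolynomial (Fin 2) K, I ≠ 0 ∧ I.totalDegree ≤ 4 * E ∧
      ∀ v : Fin 2 → K, ∀ α β : K, α ≠ 0 →
        (∀ s, (G (s + j)).eval (v 0) = α * (F s).eval (v 0) ∧
          (G (s + j)).eval (v 1) = β * (F s).eval (v 1) ∧
          (G (s + j)).eval (v 0 * v 1) = α * β * (F s).eval (v 0 * v 1)) →
        MvPolynomial.eval v I = 0 := by
    intro j
    by_cases hg : G (s0 + j) = 0
    · refine ⟨a1 (F s0), a1_ne hs0, ?_, ?_⟩
      · refine (totalDegree_aeval_le _ _).trans ?_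
        rw [MvPolynomial.totalDegree_X]
        have := hF s0
        omega
      · intro v α β hα h
        have h1 := (h s0).1
        rw [hg, eval_zero] at h1
        have h2 : (F s0).eval (v 0) = 0 := by
          rcases mul_eq_zero.1 h1.symm with h3 | h3
          · exact absurd h3 hα
          · exact h3
        unfold a1
        rw [eval_aeval, MvPolynomial.eval_X, h2]
    · have : ∃ s, a1 (G (s + j)) * a2 (G (s0 + j)) * a3 (F s0) ≠
          a1 (F s) * a2 (F s0) * a3 (G (s0 + j)) := by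
        by_contra hcon
        push Not at hcon
        obtain ⟨a, a', haa⟩ := shift_family F (fun s => G (s + j)) s0 hs0 hg hcon
        exact hno a a' j haa
      obtain ⟨s, hs⟩ := this
      refine ⟨a1 (G (s + j)) * a2 (G (s0 + j)) * a3 (F s0) -
        a1 (F s) * a2 (F s0) * a3 (G (s0 + j)), sub_ne_zero.2 hs, ?_, ?_⟩
      · have hd1 : ∀ f : K[X], f.natDegree ≤ E → (a1 f).totalDegree ≤ E := by
          intro f hf
          refine (totalDegree_aeval_le _ _).trans ?_
          rw [MvPolynomial.totalDegree_X]; omega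
        have hd2 : ∀ f : K[X], f.natDegree ≤ E → (a2 f).totalDegree ≤ E := by
          intro f hf
          refine (totalDegree_aeval_le _ _).trans ?_
          rw [MvPolynomial.totalDegree_X]; omega
        have hd3 : ∀ f : K[X], f.natDegree ≤ E → (a3 f).totalDegree ≤ 2 * E := by
          intro f hf
          refine (totalDegree_aeval_le _ _).trans ?_
          have : (MvPolynomial.X 0 * MvPolynomial.X 1 : MvPolynomial (Fin 2) K).totalDegree ≤ 2 := by
            refine (MvPolynomial.totalDegree_mul _ _).trans ?_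
            rw [MvPolynomial.totalDegree_X, MvPolynomial.totalDegree_X]
          nlinarith
        have hm : ∀ p q r : MvPolynomial (Fin 2) K, (p * q * r).totalDegree ≤
            p.totalDegree + q.totalDegree + r.totalDegree := by
          intro p q r
          refine (MvPolynomial.totalDegree_mul _ _).trans ?_
          exact Nat.add_le_add_right (MvPolynomial.totalDegree_mul _ _) _
        refine (MvPolynomial.totalDegree_sub _ _).trans (max_le ?_ ?_)
        · refine (hm _ _ _).trans ?_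
          have := hd1 _ (hG (s + j)); have := hd2 _ (hG (s0 + j)); have := hd3 _ (hF s0)
          omega
        · refine (hm _ _ _).trans ?_
          have := hd1 _ (hF s); have := hd2 _ (hF s0); have := hd3 _ (hG (s0 + j))
          omega
      · intro v α β hα h
        have h1 := (h s).1
        have h2 := (h s0).2.1
        have h3 := (h s0).2.2
        unfold a1 a2 a3
        simp only [map_sub, map_mul, eval_aeval, MvPolynomial.eval_X]
        rw [h1, h2, h3]; ring
  choose I hI0 hId hIe using key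
  have hprod : (MvPolynomial.X 0 * MvPolynomial.X 1 * ∏ j, I j : MvPolynomial (Fin 2) K) ≠ 0 :=
    mul_ne_zero (mul_ne_zero (MvPolynomial.X_ne_zero 0) (MvPolynomial.X_ne_zero 1))
      (Finset.prod_ne_zero_iff.2 fun j _ => hI0 j)
  have hdeg : (MvPolynomial.X 0 * MvPolynomial.X 1 * ∏ j, I j : MvPolynomial (Fin 2) K).totalDegree
      < Fintype.card K := by
    refine lt_of_le_of_lt ?_ hcard
    refine (MvPolynomial.totalDegree_mul _ _).trans ?_
    refine Nat.add_le_add ?_ ?_
    · refine (MvPolynomial.totalDegree_mul _ _).trans ?_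
      rw [MvPolynomial.totalDegree_X, MvPolynomial.totalDegree_X]
    · refine (MvPolynomial.totalDegree_finsetProd _ _).trans ?_
      refine (Finset.sum_le_card_nsmul _ _ _ (fun j _ => hId j)).trans ?_
      rw [Finset.card_univ, ZMod.card, smul_eq_mul]
      apply le_of_eq; ring
  obtain ⟨v, hv⟩ := exists_eval_ne_zero _ hprod hdeg
  simp only [map_mul, MvPolynomial.eval_X, map_prod] at hv
  have hv1 : v 0 * v 1 ≠ 0 := left_ne_zero_of_mul hv
  have hv2 : ∏ j, MvPolynomial.eval v (I j) ≠ 0 := right_ne_zero_of_mul hv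
  refine ⟨v 0, v 1, left_ne_zero_of_mul hv1, right_ne_zero_of_mul hv1, ?_⟩
  intro j α β hα h
  exact (Finset.prod_ne_zero_iff.1 hv2 j (Finset.mem_univ j)) (hIe j v α β hα h)

end Pool.Agent.V1123.PolyThree
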