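import Mathlib

set_option autoImplicit false

namespace Pool.Agent.V1123.Wreath

/-- The restricted wreath product of the additive group `R` by the additive commutative group `Γ`:
an element is a finitely supported function `f : Γ → R` together with a position `b : Γ`. -/
@[ext] structure Wr (R Γ : Type) [AddCommGroup R] [AddCommGroup Γ] where
  f : Γ →₀ R
  b : Γ

/-- Translation by `c` of a finitely supported function on `Γ`. -/
noncomputable def sh {R Γ : Type} [AddCommGroup R] [AddCommGroup Γ] (c : Γ) (f : Γ →₀ R) : Γ →₀ R :=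
  f.mapDomain (fun v => c + v)

section sh

variable {R Γ : Type} [AddCommGroup R] [AddCommGroup Γ]

theorem sh_add_fun (c : Γ) (f g : Γ →₀ R) : sh c (f + g) = sh c f + sh c g :=
  Finsupp.mapDomain_add

theorem sh_zero_fun (c : Γ) : sh c (0 : Γ →₀ R) = 0 := Finsupp.mapDomain_zero

/-- Translation as an additive hom. -/
noncomputable def shHom (c : Γ) : (Γ →₀ R) →+ (Γ →₀ R) where
  toFun := sh c
  map_zero' := sh_zero_fun c
  map_add' := sh_add_fun c

theorem shHom_apply (c : Γ) (f : Γ →₀ R) : shHom c f = sh c f := rfl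

theorem sh_neg_fun (c : Γ) (f : Γ →₀ R) : sh c (-f) = -sh c f := map_neg (shHom c) f

theorem sh_sub_fun (c : Γ) (f g : Γ →₀ R) : sh c (f - g) = sh c f - sh c g :=
  map_sub (shHom c) f g

theorem sh_zero (f : Γ →₀ R) : sh 0 f = f := by
  unfold sh
  have : (fun v : Γ => 0 + v) = id := by ext; simp
  rw [this, Finsupp.mapDomain_id]

theorem sh_sh (c d : Γ) (f : Γ →₀ R) : sh c (sh d f) = sh (c + d) f := by
  unfold sh
  rw [← Finsupp.mapDomain_comp]
  congr 1
  ext v; simp [add_assoc]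

theorem sh_neg_sh (c : Γ) (f : Γ →₀ R) : sh (-c) (sh c f) = f := by
  rw [sh_sh, neg_add_cancel, sh_zero]

theorem sh_sh_neg (c : Γ) (f : Γ →₀ R) : sh c (sh (-c) f) = f := by
  rw [sh_sh, add_neg_cancel, sh_zero]

theorem sh_single (c v : Γ) (r : R) : sh c (Finsupp.single v r) = Finsupp.single (c + v) r :=
  Finsupp.mapDomain_single

theorem sh_apply (c v : Γ) (f : Γ →₀ R) : sh c f v = f (v - c) := by
  have h : Function.Injective (fun v : Γ => c + v) := add_right_injective c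
  have e : v = c + (v - c) := by abel
  conv_lhs => rw [e]
  exact Finsupp.mapDomain_apply h f (v - c)

end sh

namespace Wr

variable {R Γ : Type} [AddCommGroup R] [AddCommGroup Γ]

noncomputable instance : Mul (Wr R Γ) := ⟨fun x y => ⟨x.f + sh x.b y.f, x.b + y.b⟩⟩
instance : One (Wr R Γ) := ⟨⟨0, 0⟩⟩
noncomputable instance : Inv (Wr R Γ) := ⟨fun x => ⟨-sh (-x.b) x.f, -x.b⟩⟩

theorem mul_def (x y : Wr R Γ) : x * y = ⟨x.f + sh x.b y.f, x.b + y.b⟩ := rfl
theorem one_def : (1 : Wr R Γ) = ⟨0, 0⟩ := rfl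
theorem inv_def (x : Wr R Γ) : x⁻¹ = ⟨-sh (-x.b) x.f, -x.b⟩ := rfl

noncomputable instance : Group (Wr R Γ) := Group.ofLeftAxioms
  (by
    intro x y z
    simp only [mul_def, sh_add_fun, sh_sh]
    ext1 <;> simp only [add_assoc])
  (by
    intro x
    simp only [mul_def, one_def, sh_zero, zero_add])
  (by
    intro x
    simp only [mul_def, one_def, inv_def, neg_add_cancel])

@[simp] theorem mul_f (x y : Wr R Γ) : (x * y).f = x.f + sh x.b y.f := rfl
@[simp] theorem mul_b (x y : Wr R Γ) : (x * y).b = x.b + y.b := rfl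
@[simp] theorem one_f : (1 : Wr R Γ).f = 0 := rfl
@[simp] theorem one_b : (1 : Wr R Γ).b = 0 := rfl
@[simp] theorem inv_f (x : Wr R Γ) : (x⁻¹).f = -sh (-x.b) x.f := rfl
@[simp] theorem inv_b (x : Wr R Γ) : (x⁻¹).b = -x.b := rfl

theorem conj_f (z x : Wr R Γ) : (z * x * z⁻¹).f = z.f + sh z.b x.f - sh x.b z.f := by
  simp only [mul_f, mul_b, inv_f, sh_neg_fun, sh_sh]
  have : z.b + x.b + -z.b = x.b := by abel
  rw [this]; abel

theorem conj_b (z x : Wr R Γ) : (z * x * z⁻¹).b = x.b := by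
  simp only [mul_b, inv_b]; abel

end Wr

section Depth

variable {G : Type} [Group G]

/-- The ball of radius `n`: products of at most `n` elements of `S ∪ S⁻¹`. -/
def ball (S : Finset G) (n : ℕ) : Set G :=
  {g : G | ∃ l : List G, l.length ≤ n ∧ (∀ x ∈ l, x ∈ S ∨ x⁻¹ ∈ S) ∧ l.prod = g}

/-- The least index of a finite-index normal subgroup `N` such that the images of `x` and `y`
in the quotient by `N` are not conjugate (`⊤` if there is none). -/
noncomputable def depth (x y : G) : ℕ∞ :=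
  ⨅ (N : Subgroup G) (_ : N.Normal) (_ : N.FiniteIndex)
    (_ : ¬ IsConj (QuotientGroup.mk x : G ⧸ N) (QuotientGroup.mk y : G ⧸ N)), (N.index : ℕ∞)

/-- The conjugacy depth function of `G` with respect to the finite set `S`. -/
noncomputable def conjDepth (S : Finset G) (n : ℕ) : ℕ∞ :=
  ⨆ (x ∈ ball S n) (y ∈ ball S n) (_ : ¬ IsConj x y), depth x y

theorem depth_le (x y : G) (N : Subgroup G) [hN : N.Normal] (h : N.FiniteIndex)
    (hc : ¬ IsConj (QuotientGroup.mk x : G ⧸ N) (QuotientGroup.mk y : G ⧸ N)) (m : ℕ)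
    (hm : N.index ≤ m) : depth x y ≤ (m : ℕ∞) := by
  unfold depth
  refine (iInf_le _ N).trans ?_
  refine (iInf_le _ hN).trans ?_
  refine (iInf_le _ h).trans ?_
  refine (iInf_le _ hc).trans ?_
  exact_mod_cast hm

/-- Index bound through a code. -/
theorem index_le_of_code (N : Subgroup G) (T : Type) [Finite T] (q : G → T)
    (hq : ∀ g h, q g = q h → g⁻¹ * h ∈ N) : N.FiniteIndex ∧ N.index ≤ Nat.card T := by
  have hinj : Function.Injective (fun κ : G ⧸ N => q κ.out) := by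
    intro κ κ' h
    have := hq _ _ h
    rw [← QuotientGroup.eq] at this
    rw [QuotientGroup.out_eq', QuotientGroup.out_eq'] at this
    exact this
  have hfin : Finite (G ⧸ N) := Finite.of_injective _ hinj
  refine ⟨Subgroup.finiteIndex_of_finite_quotient, ?_⟩
  exact Nat.card_le_card_of_injective _ hinj

end Depth

section Sep

variable {R Γ A : Type} [AddCommGroup R] [AddCommGroup Γ] [AddCommGroup A]

/-- The subgroup cut out by an equivariant additive map. -/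
noncomputable def sepSub (Θ : (Γ →₀ R) →+ A) (u : Γ → A →+ A)
    (hu : ∀ c f, Θ (sh c f) = u c (Θ f)) (Λ : AddSubgroup Γ) : Subgroup (Wr R Γ) where
  carrier := {g | Θ g.f = 0 ∧ g.b ∈ Λ}
  one_mem' := ⟨by simp, by simp⟩
  mul_mem' := by
    rintro x y ⟨hx, hx'⟩ ⟨hy, hy'⟩
    refine ⟨?_, Λ.add_mem hx' hy'⟩
    rw [Wr.mul_f, map_add, hu, hx, hy, map_zero, add_zero]
  inv_mem' := by
    rintro x ⟨hx, hx'⟩
    refine ⟨?_, Λ.neg_mem hx'⟩
    rw [Wr.inv_f, map_neg, hu, hx, map_zero, neg_zero]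

theorem mem_sepSub (Θ : (Γ →₀ R) →+ A) (u : Γ → A →+ A)
    (hu : ∀ c f, Θ (sh c f) = u c (Θ f)) (Λ : AddSubgroup Γ) (g : Wr R Γ) :
    g ∈ sepSub Θ u hu Λ ↔ Θ g.f = 0 ∧ g.b ∈ Λ := Iff.rfl

theorem sepSub_normal (Θ : (Γ →₀ R) →+ A) (u : Γ → A →+ A)
    (hu : ∀ c f, Θ (sh c f) = u c (Θ f)) (Λ : AddSubgroup Γ) (hΛ : ∀ c ∈ Λ, ∀ a, u c a = a) :
    (sepSub Θ u hu Λ).Normal := by
  constructor
  rintro x ⟨hx, hx'⟩ z
  rw [mem_sepSub, Wr.conj_f, Wr.conj_b]
  refine ⟨?_, hx'⟩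
  rw [map_sub, map_add, hu, hu, hx, map_zero, hΛ _ hx']
  simp

/-- Main separation lemma. -/
theorem depth_le_of_sep (Θ : (Γ →₀ R) →+ A) (u : Γ → A →+ A)
    (hu : ∀ c f, Θ (sh c f) = u c (Θ f)) (Λ : AddSubgroup Γ) (hΛ : ∀ c ∈ Λ, ∀ a, u c a = a)
    (T : Type) [Finite T] [Finite A] (code : Γ → T) (hcode : ∀ c c', code c = code c' → c' - c ∈ Λ)
    (x y : Wr R Γ)
    (hxy : ∀ z : Wr R Γ, Θ y.f = Θ z.f + u z.b (Θ x.f) - u x.b (Θ z.f) → y.b - x.b ∉ Λ) (m : ℕ)
    (hm : Nat.card A * Nat.card T ≤ m) :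
    depth x y ≤ (m : ℕ∞) := by
  have := sepSub_normal Θ u hu Λ hΛ
  obtain ⟨h1, h2⟩ := index_le_of_code (sepSub Θ u hu Λ) (A × T)
    (fun g => (Θ g.f, code g.b)) (by
      intro g h hgh
      rw [Prod.mk.injEq] at hgh
      obtain ⟨hgh1, hgh2⟩ := hgh
      rw [mem_sepSub]
      simp only [Wr.mul_f, Wr.mul_b, Wr.inv_f, Wr.inv_b]
      refine ⟨?_, ?_⟩
      · rw [map_add, map_neg, hu, hu, hgh1]; simp
      · have := hcode _ _ hgh2
        rwa [sub_eq_neg_add] at this)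
  rw [Nat.card_prod] at h2
  refine depth_le x y (sepSub Θ u hu Λ) h1 ?_ m (h2.trans hm)
  intro hc
  rw [isConj_iff] at hc
  obtain ⟨z', hz⟩ := hc
  obtain ⟨z, rfl⟩ := QuotientGroup.mk_surjective z'
  have hz' : (QuotientGroup.mk (z * x * z⁻¹) : Wr R Γ ⧸ sepSub Θ u hu Λ) = QuotientGroup.mk y := hz
  rw [QuotientGroup.eq] at hz'
  have hz2 := (sepSub_normal Θ u hu Λ hΛ).mem_comm hz'
  rw [mem_sepSub] at hz2
  obtain ⟨h3, h4⟩ := hz2
  have e1 : (y * (z * x * z⁻¹)⁻¹).f = y.f - sh (y.b - x.b) (z * x * z⁻¹).f := by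
    rw [Wr.mul_f, Wr.inv_f, Wr.conj_b, sh_neg_fun, sh_sh]
    rw [sub_eq_add_neg, sub_eq_add_neg]
  have e2 : (y * (z * x * z⁻¹)⁻¹).b = y.b - x.b := by
    rw [Wr.mul_b, Wr.inv_b, Wr.conj_b, sub_eq_add_neg]
  rw [e2] at h4
  rw [e1, map_sub, hu, hΛ _ h4, Wr.conj_f, map_sub, map_add, hu, hu, sub_eq_zero] at h3
  exact hxy z h3 h4

end Sep

end Pool.Agent.V1123.Wreath
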