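import Mathlib
import Pool.Agent.V1123.Wreath
import Pool.Agent.V1123.PolyThree

set_option autoImplicit false

namespace Pool.Agent.V1123.Wreath

open Polynomial

section Range

variable {R Γ : Type} [AddCommGroup R] [AddCommGroup Γ]

/-- The coboundaries of translation by `b`. -/
noncomputable def bd (b : Γ) : AddSubgroup (Γ →₀ R) := (AddMonoidHom.id (Γ →₀ R) - shHom b).range

theorem mem_bd (b : Γ) (h : Γ →₀ R) : h ∈ bd b ↔ ∃ g : Γ →₀ R, h = g - sh b g := by
  unfold bd
  rw [AddMonoidHom.mem_range]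
  constructor
  · rintro ⟨g, hg⟩; exact ⟨g, by rw [← hg]; rfl⟩
  · rintro ⟨g, hg⟩; exact ⟨g, by rw [hg]; rfl⟩

theorem single_sub_nsmul (b v : Γ) (r : R) (m : ℕ) :
    Finsupp.single v r - Finsupp.single (v + m • b) r ∈ (bd b : AddSubgroup (Γ →₀ R)) := by
  induction m with
  | zero => simp
  | succ m ih =>
    have h1 : Finsupp.single (v + m • b) r - Finsupp.single (v + (m + 1) • b) r ∈
        (bd b : AddSubgroup (Γ →₀ R)) := by
      rw [mem_bd]
      refine ⟨Finsupp.single (v + m • b) r, ?_⟩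
      rw [sh_single]
      congr 2
      rw [succ_nsmul]; abel
    have := (bd b).add_mem ih h1
    simpa using this

theorem single_sub_mem (b v v' : Γ) (r : R) (h : v - v' ∈ AddSubgroup.zmultiples b) :
    Finsupp.single v r - Finsupp.single v' r ∈ (bd b : AddSubgroup (Γ →₀ R)) := by
  obtain ⟨m, hm⟩ := AddSubgroup.mem_zmultiples_iff.1 h
  obtain ⟨n, rfl | rfl⟩ := m.eq_nat_or_neg
  · rw [natCast_zsmul] at hm
    have h1 := single_sub_nsmul b v' r n
    have e : v' + n • b = v := by rw [hm]; abel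
    rw [e] at h1
    have := (bd b).neg_mem h1
    simpa using this
  · rw [neg_smul, natCast_zsmul] at hm
    have h1 := single_sub_nsmul b v r n
    have e : v + n • b = v' := by
      have : n • b = v' - v := by rw [← neg_inj, hm]; abel
      rw [this]; abel
    rw [e] at h1
    exact h1

theorem mem_range_of_map_zero {Q : Type} (κ : Γ → Q) (b : Γ) (h : Γ →₀ R)
    (hκ : ∀ v ∈ h.support, ∀ v' ∈ h.support, κ v = κ v' → v - v' ∈ AddSubgroup.zmultiples b)
    (h0 : h.mapDomain κ = 0) : h ∈ (bd b : AddSubgroup (Γ →₀ R)) := by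
  classical
  let e : Q → Γ := fun q => if hq : ∃ v ∈ h.support, κ v = q then hq.choose else 0
  have he : ∀ v ∈ h.support, v - e (κ v) ∈ AddSubgroup.zmultiples b := by
    intro v hv
    have hq : ∃ v' ∈ h.support, κ v' = κ v := ⟨v, hv, rfl⟩
    have h1 : e (κ v) = hq.choose := by simp only [e]; rw [dif_pos hq]
    rw [h1]
    exact hκ v hv _ hq.choose_spec.1 hq.choose_spec.2.symm
  have h1 : h.mapDomain (fun v => e (κ v)) = 0 := by
    have : h.mapDomain (fun v => e (κ v)) = (h.mapDomain κ).mapDomain e := by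
      rw [← Finsupp.mapDomain_comp]; rfl
    rw [this, h0, Finsupp.mapDomain_zero]
  have h2 : h = ∑ v ∈ h.support, (Finsupp.single v (h v) - Finsupp.single (e (κ v)) (h v)) := by
    rw [Finset.sum_sub_distrib]
    have h3 : ∑ v ∈ h.support, Finsupp.single (e (κ v)) (h v) = 0 := h1
    rw [h3, sub_zero]
    exact (Finsupp.sum_single h).symm
  rw [h2]
  exact AddSubgroup.sum_mem _ fun v hv => single_sub_mem b _ _ _ (he v hv)

theorem isConj_of_mem_bd (x y : Wr R Γ) (hb : x.b = y.b) (c : Γ)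
    (h : y.f - sh c x.f ∈ (bd x.b : AddSubgroup (Γ →₀ R))) : IsConj x y := by
  rw [mem_bd] at h
  obtain ⟨g, hg⟩ := h
  rw [isConj_iff]
  refine ⟨⟨g, c⟩, ?_⟩
  ext1
  · rw [Wr.conj_f]
    have : y.f = sh c x.f + (g - sh x.b g) := by rw [← hg]; abel
    rw [this]; simp only; abel
  · rw [Wr.conj_b, hb]

theorem depth_comm {G : Type} [Group G] (x y : G) : depth x y = depth y x := by
  unfold depth
  simp only [isConj_comm]

end Range

section Core

set_option linter.unusedSectionVars false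

variable {R Γ K : Type} [AddCommGroup R] [AddCommGroup Γ] [Field K]
variable (d : ℕ) [NeZero d] (lam : Γ →+ ℤ) (mu : Γ →+ ZMod d) (ρ : R →+ K)

/-- The projection. -/
noncomputable def Pr (f : Γ →₀ R) : (ℤ × ZMod d) →₀ R := f.mapDomain (fun v => (lam v, mu v))

theorem Pr_sub (f g : Γ →₀ R) : Pr d lam mu (f - g) = Pr d lam mu f - Pr d lam mu g := by
  unfold Pr
  exact map_sub (Finsupp.mapDomain.addMonoidHom (fun v : Γ => (lam v, mu v))) f g

theorem Pr_sh (c : Γ) (f : Γ →₀ R) : Pr d lam mu (sh c f) = sh (lam c, mu c) (Pr d lam mu f) := by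
  unfold Pr sh
  rw [← Finsupp.mapDomain_comp, ← Finsupp.mapDomain_comp]
  congr 1
  ext v <;> simp

theorem Pr_ne_zero (f : Γ →₀ R) (z : ℤ) (s : ZMod d) (h : Pr d lam mu f (z, s) ≠ 0) :
    ∃ v ∈ f.support, lam v = z ∧ mu v = s := by
  classical
  have h1 : (z, s) ∈ (Pr d lam mu f).support := Finsupp.mem_support_iff.2 h
  have h2 := Finsupp.mapDomain_support h1
  rw [Finset.mem_image] at h2
  obtain ⟨v, hv, hv'⟩ := h2
  rw [Prod.mk.injEq] at hv'
  exact ⟨v, hv, hv'.1, hv'.2⟩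

theorem support_sh (c : Γ) (f : Γ →₀ R) (v : Γ) (hv : v ∈ (sh c f).support) : v - c ∈ f.support := by
  rw [Finsupp.mem_support_iff, sh_apply] at hv
  exact Finsupp.mem_support_iff.2 hv

/-- From equality of projections up to a shift to conjugacy. -/
theorem conj_of_shift (x y : Wr R Γ) (hb : x.b = y.b) 
    (B : Set Γ) (hx : ∀ v ∈ x.f.support, v ∈ B) (hy : ∀ v ∈ y.f.support, v ∈ B)
    (hinj : ∀ v v' : Γ, (∃ v1 ∈ B, ∃ v2 ∈ B, ∃ v3 ∈ B, v = v1 + (v2 - v3)) →
      (∃ v1 ∈ B, ∃ v2 ∈ B, ∃ v3 ∈ B, v' = v1 + (v2 - v3)) → lam v = lam v' → mu v = mu v' →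
      v - v' ∈ AddSubgroup.zmultiples x.b)
    (hne : Pr d lam mu x.f ≠ 0) (i : ℤ) (j : ZMod d)
    (h : ∀ z s, Pr d lam mu y.f (z, s) = Pr d lam mu x.f (z - i, s - j)) : IsConj x y := by
  classical
  obtain ⟨⟨z0, s0⟩, h0⟩ := Finsupp.ne_iff.1 hne
  rw [Finsupp.zero_apply] at h0
  obtain ⟨v0, hv0, hv0z, hv0s⟩ := Pr_ne_zero d lam mu x.f z0 s0 h0
  have h1 : Pr d lam mu y.f (z0 + i, s0 + j) ≠ 0 := by
    rw [h]; simpa using h0
  obtain ⟨v1, hv1, hv1z, hv1s⟩ := Pr_ne_zero d lam mu y.f _ _ h1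
  refine isConj_of_mem_bd x y hb (v1 - v0) ?_
  have hl : lam (v1 - v0) = i := by rw [map_sub, hv1z, hv0z]; ring
  have hm : mu (v1 - v0) = j := by rw [map_sub, hv1s, hv0s]; ring
  refine mem_range_of_map_zero (fun v => (lam v, mu v)) x.b _ ?_ ?_
  · have hsup : ∀ v ∈ (y.f - sh (v1 - v0) x.f).support,
        ∃ w1 ∈ B, ∃ w2 ∈ B, ∃ w3 ∈ B, v = w1 + (w2 - w3) := by
      intro v hv
      have := Finsupp.support_sub hv
      rw [Finset.mem_union] at this
      rcases this with h' | h'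
      · exact ⟨v, hy v h', v, hy v h', v, hy v h', by abel⟩
      · exact ⟨v - (v1 - v0), hx _ (support_sh _ _ _ h'), v1, hy v1 hv1, v0, hx v0 hv0, by abel⟩
    intro v hv v' hv' hvv
    rw [Prod.mk.injEq] at hvv
    exact hinj v v' (hsup v hv) (hsup v' hv') hvv.1 hvv.2
  · change Pr d lam mu (y.f - sh (v1 - v0) x.f) = 0
    rw [Pr_sub, Pr_sh, hl, hm, sub_eq_zero]
    ext ⟨z, s⟩
    rw [h, sh_apply]
    rfl

/-- The polynomials attached to a configuration. -/
noncomputable def PF (D : ℕ) (f : Γ →₀ R) (s : ZMod d) : K[X] := by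
  classical
  exact ∑ v ∈ f.support, if mu v = s then monomial (lam v + D).toNat (ρ (f v)) else 0

theorem PF_natDegree (D : ℕ) (f : Γ →₀ R) (s : ZMod d) (hD : ∀ v ∈ f.support, |lam v| ≤ D) :
    (PF d lam mu ρ D f s).natDegree ≤ 2 * D := by
  classical
  unfold PF
  refine natDegree_sum_le_of_forall_le _ _ fun v hv => ?_
  split_ifs
  · refine (natDegree_monomial_le _).trans ?_
    have := abs_le.1 (hD v hv)
    omega
  · simp

theorem PF_coeff (D : ℕ) (f : Γ →₀ R) (s : ZMod d) (hD : ∀ v ∈ f.support, |lam v| ≤ D) (n : ℕ) :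
    (PF d lam mu ρ D f s).coeff n = ρ (Pr d lam mu f ((n : ℤ) - D, s)) := by
  classical
  unfold PF Pr
  rw [finsetSum_coeff, Finsupp.mapDomain, Finsupp.sum_apply, Finsupp.sum, map_sum]
  refine Finset.sum_congr rfl fun v hv => ?_
  have := abs_le.1 (hD v hv)
  rw [Finsupp.single_apply]
  by_cases h1 : mu v = s
  · rw [if_pos h1, coeff_monomial]
    by_cases h2 : (lam v + D).toNat = n
    · rw [if_pos h2, if_pos]
      rw [Prod.mk.injEq]; exact ⟨by omega, h1⟩
    · rw [if_neg h2, if_neg, map_zero]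
      rw [Prod.mk.injEq]; rintro ⟨h3, -⟩; omega
  · rw [if_neg h1, if_neg, map_zero, coeff_zero]
    rw [Prod.mk.injEq]; rintro ⟨-, h3⟩; exact h1 h3

/-- The value at a point. -/
noncomputable def vl (t : K) (f : Γ →₀ R) (s : ZMod d) : K := by
  classical
  exact ∑ v ∈ f.support, if mu v = s then ρ (f v) * t ^ lam v else 0

theorem PF_eval (D : ℕ) (f : Γ →₀ R) (s : ZMod d) (hD : ∀ v ∈ f.support, |lam v| ≤ D) (t : K)
    (ht : t ≠ 0) : (PF d lam mu ρ D f s).eval t = t ^ D * vl d lam mu ρ t f s := by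
  classical
  unfold PF vl
  rw [eval_finsetSum, Finset.mul_sum]
  refine Finset.sum_congr rfl fun v hv => ?_
  have := abs_le.1 (hD v hv)
  split_ifs
  · rw [eval_monomial]
    have e : ((lam v + D).toNat : ℤ) = lam v + D := Int.toNat_of_nonneg (by omega)
    have : t ^ (lam v + D).toNat = t ^ lam v * t ^ D := by
      rw [← zpow_natCast, e, zpow_add₀ ht, zpow_natCast]
    rw [this]; ring
  · simp

/-- The single-term hom used in the evaluation. -/
noncomputable def thHom (xs : Fin 3 → K) (v : Γ) : R →+ (Fin 3 → ZMod d → K) := by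
  classical
  exact
  { toFun := fun r t s => if mu v = s then ρ r * xs t ^ lam v else 0
    map_zero' := by ext t s; simp
    map_add' := by
      intro r r'; ext t s
      simp only [Pi.add_apply]
      split_ifs
      · rw [map_add, add_mul]
      · simp }

/-- The evaluation hom. -/
noncomputable def Th (xs : Fin 3 → K) : (Γ →₀ R) →+ (Fin 3 → ZMod d → K) :=
  Finsupp.liftAddHom (thHom d lam mu ρ xs)

theorem Th_apply (xs : Fin 3 → K) (f : Γ →₀ R) (t : Fin 3) (s : ZMod d) :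
    Th d lam mu ρ xs f t s = vl d lam mu ρ (xs t) f s := by
  classical
  unfold Th vl
  rw [Finsupp.liftAddHom_apply, Finsupp.sum, Finset.sum_apply, Finset.sum_apply]
  rfl

/-- The action on the target. -/
noncomputable def act (xs : Fin 3 → K) (c : Γ) : (Fin 3 → ZMod d → K) →+ (Fin 3 → ZMod d → K) where
  toFun a t s := xs t ^ lam c * a t (s - mu c)
  map_zero' := by ext t s; simp
  map_add' a a' := by ext t s; simp [mul_add]

theorem Th_sh (xs : Fin 3 → K) (hxs : ∀ t, xs t ≠ 0) (c : Γ) (f : Γ →₀ R) :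
    Th d lam mu ρ xs (sh c f) = act d lam mu xs c (Th d lam mu ρ xs f) := by
  classical
  have : (Th d lam mu ρ xs).comp (shHom c) =
      (act d lam mu xs c).comp (Th d lam mu ρ xs : (Γ →₀ R) →+ _) := by
    apply Finsupp.addHom_ext
    intro v r
    rw [AddMonoidHom.comp_apply, AddMonoidHom.comp_apply, shHom_apply, sh_single]
    unfold Th
    rw [Finsupp.liftAddHom_apply_single, Finsupp.liftAddHom_apply_single]
    ext t s
    simp only [thHom, act, AddMonoidHom.coe_mk, ZeroHom.coe_mk, map_add]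
    have e : mu c + mu v = s ↔ mu v = s - mu c := by
      rw [eq_sub_iff_add_eq, add_comm]
    by_cases h : mu v = s - mu c
    · rw [if_pos h, if_pos (e.2 h), zpow_add₀ (hxs t)]; ring
    · rw [if_neg h, if_neg (fun h' => h (e.1 h')), mul_zero]
  exact DFunLike.congr_fun this f

/-- The kernel of the action. -/
def actKer (xs : Fin 3 → K) (hxs : ∀ t, xs t ≠ 0) : AddSubgroup Γ where
  carrier := {c | mu c = 0 ∧ ∀ t, xs t ^ lam c = 1}
  zero_mem' := ⟨by simp, by simp⟩
  add_mem' := by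
    rintro a b ⟨ha, ha'⟩ ⟨hb, hb'⟩
    exact ⟨by rw [map_add, ha, hb, add_zero], fun t => by
      rw [map_add, zpow_add₀ (hxs t), ha', hb', one_mul]⟩
  neg_mem' := by
    rintro a ⟨ha, ha'⟩
    exact ⟨by rw [map_neg, ha, neg_zero], fun t => by rw [map_neg, zpow_neg, ha', inv_one]⟩

/-- Core bound. -/
theorem depth_le_core [Fintype K] (Good : Set R)
    (hρ : ∀ a ∈ Good, ∀ a' ∈ Good, ρ a = ρ a' → a = a') (hG0 : (0 : R) ∈ Good)
    (x y : Wr R Γ) (hb : x.b = y.b) (hlb : lam x.b = 0) (hmb : mu x.b = 0)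
    (B : Set Γ) (hx : ∀ v ∈ x.f.support, v ∈ B) (hy : ∀ v ∈ y.f.support, v ∈ B)
    (hinj : ∀ v v' : Γ, (∃ v1 ∈ B, ∃ v2 ∈ B, ∃ v3 ∈ B, v = v1 + (v2 - v3)) →
      (∃ v1 ∈ B, ∃ v2 ∈ B, ∃ v3 ∈ B, v' = v1 + (v2 - v3)) → lam v = lam v' → mu v = mu v' →
      v - v' ∈ AddSubgroup.zmultiples x.b)
    (hgx : ∀ w, Pr d lam mu x.f w ∈ Good) (hgy : ∀ w, Pr d lam mu y.f w ∈ Good)
    (D : ℕ) (hD : ∀ v ∈ B, |lam v| ≤ D) (hD1 : 1 ≤ D)
    (hne : Pr d lam mu x.f ≠ 0) (hconj : ¬ IsConj x y)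
    (hcard : 2 + 4 * (2 * D) * d < Fintype.card K) :
    depth x y ≤ ((Fintype.card K ^ (3 * d + 4) : ℕ) : ℕ∞) := by
  classical
  have hDx : ∀ v ∈ x.f.support, |lam v| ≤ D := fun v hv => hD v (hx v hv)
  have hDy : ∀ v ∈ y.f.support, |lam v| ≤ D := fun v hv => hD v (hy v hv)
  obtain ⟨⟨z0, s0⟩, h0⟩ := Finsupp.ne_iff.1 hne
  rw [Finsupp.zero_apply] at h0
  have hrho : ∀ a ∈ Good, a ≠ 0 → ρ a ≠ 0 := by
    intro a ha ha0 h
    exact ha0 (hρ a ha 0 hG0 (by rw [h, map_zero]))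
  have hs0 : PF d lam mu ρ D x.f s0 ≠ 0 := by
    intro hP
    obtain ⟨v0, hv0, hv0z, hv0s⟩ := Pr_ne_zero d lam mu x.f z0 s0 h0
    have h1 := PF_coeff d lam mu ρ D x.f s0 hDx (z0 + D).toNat
    have h2 := abs_le.1 (hDx v0 hv0)
    have e : ((z0 + D).toNat : ℤ) - D = z0 := by
      rw [Int.toNat_of_nonneg (by omega)]; ring
    rw [hP, coeff_zero, e] at h1
    exact hrho _ (hgx _) h0 h1.symm
  have hvan : ∀ (f : Γ →₀ R), (∀ v ∈ f.support, |lam v| ≤ D) → ∀ (z : ℤ) (s : ZMod d),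
      z < -D → Pr d lam mu f (z, s) = 0 := by
    intro f hf z s hz
    by_contra hcon
    obtain ⟨v, hv, hvz, -⟩ := Pr_ne_zero d lam mu f z s hcon
    have := abs_le.1 (hf v hv)
    omega
  have hcoef : ∀ (f : Γ →₀ R), (∀ v ∈ f.support, |lam v| ≤ D) → ∀ (a m : ℕ) (s : ZMod d),
      (X ^ a * PF d lam mu ρ D f s).coeff m = ρ (Pr d lam mu f ((m : ℤ) - a - D, s)) := by
    intro f hf a m s
    rw [coeff_X_pow_mul']
    split_ifs with h
    · rw [PF_coeff d lam mu ρ D f s hf]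
      congr 3
      push_cast [Nat.cast_sub h]; ring
    · rw [hvan f hf _ _ (by omega), map_zero]
  have hno : ∀ (a a' : ℕ) (j : ZMod d), ¬ ∀ s, X ^ a * PF d lam mu ρ D y.f (s + j) =
      X ^ a' * PF d lam mu ρ D x.f s := by
    intro a a' j h
    apply hconj
    refine conj_of_shift d lam mu x y hb B hx hy hinj hne ((a' : ℤ) - a) j ?_
    intro z s
    have h1 : ∀ (m : ℕ), Pr d lam mu y.f ((m : ℤ) - a - D, s) =
        Pr d lam mu x.f ((m : ℤ) - a' - D, s - j) := by
      intro m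
      apply hρ _ (hgy _) _ (hgx _)
      rw [← hcoef y.f hDy a m s, ← hcoef x.f hDx a' m (s - j), ← h (s - j), sub_add_cancel]
    by_cases hz : 0 ≤ z + a + D
    · have h2 := h1 (z + a + D).toNat
      rw [Int.toNat_of_nonneg hz] at h2
      have e1 : z + a + D - a - D = z := by ring
      have e2 : z + a + D - a' - D = z - (a' - a) := by ring
      rw [e1, e2] at h2
      exact h2
    · rw [hvan y.f hDy _ _ (by omega), hvan x.f hDx _ _ (by omega)]
  obtain ⟨p, q, hp, hq, hpq⟩ := PolyThree.exists_points d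
    (fun s => PF d lam mu ρ D x.f s) (fun s => PF d lam mu ρ D y.f s) (2 * D)
    (fun s => PF_natDegree d lam mu ρ D x.f s hDx) (fun s => PF_natDegree d lam mu ρ D y.f s hDy)
    s0 hs0 hno hcard
  set xs : Fin 3 → K := ![p, q, p * q] with hxs_def
  have hxs : ∀ t, xs t ≠ 0 := by
    intro t
    fin_cases t
    · exact hp
    · exact hq
    · exact mul_ne_zero hp hq
  have hact : ∀ c ∈ actKer d lam mu xs hxs, ∀ a, act d lam mu xs c a = a := by
    rintro c ⟨hc1, hc2⟩ a
    ext t s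
    change xs t ^ lam c * a t (s - mu c) = a t s
    rw [hc1, hc2, one_mul, sub_zero]
  have hxb : x.b ∈ actKer d lam mu xs hxs := ⟨hmb, fun t => by rw [hlb, zpow_zero]⟩
  refine depth_le_of_sep (Th d lam mu ρ xs) (act d lam mu xs) (Th_sh d lam mu ρ xs hxs)
    (actKer d lam mu xs hxs) hact ((Fin 3 → K) × ZMod d) (fun c => (fun t => xs t ^ lam c, mu c))
    ?_ x y ?_ _ ?_
  · intro c c' h
    rw [Prod.mk.injEq] at h
    refine ⟨by rw [map_sub, h.2, sub_self], fun t => ?_⟩
    rw [map_sub, zpow_sub₀ (hxs t), ← congrFun h.1 t]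
    exact div_self (zpow_ne_zero _ (hxs t))
  · intro z hz _
    rw [hact x.b hxb] at hz
    have hz' : Th d lam mu ρ xs y.f = act d lam mu xs z.b (Th d lam mu ρ xs x.f) := by
      rw [hz]; abel
    apply hpq (mu z.b) (p ^ lam z.b) (q ^ lam z.b) (zpow_ne_zero _ hp)
    have hval : ∀ (t : Fin 3) (s : ZMod d), vl d lam mu ρ (xs t) y.f (s + mu z.b) =
        xs t ^ lam z.b * vl d lam mu ρ (xs t) x.f s := by
      intro t s
      rw [← Th_apply, hz', ← Th_apply]
      change xs t ^ lam z.b * Th d lam mu ρ xs x.f t (s + mu z.b - mu z.b) = _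
      rw [add_sub_cancel_right]
    intro s
    refine ⟨?_, ?_, ?_⟩
    · rw [PF_eval d lam mu ρ D y.f _ hDy p hp, PF_eval d lam mu ρ D x.f _ hDx p hp]
      have := hval 0 s
      simp only [hxs_def, Matrix.cons_val_zero] at this
      rw [this]; ring
    · rw [PF_eval d lam mu ρ D y.f _ hDy q hq, PF_eval d lam mu ρ D x.f _ hDx q hq]
      have := hval 1 s
      simp only [hxs_def, Matrix.cons_val_one, Matrix.cons_val_zero] at this
      rw [this]; ring
    · rw [PF_eval d lam mu ρ D y.f _ hDy _ (mul_ne_zero hp hq),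
        PF_eval d lam mu ρ D x.f _ hDx _ (mul_ne_zero hp hq)]
      have := hval 2 s
      have e : xs 2 = p * q := rfl
      rw [e] at this
      rw [this, mul_zpow]; ring
  · have hK : 1 ≤ Fintype.card K := Fintype.card_pos
    rw [Nat.card_prod, Nat.card_eq_fintype_card, Nat.card_eq_fintype_card, Nat.card_eq_fintype_card,
      ZMod.card, Fintype.card_fun, Fintype.card_fun, Fintype.card_fun, Fintype.card_fin, ZMod.card]
    have hd : d ≤ Fintype.card K := by
      nlinarith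
    calc (Fintype.card K ^ d) ^ 3 * (Fintype.card K ^ 3 * d)
        ≤ (Fintype.card K ^ d) ^ 3 * (Fintype.card K ^ 3 * Fintype.card K) := by gcongr
      _ = Fintype.card K ^ (3 * d + 4) := by ring

end Core

end Pool.Agent.V1123.Wreath
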