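import Mathlib
import Pool.Agent.V1123.WreathBound

set_option autoImplicit false

namespace Pool.Agent.V1123.Wreath

section Kronecker

theorem base_zero (T : ℤ) (k : ℕ) (m : Fin k → ℤ) (hm : ∀ i, |m i| < T)
    (h : ∑ i : Fin k, T ^ (i : ℕ) * m i = 0) : ∀ i, m i = 0 := by
  induction k with
  | zero => intro i; exact i.elim0
  | succ k ih =>
    rw [Fin.sum_univ_succ] at h
    have hT : 0 < T := lt_of_le_of_lt (abs_nonneg _) (hm 0)
    have e : ∑ i : Fin k, T ^ ((i.succ : Fin (k + 1)) : ℕ) * m i.succ =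
        T * ∑ i : Fin k, T ^ (i : ℕ) * m i.succ := by
      rw [Finset.mul_sum]
      refine Finset.sum_congr rfl fun i _ => ?_
      rw [Fin.val_succ, pow_succ]; ring
    rw [e] at h
    simp only [Fin.val_zero, pow_zero, one_mul] at h
    have h0 : m 0 = 0 := by
      have hdvd : T ∣ m 0 := ⟨-∑ i : Fin k, T ^ (i : ℕ) * m i.succ, by linarith⟩
      exact Int.eq_zero_of_abs_lt_dvd hdvd (hm 0)
    rw [h0, zero_add] at h
    have h1 := (mul_eq_zero.1 h).resolve_left hT.ne'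
    have h2 := ih (fun i => m i.succ) (fun i => hm _) h1
    intro i
    refine Fin.cases h0 h2 i

/-- Mixed radix functional. -/
def lamOf (k : ℕ) (T : ℤ) (M : (Fin k → ℤ) →+ (Fin k → ℤ)) : (Fin k → ℤ) →+ ℤ where
  toFun v := ∑ i : Fin k, T ^ (i : ℕ) * M v i
  map_zero' := by simp
  map_add' v w := by simp [mul_add, Finset.sum_add_distrib]

theorem lamOf_apply (k : ℕ) (T : ℤ) (M : (Fin k → ℤ) →+ (Fin k → ℤ)) (v : Fin k → ℤ) :
    lamOf k T M v = ∑ i : Fin k, T ^ (i : ℕ) * M v i := rfl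

theorem lamOf_abs_le (k : ℕ) (T : ℤ) (hT : 1 ≤ T) (M : (Fin k → ℤ) →+ (Fin k → ℤ)) (v : Fin k → ℤ)
    (hM : ∀ i, |M v i| ≤ T) : |lamOf k T M v| ≤ k * T ^ (k + 1) := by
  rw [lamOf_apply]
  refine (Finset.abs_sum_le_sum_abs _ _).trans ?_
  have : ∀ i ∈ (Finset.univ : Finset (Fin k)), |T ^ (i : ℕ) * M v i| ≤ T ^ (k + 1) := by
    intro i _
    rw [abs_mul, abs_of_nonneg (by positivity), pow_succ]
    have h1 : T ^ (i : ℕ) ≤ T ^ k := pow_le_pow_right₀ hT (by omega)
    have h2 := hM i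
    have h3 : 0 ≤ T ^ (i : ℕ) := by positivity
    calc T ^ (i : ℕ) * |M v i| ≤ T ^ (i : ℕ) * T := by gcongr
      _ ≤ T ^ k * T := by gcongr
  refine (Finset.sum_le_card_nsmul _ _ _ this).trans ?_
  simp

/-- The bound on the size of the functional. -/
def Dk (N k : ℕ) : ℕ := k * (12 * N ^ 2 + 1) ^ (k + 1) + 1

theorem kronecker (k N : ℕ) (hN : 1 ≤ N) (b : Fin k → ℤ) (hb : ∀ i, |b i| ≤ N) :
    ∃ (d : ℕ) (_ : NeZero d) (lam : (Fin k → ℤ) →+ ℤ) (mu : (Fin k → ℤ) →+ ZMod d),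
      d ≤ N ∧ lam b = 0 ∧ mu b = 0 ∧
      (∀ v : Fin k → ℤ, (∀ i, |v i| ≤ N) → |lam v| ≤ Dk N k) ∧
      (∀ v : Fin k → ℤ, (∀ i, |v i| ≤ 6 * N) → lam v = 0 → mu v = 0 →
        v ∈ AddSubgroup.zmultiples b) := by
  set T : ℤ := 12 * (N : ℤ) ^ 2 + 1 with hT
  have hN' : (1 : ℤ) ≤ N := by exact_mod_cast hN
  have hT1 : 1 ≤ T := by rw [hT]; nlinarith
  have hDk : (k : ℤ) * T ^ (k + 1) ≤ (Dk N k : ℤ) := by
    unfold Dk; push_cast; rw [hT]; linarith
  by_cases hb0 : b = 0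
  · refine ⟨1, ⟨one_ne_zero⟩, lamOf k T (AddMonoidHom.id _), 0, hN, ?_, rfl, ?_, ?_⟩
    · rw [hb0, map_zero]
    · intro v hv
      refine (lamOf_abs_le k T hT1 _ v fun i => ?_).trans hDk
      have := hv i
      change |v i| ≤ T
      rw [hT]; nlinarith
    · intro v hv h1 _
      have := base_zero T k (fun i => v i) (fun i => by
        have := hv i
        rw [hT]; nlinarith) h1
      have hv0 : v = 0 := by ext i; exact this i
      rw [hv0]; exact zero_mem _
  · obtain ⟨j, hj⟩ : ∃ j, b j ≠ 0 := by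
      by_contra hcon
      push Not at hcon
      exact hb0 (by ext i; exact hcon i)
    have hd0 : (b j).natAbs ≠ 0 := Int.natAbs_ne_zero.2 hj
    let M : (Fin k → ℤ) →+ (Fin k → ℤ) :=
      { toFun := fun v i => b j * v i - b i * v j
        map_zero' := by ext i; simp
        map_add' := by intro v w; ext i; simp only [Pi.add_apply]; ring }
    let mu : (Fin k → ℤ) →+ ZMod (b j).natAbs :=
      (Int.castAddHom (ZMod (b j).natAbs)).comp (Pi.evalAddMonoidHom (fun _ => ℤ) j)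
    have hMa : ∀ v i, M v i = b j * v i - b i * v j := fun v i => rfl
    have hmu : ∀ v, mu v = ((v j : ℤ) : ZMod (b j).natAbs) := fun v => rfl
    refine ⟨(b j).natAbs, ⟨hd0⟩, lamOf k T M, mu, ?_, ?_, ?_, ?_, ?_⟩
    · have := hb j
      rw [Int.abs_eq_natAbs] at this
      exact_mod_cast this
    · rw [lamOf_apply]
      refine Finset.sum_eq_zero fun i _ => ?_
      rw [hMa]; ring
    · rw [hmu, ZMod.intCast_zmod_eq_zero_iff_dvd]
      exact Int.natAbs_dvd.2 dvd_rfl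
    · intro v hv
      refine (lamOf_abs_le k T hT1 _ v fun i => ?_).trans hDk
      rw [hMa]
      have h1 : |b j * v i| ≤ N * N := by
        rw [abs_mul]; exact mul_le_mul (hb j) (hv i) (abs_nonneg _) (by positivity)
      have h2 : |b i * v j| ≤ N * N := by
        rw [abs_mul]; exact mul_le_mul (hb i) (hv j) (abs_nonneg _) (by positivity)
      have h3 := abs_sub (b j * v i) (b i * v j)
      rw [hT]; nlinarith
    · intro v hv h1 h2
      have h3 := base_zero T k (M v) (fun i => by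
        rw [hMa]
        have h1 : |b j * v i| ≤ N * (6 * N) := by
          rw [abs_mul]; exact mul_le_mul (hb j) (hv i) (abs_nonneg _) (by positivity)
        have h2 : |b i * v j| ≤ N * (6 * N) := by
          rw [abs_mul]; exact mul_le_mul (hb i) (hv j) (abs_nonneg _) (by positivity)
        have h3 := abs_sub (b j * v i) (b i * v j)
        rw [hT]; nlinarith) h1
      rw [hmu, ZMod.intCast_zmod_eq_zero_iff_dvd] at h2
      obtain ⟨m, hm⟩ := Int.natAbs_dvd.1 h2
      refine AddSubgroup.mem_zmultiples_iff.2 ⟨m, ?_⟩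
      ext i
      have h4 := h3 i
      rw [hMa, hm] at h4
      have h5 : b j * (v i - m * b i) = 0 := by linarith
      have h6 := (mul_eq_zero.1 h5).resolve_left hj
      simp only [Pi.smul_apply, smul_eq_mul]
      linarith

end Kronecker

section Weight

variable {R : Type} [AddCommGroup R] (nm : R → ℕ) (h0 : nm 0 = 0)
  (hadd : ∀ a b, nm (a + b) ≤ nm a + nm b) (hneg : ∀ a, nm (-a) = nm a)

/-- Total weight of a configuration. -/
def wt {Γ : Type} (f : Γ →₀ R) : ℕ := f.sum (fun _ r => nm r)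

include h0 hadd in
theorem wt_add {Γ : Type} (f g : Γ →₀ R) : wt nm (f + g) ≤ wt nm f + wt nm g := by
  classical
  unfold wt
  rw [Finsupp.sum_of_support_subset (f + g) (Finsupp.support_add) _ (fun _ _ => h0),
    Finsupp.sum_of_support_subset f (Finset.subset_union_left (s₂ := g.support)) _ (fun _ _ => h0),
    Finsupp.sum_of_support_subset g (Finset.subset_union_right (s₁ := f.support)) _ (fun _ _ => h0),
    ← Finset.sum_add_distrib]
  exact Finset.sum_le_sum fun v _ => hadd _ _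

include h0 hneg in
theorem wt_neg {Γ : Type} (f : Γ →₀ R) : wt nm (-f) = wt nm f := by
  unfold wt
  rw [Finsupp.sum_neg_index (fun _ => h0)]
  simp only [hneg]

theorem wt_sh {Γ : Type} [AddCommGroup Γ] (c : Γ) (f : Γ →₀ R) : wt nm (sh c f) = wt nm f := by
  unfold wt sh
  exact Finsupp.sum_mapDomain_index_inj (add_right_injective c)

include h0 hadd in
theorem nm_mapDomain {Γ Q : Type} (φ : Γ → Q) (f : Γ →₀ R) (w : Q) :
    nm (f.mapDomain φ w) ≤ wt nm f := by
  classical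
  unfold wt Finsupp.mapDomain
  rw [Finsupp.sum_apply, Finsupp.sum, Finsupp.sum]
  refine (Finset.le_sum_of_subadditive nm h0.le hadd _ _).trans ?_
  refine Finset.sum_le_sum fun v _ => ?_
  rw [Finsupp.single_apply]
  split_ifs
  · exact le_rfl
  · rw [h0]; exact Nat.zero_le _

/-- Small elements. -/
def Sm (k N : ℕ) (x : Wr R (Fin k → ℤ)) : Prop :=
  (∀ v ∈ x.f.support, ∀ i, |v i| ≤ N) ∧ (∀ i, |x.b i| ≤ N) ∧ wt nm x.f ≤ N

theorem Sm_one (k : ℕ) : Sm nm k 0 (1 : Wr R (Fin k → ℤ)) := by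
  refine ⟨by simp, by simp, ?_⟩
  simp [wt]

theorem Sm_mono (k : ℕ) {N M : ℕ} (h : N ≤ M) (x : Wr R (Fin k → ℤ)) (hx : Sm nm k N x) :
    Sm nm k M x := by
  obtain ⟨h1, h2, h3⟩ := hx
  have h' : (N : ℤ) ≤ M := by exact_mod_cast h
  exact ⟨fun v hv i => (h1 v hv i).trans h', fun i => (h2 i).trans h', h3.trans h⟩

include h0 hadd in
theorem Sm_mul (k N M : ℕ) (x y : Wr R (Fin k → ℤ)) (hx : Sm nm k N x) (hy : Sm nm k M y) :
    Sm nm k (N + M) (x * y) := by
  classical
  obtain ⟨h1, h2, h3⟩ := hx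
  obtain ⟨h4, h5, h6⟩ := hy
  have hN : (0 : ℤ) ≤ N := by positivity
  have hM : (0 : ℤ) ≤ M := by positivity
  refine ⟨?_, ?_, ?_⟩
  · intro v hv i
    rw [Wr.mul_f] at hv
    have := Finsupp.support_add hv
    rw [Finset.mem_union] at this
    push_cast
    rcases this with h | h
    · have := h1 v h i; linarith
    · have h7 := h4 _ (support_sh _ _ _ h) i
      have h8 := h2 i
      rw [Pi.sub_apply] at h7
      have : |v i| ≤ |v i - x.b i| + |x.b i| := by
        have := abs_add_le (v i - x.b i) (x.b i)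
        simpa using this
      linarith
  · intro i
    rw [Wr.mul_b, Pi.add_apply]
    push_cast
    have := abs_add_le (x.b i) (y.b i)
    have := h2 i; have := h5 i
    linarith
  · rw [Wr.mul_f]
    refine (wt_add nm h0 hadd _ _).trans ?_
    rw [wt_sh nm]
    omega

include h0 hneg in
theorem Sm_inv (k N : ℕ) (x : Wr R (Fin k → ℤ)) (hx : Sm nm k N x) :
    Sm nm k (2 * N) x⁻¹ := by
  classical
  obtain ⟨h1, h2, h3⟩ := hx
  have hN : (0 : ℤ) ≤ N := by positivity
  refine ⟨?_, ?_, ?_⟩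
  · intro v hv i
    rw [Wr.inv_f, Finsupp.support_neg] at hv
    have h4 := h1 _ (support_sh _ _ _ hv) i
    have h8 := h2 i
    rw [Pi.sub_apply, Pi.neg_apply, sub_neg_eq_add] at h4
    push_cast
    have : |v i| ≤ |v i + x.b i| + |x.b i| := by
      have := abs_sub (v i + x.b i) (x.b i)
      simpa using this
    linarith
  · intro i
    rw [Wr.inv_b, Pi.neg_apply, abs_neg]
    push_cast
    have := h2 i
    linarith
  · rw [Wr.inv_f, wt_neg nm h0 hneg, wt_sh nm]
    omega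

theorem Sm_exists (k : ℕ) (x : Wr R (Fin k → ℤ)) : ∃ N, Sm nm k N x := by
  classical
  refine ⟨(∑ v ∈ x.f.support, ∑ i, (v i).natAbs) + (∑ i, (x.b i).natAbs) + wt nm x.f, ?_, ?_, ?_⟩
  · intro v hv i
    have h1 : (v i).natAbs ≤ ∑ i, (v i).natAbs :=
      Finset.single_le_sum (f := fun i => (v i).natAbs) (fun _ _ => Nat.zero_le _) (Finset.mem_univ i)
    have h2 : ∑ i, (v i).natAbs ≤ ∑ v ∈ x.f.support, ∑ i, (v i).natAbs :=
      Finset.single_le_sum (f := fun v : Fin k → ℤ => ∑ i, (v i).natAbs)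
        (fun _ _ => Nat.zero_le _) hv
    rw [Int.abs_eq_natAbs, Nat.cast_le]
    omega
  · intro i
    have h1 : (x.b i).natAbs ≤ ∑ i, (x.b i).natAbs :=
      Finset.single_le_sum (f := fun i => (x.b i).natAbs) (fun _ _ => Nat.zero_le _)
        (Finset.mem_univ i)
    rw [Int.abs_eq_natAbs, Nat.cast_le]
    omega
  · omega

include h0 hadd hneg in
theorem Sm_ball (k : ℕ) (S : Finset (Wr R (Fin k → ℤ))) :
    ∃ M : ℕ, 1 ≤ M ∧ ∀ n, ∀ g ∈ ball S n, Sm nm k (M * n) g := by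
  classical
  choose c hc using Sm_exists nm k
  set M := 2 * (∑ s ∈ S, c s) + 1 with hM
  have hS : ∀ s, (s ∈ S ∨ s⁻¹ ∈ S) → Sm nm k M s := by
    intro s hs
    rcases hs with h | h
    · have h1 : c s ≤ ∑ s ∈ S, c s :=
        Finset.single_le_sum (f := c) (fun _ _ => Nat.zero_le _) h
      exact Sm_mono nm k (by omega) s (hc s)
    · have h1 : c s⁻¹ ≤ ∑ s ∈ S, c s :=
        Finset.single_le_sum (f := c) (fun _ _ => Nat.zero_le _) h
      have h2 := Sm_inv nm h0 hneg k _ _ (hc s⁻¹)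
      rw [inv_inv] at h2
      exact Sm_mono nm k (by omega) s h2
  refine ⟨M, by omega, ?_⟩
  rintro n g ⟨l, hl, hx, rfl⟩
  induction l generalizing n with
  | nil => exact Sm_mono nm k (Nat.zero_le _) _ (Sm_one nm k)
  | cons x l ih =>
    obtain ⟨m, rfl⟩ : ∃ m, n = m + 1 := ⟨n - 1, by simp at hl; omega⟩
    rw [List.prod_cons]
    have h1 := ih m (by simpa using hl) (fun y hy => hx y (by simp [hy]))
    have h2 := Sm_mul nm h0 hadd k _ _ _ _ (hS x (hx x (by simp))) h1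
    have e : M + M * m = M * (m + 1) := by ring
    rwa [e] at h2

/-- Separation of positions. -/
theorem depth_le_of_pos (k N : ℕ) (x y : Wr R (Fin k → ℤ)) (hx : ∀ i, |x.b i| ≤ N)
    (hy : ∀ i, |y.b i| ≤ N) (hne : x.b ≠ y.b) : depth x y ≤ (((2 * N + 1) ^ k : ℕ) : ℕ∞) := by
  let Λ : AddSubgroup (Fin k → ℤ) :=
    { carrier := {c | ∀ i, ((c i : ℤ) : ZMod (2 * N + 1)) = 0}
      zero_mem' := by intro i; simp
      add_mem' := by
        intro a b ha hb i
        rw [Pi.add_apply, Int.cast_add, ha i, hb i, add_zero]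
      neg_mem' := by
        intro a ha i
        rw [Pi.neg_apply, Int.cast_neg, ha i, neg_zero] }
  have hΛ : ∀ c, c ∈ Λ ↔ ∀ i, ((c i : ℤ) : ZMod (2 * N + 1)) = 0 := fun c => Iff.rfl
  refine depth_le_of_sep (A := PUnit) 0 (fun _ => 0) (fun _ _ => rfl) Λ (fun _ _ _ => rfl)
    (Fin k → ZMod (2 * N + 1)) (fun c i => ((c i : ℤ) : ZMod (2 * N + 1))) ?_ x y ?_ _ ?_
  · intro c c' h
    rw [hΛ]
    intro i
    rw [Pi.sub_apply, Int.cast_sub, congrFun h i, sub_self]
  · intro z _ h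
    rw [hΛ] at h
    apply hne
    ext i
    have h1 := h i
    rw [Pi.sub_apply, ZMod.intCast_zmod_eq_zero_iff_dvd] at h1
    have h2 := abs_le.1 (hx i)
    have h3 := abs_le.1 (hy i)
    have h4 := Int.eq_zero_of_abs_lt_dvd h1 (by rw [abs_lt]; push_cast; constructor <;> omega)
    omega
  · rw [Nat.card_eq_fintype_card, Nat.card_eq_fintype_card, Fintype.card_fun, ZMod.card]
    simp

/-- The radius needed for the field. -/
def Bk (N k : ℕ) : ℕ := 2 + 8 * Dk N k * N

include h0 hadd in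
theorem depth_le_small (k c : ℕ) (hc : 1 ≤ c)
    (hK : ∀ N B : ℕ, 1 ≤ B → 2 * N ≤ B → ∃ (K : Type) (_ : Field K) (_ : Fintype K) (ρ : R →+ K),
      B < Fintype.card K ∧ Fintype.card K ≤ c * B ∧
      ∀ a a', nm a ≤ N → nm a' ≤ N → ρ a = ρ a' → a = a')
    (N : ℕ) (hN : 1 ≤ N) (x y : Wr R (Fin k → ℤ)) (hx : Sm nm k N x) (hy : Sm nm k N y)
    (hconj : ¬ IsConj x y) : depth x y ≤ (((c * Bk N k) ^ (3 * N + 4) : ℕ) : ℕ∞) := by
  classical
  have hB1 : 1 ≤ Bk N k := by unfold Bk; omega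
  have hD1 : 1 ≤ Dk N k := by unfold Dk; omega
  have hcB : 1 ≤ c * Bk N k := Nat.mul_pos hc hB1
  by_cases hb : x.b = y.b
  · obtain ⟨d, hd, lam, mu, hdN, hlb, hmb, hD, hinj⟩ := kronecker k N hN x.b hx.2.1
    obtain ⟨K, _, _, ρ, hK1, hK2, hK3⟩ := hK N (Bk N k) hB1 (by
      unfold Bk; nlinarith)
    have hcard : 2 + 4 * (2 * Dk N k) * d < Fintype.card K := by
      refine lt_of_le_of_lt ?_ hK1
      unfold Bk
      have : 4 * (2 * Dk N k) * d ≤ 4 * (2 * Dk N k) * N := Nat.mul_le_mul_left _ hdN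
      nlinarith
    have hfin : ((Fintype.card K ^ (3 * d + 4) : ℕ) : ℕ∞) ≤
        (((c * Bk N k) ^ (3 * N + 4) : ℕ) : ℕ∞) := by
      have : Fintype.card K ^ (3 * d + 4) ≤ (c * Bk N k) ^ (3 * N + 4) :=
        (Nat.pow_le_pow_left hK2 _).trans (Nat.pow_le_pow_right hcB (by omega))
      exact_mod_cast this
    refine le_trans ?_ hfin
    have hN' : (0 : ℤ) ≤ N := by positivity
    have main : ∀ x y : Wr R (Fin k → ℤ), Sm nm k N x → Sm nm k N y → x.b = y.b →
        lam x.b = 0 → mu x.b = 0 →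
        (∀ v : Fin k → ℤ, (∀ i, |v i| ≤ 6 * N) → lam v = 0 → mu v = 0 →
          v ∈ AddSubgroup.zmultiples x.b) → ¬ IsConj x y → Pr d lam mu x.f ≠ 0 →
        depth x y ≤ ((Fintype.card K ^ (3 * d + 4) : ℕ) : ℕ∞) := by
      intro x y hx hy hb hlb hmb hinj hconj hne
      refine depth_le_core d lam mu ρ {a | nm a ≤ N} (fun a ha a' ha' h => hK3 a a' ha ha' h)
        (by simp [h0]) x y hb hlb hmb {v | ∀ i, |v i| ≤ N}
        (fun v hv i => hx.1 v hv i) (fun v hv i => hy.1 v hv i) ?_ ?_ ?_ (Dk N k) ?_ hD1 hne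
        hconj hcard
      · rintro v v' ⟨v1, h1, v2, h2, v3, h3, rfl⟩ ⟨w1, g1, w2, g2, w3, g3, rfl⟩ hl hm
        refine hinj _ (fun i => ?_) (by rw [map_sub, hl, sub_self]) (by rw [map_sub, hm, sub_self])
        simp only [Pi.sub_apply, Pi.add_apply]
        have a1 := abs_le.1 (h1 i)
        have a2 := abs_le.1 (h2 i)
        have a3 := abs_le.1 (h3 i)
        have b1 := abs_le.1 (g1 i)
        have b2 := abs_le.1 (g2 i)
        have b3 := abs_le.1 (g3 i)
        rw [abs_le]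
        constructor <;> omega
      · intro w
        exact (nm_mapDomain nm h0 hadd _ _ w).trans hx.2.2
      · intro w
        exact (nm_mapDomain nm h0 hadd _ _ w).trans hy.2.2
      · intro v hv
        exact hD v hv
    by_cases h1 : Pr d lam mu x.f = 0
    · by_cases h2 : Pr d lam mu y.f = 0
      · exfalso
        apply hconj
        refine isConj_of_mem_bd x y hb 0 ?_
        rw [sh_zero]
        refine mem_range_of_map_zero (fun v => (lam v, mu v)) x.b _ ?_ ?_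
        · have hsup : ∀ v ∈ (y.f - x.f).support, ∀ i, |v i| ≤ N := by
            intro v hv i
            have := Finsupp.support_sub hv
            rw [Finset.mem_union] at this
            rcases this with h' | h'
            · exact hy.1 v h' i
            · exact hx.1 v h' i
          intro v hv v' hv' hvv
          rw [Prod.mk.injEq] at hvv
          refine hinj _ (fun i => ?_) (by rw [map_sub, hvv.1, sub_self])
            (by rw [map_sub, hvv.2, sub_self])
          have a1 := abs_le.1 (hsup v hv i)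
          have a2 := abs_le.1 (hsup v' hv' i)
          rw [Pi.sub_apply, abs_le]
          constructor <;> omega
        · change Pr d lam mu (y.f - x.f) = 0
          rw [Pr_sub, h1, h2, sub_zero]
      · rw [depth_comm]
        rw [hb] at hlb hmb hinj
        exact main y x hy hx hb.symm hlb hmb hinj (fun h => hconj h.symm) h2
    · exact main x y hx hy hb hlb hmb hinj hconj h1
  · refine (depth_le_of_pos k N x y hx.2.1 hy.2.1 hb).trans ?_
    have h1 : (2 * N + 1) ^ k ≤ c * Bk N k := by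
      have h2 : (2 * N + 1) ^ k ≤ Dk N k := by
        unfold Dk
        rcases Nat.eq_zero_or_pos k with rfl | hk
        · simp
        · have h3 : 2 * N + 1 ≤ 12 * N ^ 2 + 1 := by nlinarith
          calc (2 * N + 1) ^ k ≤ (12 * N ^ 2 + 1) ^ k := Nat.pow_le_pow_left h3 k
            _ ≤ (12 * N ^ 2 + 1) ^ (k + 1) := Nat.pow_le_pow_right (by omega) (by omega)
            _ ≤ k * (12 * N ^ 2 + 1) ^ (k + 1) := Nat.le_mul_of_pos_left _ hk
            _ ≤ k * (12 * N ^ 2 + 1) ^ (k + 1) + 1 := by omega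
      have h4 : Dk N k ≤ Bk N k := by unfold Bk; nlinarith
      calc (2 * N + 1) ^ k ≤ Bk N k := h2.trans h4
        _ ≤ c * Bk N k := Nat.le_mul_of_pos_left _ hc
    have h5 : (2 * N + 1) ^ k ≤ (c * Bk N k) ^ (3 * N + 4) :=
      h1.trans (Nat.le_self_pow (by omega) _)
    exact_mod_cast h5

theorem numeric (k c N : ℕ) : c * Bk N k ≤ (N + 2) ^ (c + 7 * k + 12) := by
  have h2 : 2 ≤ N + 2 := by omega
  have hT : 12 * N ^ 2 + 1 ≤ (N + 2) ^ 6 := by
    have e : (N + 2) ^ 6 = (N + 2) ^ 4 * (N + 2) ^ 2 := by ring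
    have h16 : 16 ≤ (N + 2) ^ 4 := by
      calc 16 = 2 ^ 4 := by norm_num
        _ ≤ (N + 2) ^ 4 := Nat.pow_le_pow_left h2 4
    rw [e]
    nlinarith [Nat.zero_le N]
  have hk : k + 1 ≤ (N + 2) ^ k := by
    calc k + 1 ≤ 2 ^ k := Nat.lt_two_pow_self
      _ ≤ (N + 2) ^ k := Nat.pow_le_pow_left h2 k
  have hD : Dk N k ≤ (N + 2) ^ (7 * k + 6) := by
    unfold Dk
    have h1 : (12 * N ^ 2 + 1) ^ (k + 1) ≤ (N + 2) ^ (6 * (k + 1)) := by
      rw [pow_mul]; exact Nat.pow_le_pow_left hT _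
    have h3 : 1 ≤ (12 * N ^ 2 + 1) ^ (k + 1) := Nat.one_le_pow _ _ (by omega)
    calc k * (12 * N ^ 2 + 1) ^ (k + 1) + 1 ≤ (k + 1) * (12 * N ^ 2 + 1) ^ (k + 1) := by nlinarith
      _ ≤ (N + 2) ^ k * (N + 2) ^ (6 * (k + 1)) := Nat.mul_le_mul hk h1
      _ = (N + 2) ^ (7 * k + 6) := by rw [← pow_add]; ring_nf
  have hB : Bk N k ≤ (N + 2) ^ (7 * k + 12) := by
    unfold Bk
    have h16 : 16 ≤ (N + 2) ^ 4 := by
      calc 16 = 2 ^ 4 := by norm_num
        _ ≤ (N + 2) ^ 4 := Nat.pow_le_pow_left h2 4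
    have h5 : 2 + 8 * Dk N k * N ≤ (N + 2) ^ 5 * (N + 2) ^ (7 * k + 6) := by
      have h6 : 1 ≤ (N + 2) ^ (7 * k + 6) := Nat.one_le_pow _ _ (by omega)
      have h7 : (N + 2) ^ 5 = (N + 2) ^ 4 * (N + 2) := by ring
      have h8 : 2 + 8 * N ≤ (N + 2) ^ 5 := by rw [h7]; nlinarith
      have h9 : 8 * Dk N k * N ≤ 8 * N * (N + 2) ^ (7 * k + 6) := by
        calc 8 * Dk N k * N = 8 * N * Dk N k := by ring
          _ ≤ _ := Nat.mul_le_mul_left _ hD
      calc 2 + 8 * Dk N k * N ≤ 2 * (N + 2) ^ (7 * k + 6) + 8 * N * (N + 2) ^ (7 * k + 6) := by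
            omega
        _ = (2 + 8 * N) * (N + 2) ^ (7 * k + 6) := by ring
        _ ≤ _ := Nat.mul_le_mul_right _ h8
    calc 2 + 8 * Dk N k * N ≤ (N + 2) ^ 5 * (N + 2) ^ (7 * k + 6) := h5
      _ = (N + 2) ^ (7 * k + 11) := by rw [← pow_add]; ring_nf
      _ ≤ _ := Nat.pow_le_pow_right (by omega) (by omega)
  have hc : c ≤ (N + 2) ^ c :=
    (Nat.lt_two_pow_self).le.trans (Nat.pow_le_pow_left h2 c)
  calc c * Bk N k ≤ (N + 2) ^ c * (N + 2) ^ (7 * k + 12) := Nat.mul_le_mul hc hB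
    _ = _ := by rw [← pow_add]; ring_nf

include h0 hadd hneg in
/-- The main bound for the conjugacy depth. -/
theorem conjDepth_bound (k c : ℕ) (hc : 1 ≤ c)
    (hK : ∀ N B : ℕ, 1 ≤ B → 2 * N ≤ B → ∃ (K : Type) (_ : Field K) (_ : Fintype K) (ρ : R →+ K),
      B < Fintype.card K ∧ Fintype.card K ≤ c * B ∧
      ∀ a a', nm a ≤ N → nm a' ≤ N → ρ a = ρ a' → a = a')
    (S : Finset (Wr R (Fin k → ℤ))) :
    ∃ C : ℕ, ∀ n : ℕ, conjDepth S n ≤ (((n + 2) ^ (C * n) : ℕ) : ℕ∞) := by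
  obtain ⟨M, hM, hball⟩ := Sm_ball nm h0 hadd hneg k S
  refine ⟨(M + 2) * (c + 7 * k + 12) * (3 * M + 4), fun n => ?_⟩
  unfold conjDepth
  refine iSup₂_le fun x hx => iSup₂_le fun y hy => iSup_le fun hconj => ?_
  rcases Nat.eq_zero_or_pos n with rfl | hn
  · exfalso
    apply hconj
    have hone : ∀ g ∈ ball S 0, g = 1 := by
      rintro g ⟨l, hl, -, rfl⟩
      have : l = [] := List.length_eq_zero_iff.1 (by omega)
      rw [this]; rfl
    rw [hone x hx, hone y hy]
  · have hMn : 1 ≤ M * n := Nat.mul_pos hM hn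
    refine (depth_le_small nm h0 hadd k c hc hK (M * n) hMn x y (hball n x hx) (hball n y hy)
      hconj).trans ?_
    have h1 := numeric k c (M * n)
    have h2 : M * n + 2 ≤ (n + 2) ^ (M + 2) := by
      have h3 : M + 1 ≤ (n + 2) ^ (M + 1) :=
        (Nat.lt_two_pow_self).le.trans (Nat.pow_le_pow_left (by omega) _)
      calc M * n + 2 ≤ (M + 1) * (n + 2) := by nlinarith
        _ ≤ (n + 2) ^ (M + 1) * (n + 2) := Nat.mul_le_mul_right _ h3
        _ = (n + 2) ^ (M + 2) := by rw [← pow_succ]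
    have h4 : 3 * (M * n) + 4 ≤ (3 * M + 4) * n := by nlinarith
    have h5 : (c * Bk (M * n) k) ^ (3 * (M * n) + 4) ≤
        (n + 2) ^ ((M + 2) * (c + 7 * k + 12) * (3 * M + 4) * n) := by
      calc (c * Bk (M * n) k) ^ (3 * (M * n) + 4)
          ≤ ((M * n + 2) ^ (c + 7 * k + 12)) ^ (3 * (M * n) + 4) := Nat.pow_le_pow_left h1 _
        _ ≤ (((n + 2) ^ (M + 2)) ^ (c + 7 * k + 12)) ^ (3 * (M * n) + 4) :=
            Nat.pow_le_pow_left (Nat.pow_le_pow_left h2 _) _
        _ = (n + 2) ^ ((M + 2) * (c + 7 * k + 12) * (3 * (M * n) + 4)) := by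
            rw [← pow_mul, ← pow_mul, mul_assoc]
        _ ≤ (n + 2) ^ ((M + 2) * (c + 7 * k + 12) * (3 * M + 4) * n) := by
            apply Nat.pow_le_pow_right (by omega)
            rw [mul_assoc ((M + 2) * (c + 7 * k + 12))]
            exact Nat.mul_le_mul_left _ h4
    exact_mod_cast h5

end Weight

/-- The bound for prime fields. -/
theorem conjDepth_Fp (p : ℕ) [hp : Fact p.Prime] (k : ℕ) (S : Finset (Wr (ZMod p) (Fin k → ℤ))) :
    ∃ C : ℕ, ∀ n : ℕ, conjDepth S n ≤ (((n + 2) ^ (C * n) : ℕ) : ℕ∞) := by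
  refine conjDepth_bound (fun _ => 0) rfl (fun _ _ => le_rfl) (fun _ => rfl) k p
    hp.out.one_lt.le ?_ S
  intro N B hB _
  have he : Nat.log p B + 1 ≠ 0 := by omega
  let _ : Fintype (GaloisField p (Nat.log p B + 1)) := Fintype.ofFinite _
  refine ⟨GaloisField p (Nat.log p B + 1), inferInstance, inferInstance,
    (algebraMap (ZMod p) (GaloisField p (Nat.log p B + 1))).toAddMonoidHom, ?_, ?_, ?_⟩
  · rw [← Nat.card_eq_fintype_card, GaloisField.card p _ he]
    exact Nat.lt_pow_succ_log_self hp.out.one_lt B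
  · rw [← Nat.card_eq_fintype_card, GaloisField.card p _ he, pow_succ, mul_comm]
    exact Nat.mul_le_mul_left _ (Nat.pow_log_le_self p (by omega))
  · intro a a' _ _ h
    exact (algebraMap (ZMod p) (GaloisField p (Nat.log p B + 1))).injective h

/-- The bound for the integers. -/
theorem conjDepth_Z (k : ℕ) (S : Finset (Wr ℤ (Fin k → ℤ))) :
    ∃ C : ℕ, ∀ n : ℕ, conjDepth S n ≤ (((n + 2) ^ (C * n) : ℕ) : ℕ∞) := by
  refine conjDepth_bound Int.natAbs rfl Int.natAbs_add_le Int.natAbs_neg k 2 (by norm_num) ?_ S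
  intro N B hB hNB
  obtain ⟨p, hp, h1, h2⟩ := Nat.exists_prime_lt_and_le_two_mul B (by omega)
  have : Fact p.Prime := ⟨hp⟩
  refine ⟨ZMod p, inferInstance, inferInstance, Int.castAddHom (ZMod p), ?_, ?_, ?_⟩
  · rw [ZMod.card]; exact h1
  · rw [ZMod.card]; exact h2
  · intro a a' ha ha' h
    have h3 : ((a : ℤ) : ZMod p) = ((a' : ℤ) : ZMod p) := h
    rw [ZMod.intCast_eq_intCast_iff_dvd_sub] at h3
    have h4 := Int.eq_zero_of_abs_lt_dvd h3 (by rw [abs_lt]; constructor <;> omega)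
    omega

end Pool.Agent.V1123.Wreath
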