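import Mathlib
import Pool.Agent.V1123.WreathFinal

set_option autoImplicit false

namespace Pool.Agent.V1123.Wreath

section

variable {R Γ Q : Type} [AddCommGroup R] [AddCommGroup Γ] [AddCommGroup Q]

theorem mapDomain_sh (κ : Γ →+ Q) (c : Γ) (f : Γ →₀ R) :
    (sh c f).mapDomain κ = sh (κ c) (f.mapDomain κ) := by
  unfold sh
  rw [← Finsupp.mapDomain_comp, ← Finsupp.mapDomain_comp]
  congr 1
  ext v; simp

omit [AddCommGroup Γ] [AddCommGroup Q] in
theorem mapDomain_sub' (κ : Γ → Q) (f g : Γ →₀ R) :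
    (f - g).mapDomain κ = f.mapDomain κ - g.mapDomain κ :=
  map_sub (Finsupp.mapDomain.addMonoidHom κ) f g

/-- From equality of projections up to a shift to conjugacy. -/
theorem conj_of_shift' (κ : Γ →+ Q) (x y : Wr R Γ) (hb : x.b = y.b)
    (B : Set Γ) (hx : ∀ v ∈ x.f.support, v ∈ B) (hy : ∀ v ∈ y.f.support, v ∈ B)
    (hinj : ∀ v v' : Γ, (∃ v1 ∈ B, ∃ v2 ∈ B, ∃ v3 ∈ B, v = v1 + (v2 - v3)) →
      (∃ v1 ∈ B, ∃ v2 ∈ B, ∃ v3 ∈ B, v' = v1 + (v2 - v3)) → κ v = κ v' →
      v - v' ∈ AddSubgroup.zmultiples x.b) (q : Q)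
    (h : y.f.mapDomain κ = sh q (x.f.mapDomain κ)) : IsConj x y := by
  classical
  have hsub : ∀ v0 ∈ B, ∀ v1 ∈ B, ∀ v ∈ (y.f - sh (v1 - v0) x.f).support,
      ∃ w1 ∈ B, ∃ w2 ∈ B, ∃ w3 ∈ B, v = w1 + (w2 - w3) := by
    intro v0 hv0 v1 hv1 v hv
    have := Finsupp.support_sub hv
    rw [Finset.mem_union] at this
    rcases this with h' | h'
    · exact ⟨v, hy v h', v, hy v h', v, hy v h', by abel⟩
    · exact ⟨v - (v1 - v0), hx _ (support_sh _ _ _ h'), v1, hv1, v0, hv0, by abel⟩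
  by_cases hne : x.f.mapDomain κ = 0
  · refine isConj_of_mem_bd x y hb 0 ?_
    rw [sh_zero]
    refine mem_range_of_map_zero κ x.b _ ?_ ?_
    · have hsup : ∀ v ∈ (y.f - x.f).support, v ∈ B := by
        intro v hv
        have := Finsupp.support_sub hv
        rw [Finset.mem_union] at this
        rcases this with h' | h'
        · exact hy v h'
        · exact hx v h'
      intro v hv v' hv' hvv
      have h1 := hsup v hv
      have h2 := hsup v' hv'
      exact hinj v v' ⟨v, h1, v, h1, v, h1, by abel⟩ ⟨v', h2, v', h2, v', h2, by abel⟩ hvv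
    · rw [mapDomain_sub', h, hne, sh_zero_fun, sub_zero]
  · obtain ⟨s0, h0⟩ := Finsupp.ne_iff.1 hne
    rw [Finsupp.zero_apply] at h0
    have h1 : y.f.mapDomain κ (q + s0) ≠ 0 := by
      rw [h, sh_apply, add_sub_cancel_left]; exact h0
    obtain ⟨v0, hv0, hv0s⟩ := Finset.mem_image.1 (Finsupp.mapDomain_support
      (Finsupp.mem_support_iff.2 h0))
    obtain ⟨v1, hv1, hv1s⟩ := Finset.mem_image.1 (Finsupp.mapDomain_support
      (Finsupp.mem_support_iff.2 h1))
    refine isConj_of_mem_bd x y hb (v1 - v0) ?_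
    have hm : κ (v1 - v0) = q := by rw [map_sub, hv1s, hv0s]; abel
    refine mem_range_of_map_zero κ x.b _ ?_ ?_
    · intro v hv v' hv' hvv
      exact hinj v v' (hsub v0 (hx v0 hv0) v1 (hy v1 hv1) v hv)
        (hsub v0 (hx v0 hv0) v1 (hy v1 hv1) v' hv') hvv
    · rw [mapDomain_sub', mapDomain_sh, hm, h, sub_self]

end

/-- The one-dimensional case. -/
theorem depth_le_one (p : ℕ) [hp : Fact p.Prime] (N : ℕ) (hN : 1 ≤ N)
    (x y : Wr (ZMod p) (Fin 1 → ℤ)) (hx : Sm (fun _ => 0) 1 N x) (hy : Sm (fun _ => 0) 1 N y)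
    (hconj : ¬ IsConj x y) : depth x y ≤ ((p ^ (6 * N + 1) * (6 * N + 1) : ℕ) : ℕ∞) := by
  classical
  by_cases hb : x.b = y.b
  · have hmain : ∀ (m : ℕ) (hm : m ≠ 0) (_ : m ≤ 6 * N + 1) (_ : (m : ℤ) ∣ x.b 0)
        (_ : ∀ v : Fin 1 → ℤ, (∀ i, |v i| ≤ 6 * N) → (m : ℤ) ∣ v 0 →
          v ∈ AddSubgroup.zmultiples x.b),
        depth x y ≤ ((p ^ (6 * N + 1) * (6 * N + 1) : ℕ) : ℕ∞) := by
      intro m hm hmle hdvd hinj
      have : NeZero m := ⟨hm⟩
      let κ : (Fin 1 → ℤ) →+ ZMod m :=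
        (Int.castAddHom (ZMod m)).comp (Pi.evalAddMonoidHom (fun _ => ℤ) 0)
      have hκ : ∀ v, κ v = ((v 0 : ℤ) : ZMod m) := fun v => rfl
      let Θ : ((Fin 1 → ℤ) →₀ ZMod p) →+ (ZMod m →₀ ZMod p) := Finsupp.mapDomain.addMonoidHom κ
      have hΘ : ∀ f, Θ f = f.mapDomain κ := fun f => rfl
      let Λ : AddSubgroup (Fin 1 → ℤ) := κ.ker
      have : Finite (ZMod m →₀ ZMod p) := Finite.of_equiv _ Finsupp.equivFunOnFinite.symm
      have hxb : κ x.b = 0 := by
        rw [hκ, ZMod.intCast_zmod_eq_zero_iff_dvd]; exact hdvd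
      refine depth_le_of_sep Θ (fun c => shHom (κ c)) ?_ Λ ?_ (ZMod m) κ ?_ x y ?_ _ ?_
      · intro c f
        rw [hΘ, hΘ, shHom_apply, mapDomain_sh]
      · intro c hc a
        rw [AddMonoidHom.mem_ker] at hc
        rw [hc, shHom_apply, sh_zero]
      · intro c c' h
        rw [AddMonoidHom.mem_ker, map_sub, h, sub_self]
      · intro z hz _
        rw [hxb, shHom_apply, shHom_apply, sh_zero] at hz
        apply hconj
        refine conj_of_shift' κ x y hb {v | ∀ i, |v i| ≤ N} (fun v hv i => hx.1 v hv i)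
          (fun v hv i => hy.1 v hv i) ?_ (κ z.b) ?_
        · rintro v v' ⟨v1, h1, v2, h2, v3, h3, rfl⟩ ⟨w1, g1, w2, g2, w3, g3, rfl⟩ hl
          refine hinj _ (fun i => ?_) ?_
          · simp only [Pi.sub_apply, Pi.add_apply]
            have a1 := abs_le.1 (h1 i)
            have a2 := abs_le.1 (h2 i)
            have a3 := abs_le.1 (h3 i)
            have b1 := abs_le.1 (g1 i)
            have b2 := abs_le.1 (g2 i)
            have b3 := abs_le.1 (g3 i)
            rw [abs_le]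
            constructor <;> omega
          · rw [← ZMod.intCast_zmod_eq_zero_iff_dvd, ← hκ, map_sub, hl, sub_self]
        · rw [← hΘ, ← hΘ, hz]; abel
      · have h1 : Nat.card (ZMod m →₀ ZMod p) = p ^ m := by
          rw [Nat.card_congr Finsupp.equivFunOnFinite, Nat.card_eq_fintype_card, Fintype.card_fun,
            ZMod.card, ZMod.card]
        rw [h1, Nat.card_eq_fintype_card, ZMod.card]
        exact Nat.mul_le_mul (Nat.pow_le_pow_right hp.out.pos hmle) hmle
    by_cases hb0 : x.b 0 = 0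
    · refine hmain (6 * N + 1) (by omega) le_rfl (by rw [hb0]; exact dvd_zero _) ?_
      intro v hv hd
      have h1 := Int.eq_zero_of_abs_lt_dvd hd (by
        have := hv 0
        push_cast; linarith)
      have : v = 0 := by
        ext i; rw [Subsingleton.elim i 0, h1]; rfl
      rw [this]; exact zero_mem _
    · refine hmain (x.b 0).natAbs (Int.natAbs_ne_zero.2 hb0) ?_ (Int.natAbs_dvd.2 dvd_rfl) ?_
      · have := hx.2.1 0
        rw [Int.abs_eq_natAbs] at this
        have h2 : (x.b 0).natAbs ≤ N := by exact_mod_cast this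
        omega
      · intro v _ hd
        obtain ⟨m, hm⟩ := Int.natAbs_dvd.1 hd
        refine AddSubgroup.mem_zmultiples_iff.2 ⟨m, ?_⟩
        ext i
        rw [Subsingleton.elim i 0, hm]
        simp [mul_comm]
  · refine (depth_le_of_pos 1 N x y hx.2.1 hy.2.1 hb).trans ?_
    have h1 : (2 * N + 1) ^ 1 ≤ p ^ (6 * N + 1) * (6 * N + 1) := by
      rw [pow_one]
      calc 2 * N + 1 ≤ 1 * (6 * N + 1) := by omega
        _ ≤ _ := Nat.mul_le_mul_right _ (Nat.one_le_pow _ _ hp.out.pos)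
    exact_mod_cast h1

/-- The bound for the lamplighter groups. -/
theorem conjDepth_one (p : ℕ) [hp : Fact p.Prime] (S : Finset (Wr (ZMod p) (Fin 1 → ℤ))) :
    ∃ C : ℕ, 0 < C ∧ ∀ n : ℕ, conjDepth S n ≤ ((C * 2 ^ (C * n) : ℕ) : ℕ∞) := by
  obtain ⟨M, hM, hball⟩ := Sm_ball (R := ZMod p) (fun _ => 0) rfl (fun _ _ => le_rfl)
    (fun _ => rfl) 1 S
  refine ⟨2 ^ (p + 1) * (6 * M * (p + 1)), by positivity, fun n => ?_⟩
  unfold conjDepth
  refine iSup₂_le fun x hx => iSup₂_le fun y hy => iSup_le fun hconj => ?_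
  rcases Nat.eq_zero_or_pos n with rfl | hn
  · exfalso
    apply hconj
    have hone : ∀ g ∈ ball S 0, g = 1 := by
      rintro g ⟨l, hl, -, rfl⟩
      have : l = [] := List.length_eq_zero_iff.1 (by omega)
      rw [this]; rfl
    rw [hone x hx, hone y hy]
  · have hMn : 1 ≤ M * n := Nat.mul_pos hM hn
    refine (depth_le_one p (M * n) hMn x y (hball n x hx) (hball n y hy) hconj).trans ?_
    have h1 : p ^ (6 * (M * n) + 1) ≤ 2 ^ (p * (6 * (M * n) + 1)) := by
      rw [pow_mul]; exact Nat.pow_le_pow_left (Nat.lt_two_pow_self).le _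
    have h2 : 6 * (M * n) + 1 ≤ 2 ^ (6 * (M * n) + 1) := (Nat.lt_two_pow_self).le
    have h3 : p ^ (6 * (M * n) + 1) * (6 * (M * n) + 1) ≤
        2 ^ (p + 1) * (6 * M * (p + 1)) * 2 ^ (2 ^ (p + 1) * (6 * M * (p + 1)) * n) := by
      calc p ^ (6 * (M * n) + 1) * (6 * (M * n) + 1)
          ≤ 2 ^ (p * (6 * (M * n) + 1)) * 2 ^ (6 * (M * n) + 1) := Nat.mul_le_mul h1 h2
        _ = 2 ^ (p + 1) * 2 ^ (6 * M * (p + 1) * n) := by
            rw [← pow_add, ← pow_add]; congr 1; ring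
        _ ≤ (2 ^ (p + 1) * (6 * M * (p + 1))) * 2 ^ (2 ^ (p + 1) * (6 * M * (p + 1)) * n) := by
            apply Nat.mul_le_mul
            · exact Nat.le_mul_of_pos_right _ (by positivity)
            · apply Nat.pow_le_pow_right (by norm_num)
              rw [mul_assoc (2 ^ (p + 1))]
              exact Nat.le_mul_of_pos_left _ (by positivity)
    exact_mod_cast h3

end Pool.Agent.V1123.Wreath
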