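import Mathlib
import Pool.Agent.V1123.WreathOne

set_option autoImplicit false

namespace Pool.Agent.V1123.Wreath

open Filter

/-- Asymptotic comparison. -/
theorem eventually_lt (C C' k : ℕ) (hk : 2 ≤ k) :
    ∀ᶠ n : ℕ in atTop, C * (C * n + 2) ^ (C' * (C * n)) < 2 ^ (n ^ k) := by
  have h1 : ∀ᶠ n : ℕ in atTop, (C * n + 2) ^ (C' * C) * 2 < 2 ^ n := by
    have hlo := isLittleO_pow_const_const_pow_of_one_lt (R := ℝ) (C' * C) (r := 2) (by norm_num)
    have hc : (0 : ℝ) < 1 / (4 * (C + 2) ^ (C' * C)) := by positivity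
    have h2 := hlo.bound hc
    filter_upwards [h2, eventually_ge_atTop 1] with n hn hn1
    have hn1' : (1 : ℝ) ≤ n := by exact_mod_cast hn1
    rw [Real.norm_of_nonneg (by positivity), Real.norm_of_nonneg (by positivity)] at hn
    have h3 : ((C : ℝ) * n + 2) ^ (C' * C) ≤ ((C + 2) * n) ^ (C' * C) := by
      apply pow_le_pow_left₀ (by positivity)
      nlinarith
    have h4 : ((C + 2 : ℝ) * n) ^ (C' * C) = (C + 2) ^ (C' * C) * n ^ (C' * C) := mul_pow _ _ _
    have h5 : ((C : ℝ) + 2) ^ (C' * C) * n ^ (C' * C) ≤ 2 ^ n / 4 := by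
      calc ((C : ℝ) + 2) ^ (C' * C) * n ^ (C' * C)
          ≤ ((C : ℝ) + 2) ^ (C' * C) * (1 / (4 * (C + 2) ^ (C' * C)) * 2 ^ n) := by gcongr
        _ = 2 ^ n / 4 := by field_simp
    have h6 : (0 : ℝ) < 2 ^ n := by positivity
    have h7 : ((C : ℝ) * n + 2) ^ (C' * C) * 2 < 2 ^ n := by
      calc ((C : ℝ) * n + 2) ^ (C' * C) * 2 ≤ (2 ^ n / 4) * 2 := by
            rw [h4] at h3; gcongr; linarith
        _ < 2 ^ n := by linarith
    exact_mod_cast h7
  filter_upwards [h1, eventually_ge_atTop (C + 1)] with n hn hnC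
  have hC : C ≤ 2 ^ n := (by omega : C ≤ n).trans (Nat.lt_two_pow_self).le
  have hn0 : n ≠ 0 := by omega
  have e : C' * (C * n) = (C' * C) * n := by ring
  rw [e, pow_mul]
  have hX : 0 < (C * n + 2) ^ (C' * C) := by positivity
  calc C * ((C * n + 2) ^ (C' * C)) ^ n ≤ 2 ^ n * ((C * n + 2) ^ (C' * C)) ^ n :=
        Nat.mul_le_mul_right _ hC
    _ = ((C * n + 2) ^ (C' * C) * 2) ^ n := by rw [mul_pow]; ring
    _ < (2 ^ n) ^ n := Nat.pow_lt_pow_left hn hn0
    _ = 2 ^ (n ^ 2) := by rw [← pow_mul, sq]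
    _ ≤ 2 ^ (n ^ k) := Nat.pow_le_pow_right (by norm_num) (Nat.pow_le_pow_right (by omega) hk)

/-- Upper comparison with `2 ^ ((C n) ^ k)`. -/
theorem upper_compare (C n k : ℕ) (hk : 2 ≤ k) (hn : 1 ≤ n) :
    (n + 2) ^ (C * n) ≤ 2 ^ ((2 * (C + 1) * n) ^ k) := by
  have h1 : n + 2 ≤ 2 ^ (n + 1) := by
    have := Nat.lt_two_pow_self (n := n + 1)
    omega
  calc (n + 2) ^ (C * n) ≤ (2 ^ (n + 1)) ^ (C * n) := Nat.pow_le_pow_left h1 _
    _ = 2 ^ ((n + 1) * (C * n)) := by rw [← pow_mul]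
    _ ≤ 2 ^ ((2 * (C + 1) * n) ^ 2) := by
        apply Nat.pow_le_pow_right (by norm_num)
        have h2 : (n + 1) * (C * n) ≤ (2 * n) * ((C + 1) * n) := by
          apply Nat.mul_le_mul
          · omega
          · apply Nat.mul_le_mul_right; omega
        have h3 : (2 * n) * ((C + 1) * n) ≤ (2 * (C + 1) * n) ^ 2 := by
          have h4 : (2 * n) * ((C + 1) * n) = (2 * (C + 1) * n) * n := by ring
          have h5 : n ≤ 2 * (C + 1) * n := Nat.le_mul_of_pos_left _ (by omega)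
          rw [h4, sq]
          exact Nat.mul_le_mul_left _ h5
        exact h2.trans h3
    _ ≤ 2 ^ ((2 * (C + 1) * n) ^ k) := by
        apply Nat.pow_le_pow_right (by norm_num)
        apply Nat.pow_le_pow_right _ hk
        have : 0 < 2 * (C + 1) * n := by positivity
        exact this

end Pool.Agent.V1123.Wreath
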