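import Mathlib

/-!
Uniqueness of the Rado graph, by back and forth.
-/

namespace Pool.Agent.V1123.Rado

/-- `G` is (a copy of) the random graph: countable, with the extension property. -/
def IsRado {V : Type} (G : SimpleGraph V) : Prop :=
  Countable V ∧ ∀ U W : Finset V, Disjoint U W →
    ∃ z, z ∉ U ∧ z ∉ W ∧ (∀ u ∈ U, G.Adj z u) ∧ ∀ w ∈ W, ¬ G.Adj z w

variable {V V' : Type} (G : SimpleGraph V) (G' : SimpleGraph V')

/-- Finite partial isomorphisms. -/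
def PI : Type :=
  {s : Finset (V × V') // ∀ p ∈ s, ∀ q ∈ s,
    (p.1 = q.1 ↔ p.2 = q.2) ∧ (G.Adj p.1 q.1 ↔ G'.Adj p.2 q.2)}

instance : Preorder (PI G G') := inferInstanceAs (Preorder (Subtype _))

/-- the empty partial isomorphism -/
def PI.empty : PI G G' := ⟨∅, by simp⟩

variable {G G'}

lemma exists_left (h' : IsRado G') (s : PI G G') (v : V) :
    ∃ t : PI G G', (∃ v', (v, v') ∈ t.1) ∧ s ≤ t := by
  classical
  by_cases hv : ∃ v', (v, v') ∈ s.1
  · exact ⟨s, hv, le_rfl⟩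
  · set U := (s.1.filter (fun p => G.Adj v p.1)).image Prod.snd with hU
    set W := (s.1.filter (fun p => ¬ G.Adj v p.1)).image Prod.snd with hW
    have hdis : Disjoint U W := by
      rw [Finset.disjoint_left]
      intro x hx hy
      obtain ⟨p, hp, rfl⟩ := Finset.mem_image.1 hx
      obtain ⟨q, hq, hpq⟩ := Finset.mem_image.1 hy
      rw [Finset.mem_filter] at hp hq
      have := (s.2 q hq.1 p hp.1).1.2 hpq
      rw [this] at hq
      exact hq.2 hp.2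
    obtain ⟨z, hzU, hzW, hz1, hz2⟩ := h'.2 U W hdis
    have hz3 : ∀ p ∈ s.1, z ≠ p.2 := by
      intro p hp hzp
      by_cases ha : G.Adj v p.1
      · exact hzU (Finset.mem_image.2 ⟨p, Finset.mem_filter.2 ⟨hp, ha⟩, hzp.symm⟩)
      · exact hzW (Finset.mem_image.2 ⟨p, Finset.mem_filter.2 ⟨hp, ha⟩, hzp.symm⟩)
    have hz4 : ∀ p ∈ s.1, (G.Adj v p.1 ↔ G'.Adj z p.2) := by
      intro p hp
      by_cases ha : G.Adj v p.1
      · exact ⟨fun _ => hz1 _ (Finset.mem_image.2 ⟨p, Finset.mem_filter.2 ⟨hp, ha⟩, rfl⟩),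
          fun _ => ha⟩
      · exact ⟨fun h => absurd h ha, fun h => absurd h
          (hz2 _ (Finset.mem_image.2 ⟨p, Finset.mem_filter.2 ⟨hp, ha⟩, rfl⟩))⟩
    have hv' : ∀ p ∈ s.1, v ≠ p.1 := by
      rintro ⟨a, b⟩ hp rfl
      exact hv ⟨b, hp⟩
    refine ⟨⟨insert (v, z) s.1, ?_⟩, ⟨z, Finset.mem_insert_self _ _⟩,
      Finset.subset_insert _ _⟩
    intro p hp q hq
    rw [Finset.mem_insert] at hp hq
    rcases hp with rfl | hp <;> rcases hq with rfl | hq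
    · simp
    · exact ⟨⟨fun h => absurd h (hv' q hq), fun h => absurd h (hz3 q hq)⟩, hz4 q hq⟩
    · refine ⟨⟨fun h => absurd h.symm (hv' p hp), fun h => absurd h.symm (hz3 p hp)⟩, ?_⟩
      rw [G.adj_comm, G'.adj_comm]
      exact hz4 p hp
    · exact s.2 p hp q hq

/-- reversing a partial isomorphism -/
noncomputable def PI.comm (s : PI G G') : PI G' G := by
  classical
  refine ⟨s.1.image Prod.swap, ?_⟩
  intro p hp q hq
  obtain ⟨p', hp', rfl⟩ := Finset.mem_image.1 hp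
  obtain ⟨q', hq', rfl⟩ := Finset.mem_image.1 hq
  exact ⟨(s.2 p' hp' q' hq').1.symm, (s.2 p' hp' q' hq').2.symm⟩

lemma PI.mem_comm {s : PI G G'} {p : V' × V} : p ∈ s.comm.1 ↔ p.swap ∈ s.1 := by
  classical
  unfold PI.comm
  simp only [Finset.mem_image]
  constructor
  · rintro ⟨q, hq, rfl⟩
    simpa using hq
  · intro h
    exact ⟨p.swap, h, by simp⟩

lemma exists_right (h : IsRado G) (s : PI G G') (v' : V') :
    ∃ t : PI G G', (∃ v, (v, v') ∈ t.1) ∧ s ≤ t := by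
  obtain ⟨t, ⟨v, hv⟩, hst⟩ := exists_left h s.comm v'
  refine ⟨t.comm, ⟨v, PI.mem_comm.2 hv⟩, ?_⟩
  intro p hp
  rw [PI.mem_comm]
  apply hst
  rw [PI.mem_comm]
  simpa using hp

/-- Any two copies of the random graph are isomorphic. -/
theorem exists_iso (h : IsRado G) (h' : IsRado G') : Nonempty (G ≃g G') := by
  classical
  have c1 := h.1
  have c2 := h'.1
  obtain ⟨e1⟩ := nonempty_encodable V
  obtain ⟨e2⟩ := nonempty_encodable V'
  let 𝒟 : V ⊕ V' → Order.Cofinal (PI G G') := fun x =>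
    Sum.rec (fun v => ⟨{t | ∃ v', (v, v') ∈ t.1}, fun s => exists_left h' s v⟩)
      (fun v' => ⟨{t | ∃ v, (v, v') ∈ t.1}, fun s => exists_right h s v'⟩) x
  let I := Order.idealOfCofinals (PI.empty G G') 𝒟
  have hL : ∀ v : V, ∃ v', ∃ t ∈ I, (v, v') ∈ t.1 := by
    intro v
    obtain ⟨t, ⟨v', hv'⟩, ht⟩ := Order.cofinal_meets_idealOfCofinals (PI.empty G G') 𝒟 (Sum.inl v)
    exact ⟨v', t, ht, hv'⟩
  have hR : ∀ v' : V', ∃ v, ∃ t ∈ I, (v, v') ∈ t.1 := by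
    intro v'
    obtain ⟨t, ⟨v, hv⟩, ht⟩ := Order.cofinal_meets_idealOfCofinals (PI.empty G G') 𝒟 (Sum.inr v')
    exact ⟨v, t, ht, hv⟩
  have key : ∀ v v' w w', (∃ t ∈ I, (v, v') ∈ t.1) → (∃ t ∈ I, (w, w') ∈ t.1) →
      (v = w ↔ v' = w') ∧ (G.Adj v w ↔ G'.Adj v' w') := by
    rintro v v' w w' ⟨t, ht, h1⟩ ⟨t', ht', h2⟩
    obtain ⟨u, -, hu1, hu2⟩ := I.directed t ht t' ht'
    exact u.2 (v, v') (hu1 h1) (w, w') (hu2 h2)
  choose f hf using hL
  choose g hg using hR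
  refine ⟨⟨⟨f, g, fun v => ?_, fun v' => ?_⟩, fun {v w} => ?_⟩⟩
  · exact (key _ _ _ _ (hg (f v)) (hf v)).1.2 rfl
  · exact (key _ _ _ _ (hf (g v')) (hg v')).1.1 rfl
  · exact (key _ _ _ _ (hf v) (hf w)).2.symm

end Pool.Agent.V1123.Rado
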