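import Mathlib

set_option autoImplicit false

namespace Pool.Agent.V1123.BallGrowth

open Filter Topology

universe u

/-- The ball of radius `n`: products of at most `n` elements of `X ∪ X⁻¹`. -/
def ball {G : Type u} [Group G] (X : Finset G) (n : ℕ) : Set G :=
  {g : G | ∃ l : List G, l.length ≤ n ∧ (∀ x ∈ l, x ∈ X ∨ x⁻¹ ∈ X) ∧ l.prod = g}

section General

variable {G : Type u} [Group G]

theorem finite_gen (X : Finset G) : Finite {x : G // x ∈ X ∨ x⁻¹ ∈ X} := by
  have h1 : {x : G | x ∈ X}.Finite := X.finite_toSet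
  have h2 : {x : G | x⁻¹ ∈ X}.Finite := h1.preimage inv_injective.injOn
  exact (h1.union h2).to_subtype

theorem ball_finite (X : Finset G) (n : ℕ) : (ball X n).Finite := by
  have hfin := finite_gen X
  have h : (ball X n) ⊆ (fun l : List {x : G // x ∈ X ∨ x⁻¹ ∈ X} =>
      (l.map Subtype.val).prod) '' {l | l.length ≤ n} := by
    rintro g ⟨l, hl, hx, rfl⟩
    refine ⟨l.attach.map (fun a => ⟨a.1, hx a.1 a.2⟩), ?_, ?_⟩
    · simpa using hl
    · simp only [List.map_map]
      congr 1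
      exact List.attach_map_subtype_val l
  exact (Set.Finite.image _ (List.finite_length_le _ n)).subset h

theorem one_mem_ball (X : Finset G) (n : ℕ) : (1 : G) ∈ ball X n :=
  ⟨[], by simp, by simp, by simp⟩

theorem ball_mono (X : Finset G) {m n : ℕ} (h : m ≤ n) : ball X m ⊆ ball X n := by
  rintro g ⟨l, hl, hx, rfl⟩
  exact ⟨l, hl.trans h, hx, rfl⟩

theorem mem_ball_one (X : Finset G) (g : G) (hg : g ∈ X ∨ g⁻¹ ∈ X) : g ∈ ball X 1 :=
  ⟨[g], by simp, by simpa using hg, by simp⟩

theorem inv_mem_ball (X : Finset G) (n : ℕ) (g : G) (hg : g ∈ ball X n) : g⁻¹ ∈ ball X n := by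
  obtain ⟨l, hl, hx, rfl⟩ := hg
  refine ⟨(l.map (fun x => x⁻¹)).reverse, by simpa using hl, ?_, (List.prod_inv_reverse l).symm⟩
  intro x hx'
  rw [List.mem_reverse, List.mem_map] at hx'
  obtain ⟨y, hy, rfl⟩ := hx'
  rcases hx y hy with h | h
  · right; simpa using h
  · left; exact h

theorem mul_mem_ball (X : Finset G) (m n : ℕ) (g h : G) (hg : g ∈ ball X m) (hh : h ∈ ball X n) :
    g * h ∈ ball X (m + n) := by
  obtain ⟨l, hl, hx, rfl⟩ := hg
  obtain ⟨l', hl', hx', rfl⟩ := hh
  refine ⟨l ++ l', by simp; omega, ?_, by simp⟩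
  intro x hx''
  rw [List.mem_append] at hx''
  rcases hx'' with h | h
  · exact hx x h
  · exact hx' x h

theorem ball_split (X : Finset G) (m n : ℕ) (g : G) (hg : g ∈ ball X (m + n)) :
    ∃ u ∈ ball X m, ∃ v ∈ ball X n, g = u * v := by
  obtain ⟨l, hl, hx, rfl⟩ := hg
  refine ⟨(l.take m).prod, ⟨l.take m, by simp, fun x hx' => hx x (List.mem_of_mem_take hx'), rfl⟩,
    (l.drop m).prod, ⟨l.drop m, by simp; omega, fun x hx' => hx x (List.mem_of_mem_drop hx'), rfl⟩,
    ?_⟩
  rw [← List.prod_append, List.take_append_drop]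

/-- Induction principle for balls. -/
theorem ball_induction (X : Finset G) (P : ℕ → G → Prop) (h0 : ∀ n, P n 1)
    (hs : ∀ n x g, (x ∈ X ∨ x⁻¹ ∈ X) → P n g → P (n + 1) (x * g)) :
    ∀ n g, g ∈ ball X n → P n g := by
  rintro n g ⟨l, hl, hx, rfl⟩
  induction l generalizing n with
  | nil => simpa using h0 n
  | cons x l ih =>
    obtain ⟨k, rfl⟩ : ∃ k, n = k + 1 := ⟨n - 1, by simp at hl; omega⟩
    rw [List.prod_cons]
    apply hs
    · exact hx x (by simp)
    · exact ih k (by simpa using hl) (fun y hy => hx y (by simp [hy]))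

theorem exists_mem_ball (X : Finset G) (hX : Subgroup.closure (X : Set G) = ⊤) (g : G) :
    ∃ n, g ∈ ball X n := by
  have hg : g ∈ Subgroup.closure (X : Set G) := by rw [hX]; exact Subgroup.mem_top g
  induction hg using Subgroup.closure_induction with
  | mem x hx => exact ⟨1, mem_ball_one X x (Or.inl hx)⟩
  | one => exact ⟨0, one_mem_ball X 0⟩
  | mul x y _ _ ihx ihy =>
    obtain ⟨m, hm⟩ := ihx
    obtain ⟨n, hn⟩ := ihy
    exact ⟨m + n, mul_mem_ball X m n x y hm hn⟩
  | inv x _ ih =>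
    obtain ⟨m, hm⟩ := ih
    exact ⟨m, inv_mem_ball X m x hm⟩

/-- Number of elements of the ball. -/
noncomputable def β (X : Finset G) (n : ℕ) : ℕ := (ball X n).ncard

theorem β_pos (X : Finset G) (n : ℕ) : 0 < β X n := by
  unfold β
  rw [Set.ncard_pos (ball_finite X n)]
  exact ⟨1, one_mem_ball X n⟩

theorem β_mono (X : Finset G) {m n : ℕ} (h : m ≤ n) : β X m ≤ β X n :=
  Set.ncard_le_ncard (ball_mono X h) (ball_finite X n)

theorem mul_set_ncard (g : G) (S : Set G) : ((fun b => g * b) '' S).ncard = S.ncard :=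
  Set.ncard_image_of_injective S (mul_right_injective g)

/-- The annulus inequality. -/
theorem annulus (X : Finset G) (n r : ℕ) (h : 6 * r ≤ n) :
    (β X n - β X (n - 2 * r)) * β X r ≤ (β X (n - 2 * r) - β X (n - 6 * r)) * β X (4 * r) := by
  classical
  have hfin := ball_finite X
  set S1 : Finset G := (hfin n).toFinset \ (hfin (n - 2 * r)).toFinset with hS1
  set S2 : Finset G := (hfin (n - 2 * r)).toFinset \ (hfin (n - 6 * r)).toFinset with hS2
  have c1 : S1.card = β X n - β X (n - 2 * r) := by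
    rw [hS1, Finset.card_sdiff_of_subset]
    · unfold β
      rw [Set.ncard_eq_toFinset_card _ (hfin n), Set.ncard_eq_toFinset_card _ (hfin (n - 2 * r))]
    · intro x hx
      rw [Set.Finite.mem_toFinset] at hx ⊢
      exact ball_mono X (by omega) hx
  have c2 : S2.card = β X (n - 2 * r) - β X (n - 6 * r) := by
    rw [hS2, Finset.card_sdiff_of_subset]
    · unfold β
      rw [Set.ncard_eq_toFinset_card _ (hfin (n - 6 * r)),
        Set.ncard_eq_toFinset_card _ (hfin (n - 2 * r))]
    · intro x hx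
      rw [Set.Finite.mem_toFinset] at hx ⊢
      exact ball_mono X (by omega) hx
  have hp : ∀ x : G, ∃ u : G, x ∈ S1 → (∃ v ∈ ball X (3 * r), x = u * v) ∧
      ∀ b ∈ ball X r, u * b ∈ S2 := by
    intro x
    by_cases hx : x ∈ S1
    · rw [hS1, Finset.mem_sdiff, Set.Finite.mem_toFinset, Set.Finite.mem_toFinset] at hx
      obtain ⟨hx1, hx2⟩ := hx
      have hex : ∃ m, x ∈ ball X m := ⟨n, hx1⟩
      set m := Nat.find hex with hm
      have hm1 : x ∈ ball X m := Nat.find_spec hex
      have hmn : m ≤ n := Nat.find_min' hex hx1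
      have hm2 : n - 2 * r < m := by
        by_contra hcon
        push Not at hcon
        exact hx2 (ball_mono X hcon hm1)
      have e : m = (m - 3 * r) + 3 * r := by omega
      rw [e] at hm1
      obtain ⟨u, hu, v, hv, rfl⟩ := ball_split X _ _ x hm1
      refine ⟨u, fun _ => ⟨⟨v, hv, rfl⟩, fun b hb => ?_⟩⟩
      rw [hS2, Finset.mem_sdiff, Set.Finite.mem_toFinset, Set.Finite.mem_toFinset]
      refine ⟨?_, fun hcon => ?_⟩
      · exact ball_mono X (by omega) (mul_mem_ball X _ _ _ _ hu hb)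
      · apply hx2
        have h1 := mul_mem_ball X _ _ _ _ hcon (inv_mem_ball X _ _ hb)
        rw [mul_inv_cancel_right] at h1
        have h2 := mul_mem_ball X _ _ _ _ h1 hv
        exact ball_mono X (by omega) h2
    · exact ⟨1, fun h' => absurd h' hx⟩
  choose p hp using hp
  have key := Finset.card_mul_le_card_mul (s := S1) (t := S2) (m := β X r) (n := β X (4 * r))
    (fun x w => w ∈ (fun b => p x * b) '' ball X r) ?_ ?_
  · rw [c1, c2] at key
    exact key
  · intro x hx
    have h1 : (((fun b => p x * b) '' ball X r)) ⊆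
        ((S2.bipartiteAbove (fun x w => w ∈ (fun b => p x * b) '' ball X r) x : Finset G) : Set G) := by
      intro w hw
      rw [Finset.mem_coe, Finset.mem_bipartiteAbove]
      refine ⟨?_, hw⟩
      obtain ⟨b, hb, rfl⟩ := hw
      exact (hp x hx).2 b hb
    have h2 := Set.ncard_le_ncard h1 (Finset.finite_toSet _)
    rw [mul_set_ncard, Set.ncard_coe_finset] at h2
    exact h2
  · intro w hw
    have h1 : ((S1.bipartiteBelow (fun x w => w ∈ (fun b => p x * b) '' ball X r) w : Finset G) :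
        Set G) ⊆ (fun b => w * b) '' ball X (4 * r) := by
      intro x hx
      rw [Finset.mem_coe, Finset.mem_bipartiteBelow] at hx
      obtain ⟨hx1, b, hb, hbw⟩ := hx
      obtain ⟨⟨v, hv, hxv⟩, -⟩ := hp x hx1
      refine ⟨b⁻¹ * v, ?_, ?_⟩
      · have := mul_mem_ball X _ _ _ _ (inv_mem_ball X _ _ hb) hv
        exact ball_mono X (by omega) this
      · simp only at hbw ⊢
        calc w * (b⁻¹ * v) = p x * b * (b⁻¹ * v) := by rw [hbw]
          _ = p x * v := by group
          _ = x := hxv.symm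
    have h2 := Set.ncard_le_ncard h1 ((ball_finite X _).image _)
    rw [mul_set_ncard, Set.ncard_coe_finset] at h2
    exact h2

/-- Annuli of bounded width are negligible, given doubling. -/
theorem ratio_of_doubling (X : Finset G) (D r0 : ℕ) (hD : ∀ r, r0 ≤ r → β X (4 * r) ≤ D * β X r)
    (r : ℕ) (ε : ℝ) (hε : 0 < ε) :
    ∀ᶠ n : ℕ in atTop, ((β X n : ℝ) - β X (n - r)) ≤ ε * β X n := by
  set R := max r0 r + 1 with hR
  have hR0 : r0 ≤ R := by omega
  have hRr : r ≤ 2 * R := by omega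
  have hR1 : 1 ≤ R := by omega
  have hθ : ∃ j : ℕ, ((D : ℝ) / (1 + D)) ^ j < ε := by
    apply exists_pow_lt_of_lt_one hε
    rw [div_lt_one (by positivity)]; linarith
  obtain ⟨j, hj⟩ := hθ
  filter_upwards [eventually_ge_atTop (6 * (R * 3 ^ j))] with n hn
  have step : ∀ i, i ≤ j → ((β X n : ℝ) - β X (n - 2 * R)) * (1 + D) ^ i ≤
      D ^ i * ((β X n : ℝ) - β X (n - 2 * (R * 3 ^ i))) := by
    intro i hi
    induction i with
    | zero => simp
    | succ i ih =>
      have ih' := ih (by omega)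
      have hle : 3 ^ i * 3 ≤ 3 ^ j := by
        rw [← pow_succ]; exact Nat.pow_le_pow_right (by norm_num) hi
      have h6 : 6 * (R * 3 ^ i) ≤ n := by
        refine le_trans ?_ hn
        apply Nat.mul_le_mul_left
        apply Nat.mul_le_mul_left
        exact Nat.pow_le_pow_right (by norm_num) (by omega)
      have h1 := annulus X n (R * 3 ^ i) h6
      have hRi : r0 ≤ R * 3 ^ i := hR0.trans (Nat.le_mul_of_pos_right _ (by positivity))
      have h2 := hD (R * 3 ^ i) hRi
      have hb : 0 < β X (R * 3 ^ i) := β_pos X _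
      have h3 : (β X n - β X (n - 2 * (R * 3 ^ i))) ≤
          (β X (n - 2 * (R * 3 ^ i)) - β X (n - 6 * (R * 3 ^ i))) * D := by
        have : (β X n - β X (n - 2 * (R * 3 ^ i))) * β X (R * 3 ^ i) ≤
            ((β X (n - 2 * (R * 3 ^ i)) - β X (n - 6 * (R * 3 ^ i))) * D) * β X (R * 3 ^ i) := by
          calc _ ≤ _ := h1
            _ ≤ (β X (n - 2 * (R * 3 ^ i)) - β X (n - 6 * (R * 3 ^ i))) *
              (D * β X (R * 3 ^ i)) := Nat.mul_le_mul_left _ h2
            _ = _ := by ring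
        exact Nat.le_of_mul_le_mul_right this hb
      have m1 : β X (n - 2 * (R * 3 ^ i)) ≤ β X n := β_mono X (Nat.sub_le _ _)
      have m2 : β X (n - 6 * (R * 3 ^ i)) ≤ β X (n - 2 * (R * 3 ^ i)) := β_mono X (by omega)
      have h4 : ((β X n : ℝ) - β X (n - 2 * (R * 3 ^ i))) ≤
          ((β X (n - 2 * (R * 3 ^ i)) : ℝ) - β X (n - 6 * (R * 3 ^ i))) * D := by
        rw [← Nat.cast_sub m1, ← Nat.cast_sub m2]; exact_mod_cast h3
      have e : 2 * (R * 3 ^ (i + 1)) = 6 * (R * 3 ^ i) := by rw [pow_succ]; ring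
      rw [e]
      have h5 : ((β X n : ℝ) - β X (n - 2 * (R * 3 ^ i))) * (1 + D) ≤
          D * ((β X n : ℝ) - β X (n - 6 * (R * 3 ^ i))) := by nlinarith
      calc ((β X n : ℝ) - β X (n - 2 * R)) * (1 + D) ^ (i + 1)
          = (((β X n : ℝ) - β X (n - 2 * R)) * (1 + D) ^ i) * (1 + D) := by ring
        _ ≤ (D ^ i * ((β X n : ℝ) - β X (n - 2 * (R * 3 ^ i)))) * (1 + D) := by gcongr
        _ = D ^ i * (((β X n : ℝ) - β X (n - 2 * (R * 3 ^ i))) * (1 + D)) := by ring
        _ ≤ D ^ i * (D * ((β X n : ℝ) - β X (n - 6 * (R * 3 ^ i)))) := by gcongr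
        _ = _ := by ring
  have hfin := step j le_rfl
  have hpos : (0 : ℝ) < (1 + D) ^ j := by positivity
  have h7 : ((β X n : ℝ) - β X (n - 2 * R)) ≤ ε * β X n := by
    have h8 : ((β X n : ℝ) - β X (n - 2 * R)) * (1 + D) ^ j ≤ D ^ j * β X n := by
      refine hfin.trans ?_
      have : (0 : ℝ) ≤ β X (n - 2 * (R * 3 ^ j)) := by positivity
      gcongr
      linarith
    have h9 : ((D : ℝ) / (1 + D)) ^ j = D ^ j / (1 + D) ^ j := div_pow _ _ _
    rw [h9, div_lt_iff₀ hpos] at hj
    have hb : (0 : ℝ) < β X n := by exact_mod_cast β_pos X n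
    have h10 : ((β X n : ℝ) - β X (n - 2 * R)) * (1 + D) ^ j ≤ (ε * β X n) * (1 + D) ^ j := by
      calc _ ≤ _ := h8
        _ ≤ (ε * (1 + D) ^ j) * β X n := by gcongr
        _ = _ := by ring
    exact le_of_mul_le_mul_right h10 hpos
  have h11 : (β X (n - 2 * R) : ℝ) ≤ β X (n - r) := by
    exact_mod_cast β_mono X (by omega)
  linarith

/-- Balls of bounded difference have asymptotically equal cardinalities. -/
theorem ratio_tendsto (X : Finset G) (D r0 : ℕ) (hD : ∀ r, r0 ≤ r → β X (4 * r) ≤ D * β X r)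
    (r : ℕ) : Tendsto (fun n : ℕ => (β X (n - r) : ℝ) / β X n) atTop (𝓝 1) := by
  rw [Metric.tendsto_atTop]
  intro ε hε
  have h1 := ratio_of_doubling X D r0 hD r (ε / 2) (by positivity)
  rw [eventually_atTop] at h1
  obtain ⟨N, hN⟩ := h1
  refine ⟨N, fun n hn => ?_⟩
  have hb : (0 : ℝ) < β X n := by exact_mod_cast β_pos X n
  have h2 := hN n hn
  have h3 : (β X (n - r) : ℝ) ≤ β X n := by exact_mod_cast β_mono X (Nat.sub_le _ _)
  rw [Real.dist_eq, abs_lt]
  have h4 : (β X (n - r) : ℝ) / β X n - 1 = -(((β X n : ℝ) - β X (n - r)) / β X n) := by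
    field_simp; ring
  rw [h4]
  have h5 : ((β X n : ℝ) - β X (n - r)) / β X n ≤ ε / 2 := by
    rw [div_le_iff₀ hb]; exact h2
  have h6 : 0 ≤ ((β X n : ℝ) - β X (n - r)) / β X n := div_nonneg (by linarith) hb.le
  constructor <;> linarith

theorem ratio_tendsto' (X : Finset G) (D r0 : ℕ) (hD : ∀ r, r0 ≤ r → β X (4 * r) ≤ D * β X r)
    (r : ℕ) : Tendsto (fun n : ℕ => (β X (n + r) : ℝ) / β X n) atTop (𝓝 1) := by
  have h1 := (ratio_tendsto X D r0 hD r).comp (tendsto_add_atTop_nat r)
  have h2 := h1.inv₀ one_ne_zero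
  rw [inv_one] at h2
  refine h2.congr fun n => ?_
  simp only [Function.comp, Nat.add_sub_cancel, inv_div]

end General

end Pool.Agent.V1123.BallGrowth
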