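import Mathlib
import Pool.Agent.V1123.BallGrowth

set_option autoImplicit false

namespace Pool.Agent.V1123.BallGrowth

open Filter Topology

universe u

section Torsion

theorem exists_exponent (B : Type u) [CommGroup B] [hB : Group.FG B] :
    ∃ E : ℕ, 0 < E ∧ ∀ b : B, ∀ r : ℕ, 0 < r → (b ^ E) ^ r = 1 → b ^ E = 1 := by
  have : AddGroup.FG (Additive B) := inferInstance
  have : Module.Finite ℤ (Additive B) := Module.Finite.iff_addGroup_fg.mpr this
  have : IsNoetherian ℤ (Additive B) := inferInstance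
  let T := Submodule.torsion ℤ (Additive B)
  have : Module.Finite ℤ T := inferInstance
  have hfin : Finite T := Module.finite_of_fg_torsion T Submodule.torsion_isTorsion
  refine ⟨Nat.card T, Nat.card_pos, fun b r hr h => ?_⟩
  have hb : Additive.ofMul b ∈ T := by
    rw [Submodule.mem_torsion_iff]
    have hne : ((Nat.card T * r : ℕ) : ℤ) ≠ 0 := by
      have : 0 < Nat.card T * r := Nat.mul_pos Nat.card_pos hr
      exact_mod_cast this.ne'
    refine ⟨⟨((Nat.card T * r : ℕ) : ℤ), mem_nonZeroDivisors_of_ne_zero hne⟩, ?_⟩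
    change ((Nat.card T * r : ℕ) : ℤ) • Additive.ofMul b = 0
    rw [natCast_zsmul, ← ofMul_pow, pow_mul, h]
    rfl
  have h1 : Nat.card T • (⟨Additive.ofMul b, hb⟩ : T) = 0 := card_nsmul_eq_zero'
  have h2 : Nat.card T • Additive.ofMul b = 0 := congrArg Subtype.val h1
  rw [← ofMul_pow] at h2
  exact ofMul_eq_zero.1 h2

end Torsion

section Good

variable {G : Type u} [Group G]

/-- Subgroups of power type, their basic properties. -/
theorem exists_good [hG : Group.FG G] (B0 : Subgroup G) [B0.FiniteIndex]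
    (hcomm : ∀ a ∈ B0, ∀ b ∈ B0, a * b = b * a) :
    ∃ V : Subgroup G, V.FiniteIndex ∧ (∀ a ∈ V, ∀ b ∈ V, a * b = b * a) ∧
      (∀ a ∈ V, ∀ r : ℕ, 0 < r → a ^ r = 1 → a = 1) ∧ (∀ φ : G →* G, ∀ a ∈ V, φ a ∈ V) := by
  set B : Subgroup G := B0.normalCore with hB
  have hBle : B ≤ B0 := Subgroup.normalCore_le B0
  have hBc : ∀ a b : B, a * b = b * a := by
    intro a b
    ext
    exact hcomm a (hBle a.2) b (hBle b.2)
  let _ : CommGroup B := { (inferInstance : Group B) with mul_comm := hBc }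
  have hfg : Group.FG B := Subgroup.fg_of_index_ne_zero B
  obtain ⟨E, hE, htor⟩ := exists_exponent B
  set m := B.index with hm
  have hm0 : 0 < m := Nat.pos_of_ne_zero Subgroup.FiniteIndex.index_ne_zero
  set V : Subgroup G := Subgroup.closure (Set.range fun g : G => g ^ (m * E)) with hV
  have hVB : ∀ v ∈ V, ∃ b : B, v = (b : G) ^ E := by
    intro v hv
    induction hv using Subgroup.closure_induction with
    | mem x hx =>
      obtain ⟨g, rfl⟩ := hx
      refine ⟨⟨g ^ m, B.pow_index_mem g⟩, ?_⟩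
      simp only [pow_mul]
    | one => exact ⟨1, by simp⟩
    | mul x y _ _ ihx ihy =>
      obtain ⟨a, rfl⟩ := ihx
      obtain ⟨b, rfl⟩ := ihy
      refine ⟨a * b, ?_⟩
      have := mul_pow a b E
      have h := congrArg Subtype.val this
      push_cast at h ⊢
      exact h.symm
    | inv x _ ih =>
      obtain ⟨a, rfl⟩ := ih
      exact ⟨a⁻¹, by push_cast; rw [inv_pow]⟩
  have hVle : V ≤ B := by
    intro v hv
    obtain ⟨b, rfl⟩ := hVB v hv
    exact B.pow_mem b.2 E
  refine ⟨V, ?_, ?_, ?_, ?_⟩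
  · have h1 : (V.subgroupOf B).index ≠ 0 := by
      have : Group.FG (B ⧸ V.subgroupOf B) := inferInstance
      have htq : IsMulTorsion (B ⧸ V.subgroupOf B) := by
        intro q
        obtain ⟨b, rfl⟩ := QuotientGroup.mk_surjective q
        rw [isOfFinOrder_iff_pow_eq_one]
        refine ⟨m * E, Nat.mul_pos hm0 hE, ?_⟩
        rw [← QuotientGroup.mk_pow, QuotientGroup.eq_one_iff, Subgroup.mem_subgroupOf]
        push_cast
        exact Subgroup.subset_closure ⟨b, rfl⟩
      have : Finite (B ⧸ V.subgroupOf B) := CommGroup.finite_of_fg_isMulTorsion _ htq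
      exact Nat.card_pos.ne'
    refine ⟨?_⟩
    rw [← Subgroup.relIndex_mul_index hVle]
    exact mul_ne_zero h1 hm0.ne'
  · intro a ha b hb
    exact hcomm a (hBle (hVle ha)) b (hBle (hVle hb))
  · intro a ha r hr h
    obtain ⟨b, rfl⟩ := hVB a ha
    have h1 : (b ^ E) ^ r = 1 := by
      ext; push_cast; exact h
    have h2 := htor b r hr h1
    have h3 := congrArg Subtype.val h2
    push_cast at h3
    exact h3
  · intro φ a ha
    have : V ≤ V.comap φ := by
      rw [hV, Subgroup.closure_le]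
      rintro x ⟨g, rfl⟩
      simp only [Subgroup.coe_comap, Set.mem_preimage, map_pow]
      exact Subgroup.subset_closure ⟨φ g, rfl⟩
    exact this ha

theorem normal_of_invariant (V : Subgroup G) (h : ∀ φ : G →* G, ∀ a ∈ V, φ a ∈ V) : V.Normal := by
  constructor
  intro a ha g
  exact h (MulAut.conj g).toMonoidHom a ha

end Good

section Abelian

variable {B : Type u} [CommGroup B] (S : Finset B)

/-- Product of powers of the generators. -/
noncomputable def PP (c : S → ℤ) : B := ∏ i : S, (i : B) ^ c i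

theorem PP_add (c d : S → ℤ) : PP S (c + d) = PP S c * PP S d := by
  unfold PP
  rw [← Finset.prod_mul_distrib]
  exact Finset.prod_congr rfl fun i _ => zpow_add _ _ _

/-- Products of powers with exponents at most `R`. -/
noncomputable def WW (R : ℕ) : Set B := PP S '' {c | ∀ i, |c i| ≤ R}

/-- The box of exponents. -/
noncomputable def box (q : ℕ) : Finset (S → ℤ) := by
  classical
  exact Fintype.piFinset (fun _ => Finset.Icc (-(q : ℤ)) q)

omit [CommGroup B] in
theorem mem_box (q : ℕ) (c : S → ℤ) : c ∈ box S q ↔ ∀ i, |c i| ≤ q := by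
  classical
  unfold box
  rw [Fintype.mem_piFinset]
  simp only [Finset.mem_Icc, abs_le]

omit [CommGroup B] in
theorem box_card (q : ℕ) : (box S q).card = (2 * q + 1) ^ S.card := by
  classical
  unfold box
  rw [Fintype.card_piFinset, Finset.prod_const, Int.card_Icc, Finset.card_univ, Fintype.card_coe]
  congr 1
  omega

theorem WW_finite (R : ℕ) : (WW S R).Finite := by
  have : {c : S → ℤ | ∀ i, |c i| ≤ R} = (box S R : Set (S → ℤ)) := by
    ext c; rw [Finset.mem_coe, mem_box]; rfl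
  unfold WW
  rw [this]
  exact (Finset.finite_toSet _).image _

theorem WW_mono {R R' : ℕ} (h : R ≤ R') : WW S R ⊆ WW S R' := by
  rintro _ ⟨c, hc, rfl⟩
  have h' : (R : ℤ) ≤ R' := by exact_mod_cast h
  exact ⟨c, fun i => (hc i).trans h', rfl⟩

theorem WW_one (R : ℕ) : (1 : B) ∈ WW S R := by
  refine ⟨0, fun i => by simp, ?_⟩
  simp [PP]

theorem WW_mul (R R' : ℕ) (a b : B) (ha : a ∈ WW S R) (hb : b ∈ WW S R') :
    a * b ∈ WW S (R + R') := by
  obtain ⟨c, hc, rfl⟩ := ha
  obtain ⟨d, hd, rfl⟩ := hb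
  refine ⟨c + d, fun i => ?_, PP_add S c d⟩
  rw [Pi.add_apply]
  push_cast
  exact (abs_add_le _ _).trans (add_le_add (hc i) (hd i))

theorem WW_inv (R : ℕ) (a : B) (ha : a ∈ WW S R) : a⁻¹ ∈ WW S R := by
  obtain ⟨c, hc, rfl⟩ := ha
  refine ⟨-c, fun i => ?_, ?_⟩
  · rw [Pi.neg_apply, abs_neg]; exact hc i
  · rw [eq_inv_iff_mul_eq_one, ← PP_add, neg_add_cancel]
    simp [PP]

theorem WW_exists (hS : Subgroup.closure (S : Set B) = ⊤) (b : B) : ∃ R, b ∈ WW S R := by
  classical
  have hb : b ∈ Subgroup.closure (S : Set B) := by rw [hS]; exact Subgroup.mem_top b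
  induction hb using Subgroup.closure_induction with
  | mem x hx =>
    refine ⟨1, Pi.single ⟨x, hx⟩ 1, fun i => ?_, ?_⟩
    · rw [Pi.single_apply]
      split_ifs <;> simp
    · unfold PP
      rw [Finset.prod_eq_single (⟨x, hx⟩ : S)]
      · simp
      · intro j _ hj
        rw [Pi.single_apply, if_neg hj, zpow_zero]
      · intro h; exact absurd (Finset.mem_univ _) h
  | one => exact ⟨0, WW_one S 0⟩
  | mul x y _ _ ihx ihy =>
    obtain ⟨m, hm⟩ := ihx
    obtain ⟨n, hn⟩ := ihy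
    exact ⟨m + n, WW_mul S m n x y hm hn⟩
  | inv x _ ih =>
    obtain ⟨m, hm⟩ := ih
    exact ⟨m, WW_inv S m x hm⟩

theorem WW_double (q R : ℕ) (hR : 1 ≤ R) :
    (WW S (q * R)).ncard ≤ (2 * q + 1) ^ S.card * (WW S R).ncard := by
  classical
  have hR' : (0 : ℤ) < R := by exact_mod_cast hR
  have hsub : WW S (q * R) ⊆ (fun p : (S → ℤ) × B => PP S ((R : ℤ) • p.1) * p.2) ''
      ((box S q : Set (S → ℤ)) ×ˢ WW S R) := by
    rintro _ ⟨c, hc, rfl⟩
    refine ⟨(fun i => c i / R, PP S (fun i => c i % R)), ⟨?_, ⟨fun i => c i % R, ?_, rfl⟩⟩, ?_⟩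
    · rw [Finset.mem_coe, mem_box]
      intro i
      have h1 := abs_le.1 (hc i)
      push_cast at h1
      rw [abs_le]
      simp only
      constructor
      · apply Int.le_ediv_of_mul_le hR'
        linarith
      · apply Int.ediv_le_of_le_mul hR'
        linarith
    · intro i
      have h1 := Int.emod_nonneg (c i) hR'.ne'
      have h2 := Int.emod_lt_of_pos (c i) hR'
      rw [abs_of_nonneg h1]; exact h2.le
    · simp only
      rw [← PP_add]
      congr 1
      ext i
      simp only [Pi.add_apply, Pi.smul_apply, smul_eq_mul]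
      exact Int.mul_ediv_add_emod (c i) R
  have hfin : ((box S q : Set (S → ℤ)) ×ˢ WW S R).Finite :=
    (Finset.finite_toSet _).prod (WW_finite S R)
  calc (WW S (q * R)).ncard ≤ _ := Set.ncard_le_ncard hsub (hfin.image _)
    _ ≤ ((box S q : Set (S → ℤ)) ×ˢ WW S R).ncard := Set.ncard_image_le hfin
    _ = _ := by rw [Set.ncard_prod, Set.ncard_coe_finset, box_card]

end Abelian

section Doubling

variable {G : Type u} [Group G]

theorem uniform {ι : Type*} [Finite ι] (P : ι → ℕ → Prop) (hmono : ∀ i a b, a ≤ b → P i a → P i b)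
    (h : ∀ i, ∃ K, P i K) : ∃ K, ∀ i, P i K := by
  classical
  have := Fintype.ofFinite ι
  choose K hK using h
  refine ⟨∑ i, K i, fun i => hmono i _ _ ?_ (hK i)⟩
  exact Finset.single_le_sum (f := K) (fun _ _ => Nat.zero_le _) (Finset.mem_univ i)

/-- Doubling for finitely generated virtually abelian groups. -/
theorem doubling (V : Subgroup G) [hVn : V.Normal] [hVf : V.FiniteIndex]
    (hc : ∀ a ∈ V, ∀ b ∈ V, a * b = b * a) (X : Finset G)
    (hX : Subgroup.closure (X : Set G) = ⊤) :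
    ∃ D r0 : ℕ, ∀ r, r0 ≤ r → β X (4 * r) ≤ D * β X r := by
  classical
  have hG : Group.FG G := ⟨⟨X, hX⟩⟩
  have hVc : ∀ a b : V, a * b = b * a := by
    intro a b; ext; exact hc a a.2 b b.2
  let _ : CommGroup V := { (inferInstance : Group V) with mul_comm := hVc }
  have hfg : Group.FG V := Subgroup.fg_of_index_ne_zero V
  obtain ⟨S, hS⟩ := hfg.out
  -- lower sandwich
  obtain ⟨L0, hL0⟩ : ∃ L0, ∀ i : S, ((i : V) : G) ∈ ball X L0 :=
    uniform (fun (i : S) n => ((i : V) : G) ∈ ball X n)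
      (fun i a b hab h => ball_mono X hab h) (fun i => exists_mem_ball X hX _)
  have hpow : ∀ (g : G) (a : ℕ), g ∈ ball X L0 → g ^ a ∈ ball X (L0 * a) := by
    intro g a hg
    induction a with
    | zero => rw [pow_zero]; exact one_mem_ball X _
    | succ a ih =>
      rw [pow_succ, mul_add, mul_one]
      exact mul_mem_ball X _ _ _ _ ih hg
  have hzpow : ∀ (g : G) (a : ℤ) (R : ℕ), |a| ≤ R → g ∈ ball X L0 → g ^ a ∈ ball X (L0 * R) := by
    intro g a R ha hg
    obtain ⟨n, rfl | rfl⟩ := a.eq_nat_or_neg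
    · rw [zpow_natCast]
      have : n ≤ R := by
        have := abs_le.1 ha; omega
      exact ball_mono X (Nat.mul_le_mul_left _ this) (hpow g n hg)
    · rw [zpow_neg, zpow_natCast]
      have : n ≤ R := by
        have := abs_le.1 ha; omega
      exact inv_mem_ball X _ _ (ball_mono X (Nat.mul_le_mul_left _ this) (hpow g n hg))
  have hlow : ∀ (R : ℕ) (w : V), w ∈ WW S R → (w : G) ∈ ball X ((L0 * S.card + 1) * R) := by
    rintro R _ ⟨c, hc', rfl⟩
    have h1 : ∀ T : Finset S, ((∏ i ∈ T, (i : V) ^ c i : V) : G) ∈ ball X (T.card * (L0 * R)) := by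
      intro T
      induction T using Finset.induction_on with
      | empty => rw [Finset.prod_empty]; exact one_mem_ball X _
      | insert i T hi ih =>
        rw [Finset.prod_insert hi, Finset.card_insert_of_notMem hi]
        have h2 : (((i : V) ^ c i : V) : G) ∈ ball X (L0 * R) := by
          have := hzpow ((i : V) : G) (c i) R (hc' i) (hL0 i)
          exact this
        have h3 := mul_mem_ball X _ _ _ _ h2 ih
        refine ball_mono X ?_ h3
        apply le_of_eq; ring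
    have h2 := h1 Finset.univ
    refine ball_mono X ?_ h2
    rw [Finset.card_univ, Fintype.card_coe]
    nlinarith
  -- upper sandwich
  let τ : G ⧸ V → G := Quotient.out
  have hτmk : ∀ q : G ⧸ V, (QuotientGroup.mk (τ q) : G ⧸ V) = q := fun q => QuotientGroup.out_eq' q
  have hτ1 : ∀ g : G, (τ (QuotientGroup.mk g))⁻¹ * g ∈ V := by
    intro g
    rw [← QuotientGroup.eq]
    exact hτmk _
  have hτ : ∀ g : G, g * (τ (QuotientGroup.mk g))⁻¹ ∈ V := fun g => hVn.mem_comm (hτ1 g)
  have hconj : ∀ (h : G) (α : G), α ∈ V →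
      h * α * h⁻¹ = τ (QuotientGroup.mk h) * α * (τ (QuotientGroup.mk h))⁻¹ := by
    intro h α hα
    set t := τ (QuotientGroup.mk h)
    have h1 := hc _ (hτ1 h) α hα
    have e : h = t * (t⁻¹ * h) := by group
    calc h * α * h⁻¹ = t * ((t⁻¹ * h) * α) * (t⁻¹ * h)⁻¹ * t⁻¹ := by group
      _ = t * (α * (t⁻¹ * h)) * (t⁻¹ * h)⁻¹ * t⁻¹ := by rw [h1]
      _ = t * α * t⁻¹ := by group
  have hfinq : Finite (G ⧸ V) := inferInstance
  have hfing := finite_gen X
  obtain ⟨K1, hK1⟩ : ∃ K1, ∀ q : G ⧸ V, ∃ w ∈ WW S K1,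
      (w : G) = τ q * (1 * (τ (QuotientGroup.mk 1))⁻¹) * (τ q)⁻¹ := by
    refine uniform (fun (q : G ⧸ V) K => ∃ w ∈ WW S K,
      (w : G) = τ q * (1 * (τ (QuotientGroup.mk 1))⁻¹) * (τ q)⁻¹) ?_ ?_
    · rintro q a b hab ⟨w, hw, hw'⟩
      exact ⟨w, WW_mono S hab hw, hw'⟩
    · intro q
      obtain ⟨R, hR⟩ := WW_exists S hS ⟨_, hVn.conj_mem _ (hτ 1) (τ q)⟩
      exact ⟨R, _, hR, rfl⟩
  obtain ⟨K2, hK2⟩ : ∃ K2, ∀ i : (G ⧸ V) × {x : G // x ∈ X ∨ x⁻¹ ∈ X} × (G ⧸ V), ∃ w ∈ WW S K2,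
      (w : G) = τ i.1 * ((i.2.1.1 * τ i.2.2) * (τ (QuotientGroup.mk (i.2.1.1 * τ i.2.2)))⁻¹) *
        (τ i.1)⁻¹ := by
    refine uniform (fun (i : (G ⧸ V) × {x : G // x ∈ X ∨ x⁻¹ ∈ X} × (G ⧸ V)) K => ∃ w ∈ WW S K,
      (w : G) = τ i.1 * ((i.2.1.1 * τ i.2.2) * (τ (QuotientGroup.mk (i.2.1.1 * τ i.2.2)))⁻¹) *
        (τ i.1)⁻¹) ?_ ?_
    · rintro q a b hab ⟨w, hw, hw'⟩
      exact ⟨w, WW_mono S hab hw, hw'⟩
    · intro i
      obtain ⟨R, hR⟩ := WW_exists S hS ⟨_, hVn.conj_mem _ (hτ (i.2.1.1 * τ i.2.2)) (τ i.1)⟩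
      exact ⟨R, _, hR, rfl⟩
  set K := K1 + K2 with hK
  have hup : ∀ n g, g ∈ ball X n → ∀ h : G, ∃ w ∈ WW S (K * (n + 1)),
      (w : G) = h * (g * (τ (QuotientGroup.mk g))⁻¹) * h⁻¹ := by
    refine ball_induction X _ ?_ ?_
    · intro n h
      obtain ⟨w, hw, hw'⟩ := hK1 (QuotientGroup.mk h)
      refine ⟨w, WW_mono S (by nlinarith) hw, ?_⟩
      rw [hw', hconj h _ (hτ 1)]
    · intro n x g hx ih h
      obtain ⟨w1, hw1, hw1'⟩ := ih (h * x)
      obtain ⟨w2, hw2, hw2'⟩ := hK2 (QuotientGroup.mk h, ⟨x, hx⟩, QuotientGroup.mk g)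
      simp only at hw2'
      rw [← hconj h _ (hτ _)] at hw2'
      have e : (QuotientGroup.mk (x * τ (QuotientGroup.mk g)) : G ⧸ V) =
          QuotientGroup.mk (x * g) := by
        rw [QuotientGroup.mk_mul, QuotientGroup.mk_mul, hτmk]
      rw [e] at hw2'
      refine ⟨w1 * w2, ?_, ?_⟩
      · have := WW_mul S _ _ _ _ hw1 hw2
        exact WW_mono S (by nlinarith) this
      · rw [Subgroup.coe_mul, hw1', hw2']
        group
  have hupc : ∀ n, β X n ≤ (WW S (K * (n + 1))).ncard * Nat.card (G ⧸ V) := by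
    intro n
    have hsub : ball X n ⊆ (fun p : V × (G ⧸ V) => (p.1 : G) * τ p.2) ''
        ((WW S (K * (n + 1))) ×ˢ (Set.univ : Set (G ⧸ V))) := by
      intro g hg
      obtain ⟨w, hw, hw'⟩ := hup n g hg 1
      refine ⟨(w, QuotientGroup.mk g), ⟨hw, Set.mem_univ _⟩, ?_⟩
      simp only [hw']
      group
    have hfin : ((WW S (K * (n + 1))) ×ˢ (Set.univ : Set (G ⧸ V))).Finite :=
      (WW_finite S _).prod Set.finite_univ
    calc β X n ≤ _ := Set.ncard_le_ncard hsub (hfin.image _)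
      _ ≤ _ := Set.ncard_image_le hfin
      _ = _ := by rw [Set.ncard_prod, Set.ncard_univ]
  have hlowc : ∀ R, (WW S R).ncard ≤ β X ((L0 * S.card + 1) * R) := by
    intro R
    have hsub : (fun w : V => (w : G)) '' (WW S R) ⊆ ball X ((L0 * S.card + 1) * R) := by
      rintro _ ⟨w, hw, rfl⟩
      exact hlow R w hw
    have h1 := Set.ncard_le_ncard hsub (ball_finite X _)
    rwa [Set.ncard_image_of_injective _ Subtype.val_injective] at h1
  set L := L0 * S.card + 1 with hL
  refine ⟨(2 * (10 * K * L) + 1) ^ S.card * Nat.card (G ⧸ V), L, fun r hr => ?_⟩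
  have hL1 : 1 ≤ L := by omega
  set R := r / L with hR
  have hR1 : 1 ≤ R := (Nat.one_le_div_iff (by omega)).2 hr
  have hRr : L * R ≤ r := Nat.mul_div_le r L
  have hrR : r < L * (R + 1) := Nat.lt_mul_div_succ r (by omega)
  have hle : K * (4 * r + 1) ≤ (10 * K * L) * R := by
    have h1 : 4 * r + 1 ≤ 10 * (L * R) := by nlinarith
    calc K * (4 * r + 1) ≤ K * (10 * (L * R)) := Nat.mul_le_mul_left _ h1
      _ = _ := by ring
  calc β X (4 * r) ≤ (WW S (K * (4 * r + 1))).ncard * Nat.card (G ⧸ V) := hupc _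
    _ ≤ (WW S ((10 * K * L) * R)).ncard * Nat.card (G ⧸ V) := by
        apply Nat.mul_le_mul_right
        exact Set.ncard_le_ncard (WW_mono S hle) (WW_finite S _)
    _ ≤ ((2 * (10 * K * L) + 1) ^ S.card * (WW S R).ncard) * Nat.card (G ⧸ V) :=
        Nat.mul_le_mul_right _ (WW_double S _ R hR1)
    _ ≤ ((2 * (10 * K * L) + 1) ^ S.card * β X (L * R)) * Nat.card (G ⧸ V) :=
        Nat.mul_le_mul_right _ (Nat.mul_le_mul_left _ (hlowc R))
    _ ≤ ((2 * (10 * K * L) + 1) ^ S.card * β X r) * Nat.card (G ⧸ V) :=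
        Nat.mul_le_mul_right _ (Nat.mul_le_mul_left _ (β_mono X hRr))
    _ = _ := by ring

end Doubling

end Pool.Agent.V1123.BallGrowth
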