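import Mathlib

/-!
A simple square-free sequence over four letters: paperfolding sequence together with parity.
-/

namespace Pool.Agent.V1123.SqFreeSeq

/-- The (regular) paperfolding sequence: `n = 2 ^ j * a`, `a` odd, is sent to `a % 4 = 1`. -/
def pf (n : ℕ) : Bool := decide ((n / 2 ^ (padicValNat 2 n)) % 4 = 1)

lemma pf_two_pow_mul (j a : ℕ) (ha : a % 2 = 1) : pf (2 ^ j * a) = decide (a % 4 = 1) := by
  have ha0 : a ≠ 0 := by rintro rfl; simp at ha
  have h1 : padicValNat 2 (2 ^ j * a) = j := by
    rw [padicValNat.mul (by positivity) ha0, padicValNat.prime_pow]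
    have : ¬ 2 ∣ a := by omega
    rw [padicValNat.eq_zero_of_not_dvd this]
    simp
  unfold pf
  rw [h1, Nat.mul_div_cancel_left _ (by positivity)]

/-- Paperfolding together with parity. -/
def xs (n : ℕ) : Bool × Bool := (pf n, decide (n % 2 = 1))

lemma xs_sqfree (s r : ℕ) (hr : 0 < r) : ∃ i < r, xs (s + i) ≠ xs (s + r + i) := by
  by_cases hpar : r % 2 = 1
  · refine ⟨0, hr, fun h => ?_⟩
    have h2 := congrArg Prod.snd h
    simp only [xs, add_zero, decide_eq_decide] at h2
    omega
  · obtain ⟨k, m, hm, hk⟩ := Nat.exists_eq_two_pow_mul_odd (n := r) (by omega)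
    have hm2 : m % 2 = 1 := Nat.odd_iff.mp hm
    obtain ⟨j, rfl⟩ : ∃ j, k = j + 1 := by
      rcases k with _ | j
      · simp only [pow_zero, one_mul] at hk
        omega
      · exact ⟨j, rfl⟩
    have hq : 0 < 2 ^ j := by positivity
    set q := 2 ^ j with hqdef
    have hk' : r = 2 * (q * m) := by rw [hk, pow_succ, ← hqdef]; ring
    -- choose `i` with `s + i ≡ q mod 2 q`
    set i := (q + (2 * q - s % (2 * q))) % (2 * q) with hi
    have hi2 : i < 2 * q := Nat.mod_lt _ (by omega)
    have hir : i < r := by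
      have : q ≤ q * m := Nat.le_mul_of_pos_right q (by omega)
      omega
    have hmod : (s + i) % (2 * q) = q := by
      have h0 : s % (2 * q) < 2 * q := Nat.mod_lt _ (by omega)
      rw [hi, Nat.add_mod, Nat.mod_mod, ← Nat.add_mod]
      have e : s + (q + (2 * q - s % (2 * q))) = q + 2 * q * (s / (2 * q) + 1) := by
        have := Nat.div_add_mod s (2 * q)
        rw [mul_add, mul_one]
        omega
      rw [e, Nat.add_mul_mod_self_left]
      exact Nat.mod_eq_of_lt (by omega)
    obtain ⟨t, ht⟩ : ∃ t, s + i = q * (2 * t + 1) := by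
      refine ⟨(s + i) / (2 * q), ?_⟩
      have := Nat.div_add_mod (s + i) (2 * q)
      rw [hmod] at this
      exact this.symm.trans (by ring)
    refine ⟨i, hir, fun h => ?_⟩
    have h1 := congrArg Prod.fst h
    simp only [xs] at h1
    have e1 : s + r + i = q * (2 * t + 1 + 2 * m) := by
      rw [hk', add_right_comm, ht]; ring
    rw [ht, e1, hqdef, pf_two_pow_mul _ _ (by omega), pf_two_pow_mul _ _ (by omega)] at h1
    simp only [decide_eq_decide] at h1
    omega

end Pool.Agent.V1123.SqFreeSeq
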