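import Mathlib
import Pool.Agent.V1123.SqFreeSeq

/-!
The periodic language used for MP_eff4ce_al.
-/

namespace Pool.Agent.V1123.GirthLang

open Pool.Agent.V1123.SqFreeSeq

/-- The alphabet: eight coloured letters with a bit, the marker `hash`, and two letters `p`, `q`. -/
inductive Lt
  | mk (c : Bool × Bool) (b : Bool)
  | hash
  | p
  | q
  deriving DecidableEq, Fintype

/-- Letters allowed at position `s` (positions are read modulo `M`). -/
def ok (M s : ℕ) : Lt → Prop
  | .hash => s % M = 0
  | .mk c _ => s % M ≠ 0 ∧ c = xs (s % M)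
  | .p => False
  | .q => False

/-- `R M s w`: the word `w` can be read from position `s`. -/
def R (M : ℕ) : ℕ → List Lt → Prop
  | _, [] => True
  | s, a :: w => ok M s a ∧ R M (s + 1) w

/-- legal words -/
def Leg (M : ℕ) (w : List Lt) : Prop := ∃ s, R M s w

variable {M : ℕ}

lemma ok_congr {s t : ℕ} (h : s % M = t % M) (a : Lt) : ok M s a ↔ ok M t a := by
  cases a <;> simp [ok, h]

lemma succ_mod_congr {s t : ℕ} (h : s % M = t % M) : (s + 1) % M = (t + 1) % M :=
  Nat.ModEq.add_right 1 h

lemma R_congr {s t : ℕ} (h : s % M = t % M) (w : List Lt) : R M s w ↔ R M t w := by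
  induction w generalizing s t with
  | nil => simp [R]
  | cons a w ih => simp only [R, ok_congr h a, ih (succ_mod_congr h)]

lemma R_append {s : ℕ} {u v : List Lt} : R M s (u ++ v) ↔ R M s u ∧ R M (s + u.length) v := by
  induction u generalizing s with
  | nil => simp [R]
  | cons a u ih =>
    simp only [List.cons_append, R, ih, List.length_cons]
    rw [show s + 1 + u.length = s + (u.length + 1) by omega]
    tauto

lemma leg_nil : Leg M [] := ⟨0, trivial⟩

lemma leg_left {u v : List Lt} (h : Leg M (u ++ v)) : Leg M u :=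
  let ⟨s, hs⟩ := h
  ⟨s, (R_append.1 hs).1⟩

lemma leg_right {u v : List Lt} (h : Leg M (u ++ v)) : Leg M v :=
  let ⟨s, hs⟩ := h
  ⟨s + u.length, (R_append.1 hs).2⟩

/-- `hash` occurs in a readable word only at multiples of `M`. -/
lemma sync {C : List Lt} (hC : Lt.hash ∈ C) {s t : ℕ} (hs : R M s C) (ht : R M t C) :
    s % M = t % M := by
  induction C generalizing s t with
  | nil => simp at hC
  | cons a C ih =>
    obtain ⟨h1, h2⟩ := hs
    obtain ⟨h3, h4⟩ := ht
    rcases List.mem_cons.1 hC with h | h
    · subst h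
      exact (h1 : s % M = 0).trans (h3 : t % M = 0).symm
    · exact Nat.ModEq.add_right_cancel' 1 (ih h h2 h4)

lemma R_get {s : ℕ} {w : List Lt} (h : R M s w) (i : ℕ) (hi : i < w.length) :
    ok M (s + i) w[i] := by
  induction w generalizing s i with
  | nil => simp at hi
  | cons a w ih =>
    rcases i with _ | i
    · exact h.1
    · have := ih h.2 i (by simpa using hi)
      rw [show s + 1 + i = s + (i + 1) by omega] at this
      simpa using this

/-- There is a multiple of `M` among `M` consecutive positions. -/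
lemma exists_mod_zero (hM : 0 < M) (s : ℕ) : ∃ i < M, (s + i) % M = 0 := by
  have h := Nat.mod_lt s hM
  rcases Nat.eq_zero_or_pos (s % M) with h0 | h0
  · exact ⟨0, hM, by simpa using h0⟩
  · refine ⟨M - s % M, by omega, ?_⟩
    have e : s + (M - s % M) = M * (s / M + 1) := by
      have := Nat.div_add_mod s M
      rw [mul_add, mul_one]
      omega
    rw [e, Nat.mul_mod_right]

lemma hash_of_mod {s i : ℕ} {w : List Lt} (h : R M s w) (hi : i < w.length)
    (h0 : (s + i) % M = 0) : w[i] = Lt.hash := by
  have := R_get h i hi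
  revert this
  cases w[i] <;> simp [ok, h0]

lemma hash_mem (hM : 0 < M) {s : ℕ} {w : List Lt} (h : R M s w) (hw : M ≤ w.length) :
    Lt.hash ∈ w := by
  obtain ⟨i, hi, h0⟩ := exists_mod_zero hM s
  have hi' : i < w.length := by omega
  rw [← hash_of_mod h hi' h0]
  exact List.getElem_mem hi'

lemma glue {u C v : List Lt} (hC : Lt.hash ∈ C) (h1 : Leg M (u ++ C)) (h2 : Leg M (C ++ v)) :
    Leg M (u ++ C ++ v) := by
  obtain ⟨s, hs⟩ := h1
  obtain ⟨t, ht⟩ := h2
  obtain ⟨hs1, hs2⟩ := R_append.1 hs
  obtain ⟨ht1, ht2⟩ := R_append.1 ht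
  have e := sync hC hs2 ht1
  refine ⟨s, ?_⟩
  rw [List.append_assoc, R_append, R_append]
  refine ⟨hs1, hs2, (R_congr ?_ v).2 ht2⟩
  exact Nat.ModEq.add_right _ e

lemma leg_self_append {w : List Lt} (h : Leg M w) (hd : M ∣ w.length) : Leg M (w ++ w) := by
  obtain ⟨s, hs⟩ := h
  refine ⟨s, R_append.2 ⟨hs, (R_congr ?_ w).1 hs⟩⟩
  obtain ⟨k, hk⟩ := hd
  rw [hk]
  simp

lemma dvd_of_leg_self (hM : 0 < M) {w : List Lt} (hw : M ≤ w.length) (h : Leg M (w ++ w)) :
    M ∣ w.length := by
  obtain ⟨s, hs⟩ := h
  obtain ⟨h1, h2⟩ := R_append.1 hs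
  have h3 : (s + w.length) % M = s % M := sync (hash_mem hM h1 hw) h2 h1
  have h4 : (s + w.length) ≡ s + 0 [MOD M] := h3
  exact (Nat.modEq_zero_iff_dvd.1 (Nat.ModEq.add_left_cancel' s h4))

/-- No short squares. -/
lemma no_sq {w : List Lt} (hw : w ≠ []) (hM : w.length < M) : ¬ Leg M (w ++ w) := by
  rintro ⟨s, hs⟩
  obtain ⟨h1, h2⟩ := R_append.1 hs
  have hr : 0 < w.length := List.length_pos_iff.2 hw
  set r := w.length with hrdef
  -- no multiple of `M` in the window
  have key : ∀ i < r, ¬ ((s + i) % M = 0) ∧ ¬ ((s + r + i) % M = 0) := by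
    intro i hi
    have hdvd : ∀ t, t % M = 0 → (t + r) % M = 0 → False := by
      intro t ht ht2
      have := (Nat.dvd_add_right (Nat.dvd_of_mod_eq_zero ht)).1 (Nat.dvd_of_mod_eq_zero ht2)
      exact absurd (Nat.le_of_dvd hr this) (by omega)
    constructor
    · intro h0
      have e := hash_of_mod h1 hi h0
      have := R_get h2 i hi
      rw [e] at this
      exact hdvd _ h0 (by rw [show s + i + r = s + r + i by omega]; exact this)
    · intro h0
      have e := hash_of_mod h2 hi h0
      have := R_get h1 i hi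
      rw [e] at this
      exact hdvd _ this (by rw [show s + i + r = s + r + i by omega]; exact h0)
  have hs0 : s % M ≠ 0 := (key 0 hr).1
  have hlt : s % M < M := Nat.mod_lt _ (by omega)
  have hbig : s % M + 2 * r ≤ M := by
    by_contra hcon
    have e : (s + (M - s % M)) % M = 0 := by
      have e : s + (M - s % M) = M * (s / M + 1) := by
        have := Nat.div_add_mod s M
        rw [mul_add, mul_one]
        omega
      rw [e, Nat.mul_mod_right]
    rcases Nat.lt_or_ge (M - s % M) r with h | h
    · exact (key _ h).1 e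
    · refine (key (M - s % M - r) (by omega)).2 ?_
      rw [show s + r + (M - s % M - r) = s + (M - s % M) by omega]
      exact e
  have hmod : ∀ i < 2 * r, (s + i) % M = s % M + i := by
    intro i hi
    rw [Nat.add_mod, Nat.mod_eq_of_lt (show i < M by omega), Nat.mod_eq_of_lt (by omega)]
  obtain ⟨i, hi, hne⟩ := xs_sqfree (s % M) r hr
  apply hne
  have a1 := R_get h1 i hi
  have a2 := R_get h2 i hi
  have k1 := (key i hi).1
  have k2 := (key i hi).2
  have m1 := hmod i (by omega)
  have m2 := hmod (r + i) (by omega)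
  rw [← add_assoc, ← add_assoc] at m2
  revert a1 a2
  cases w[i] with
  | mk c b =>
    intro a1 a2
    rw [← m1, ← m2]
    exact a1.2.symm.trans a2.2
  | hash => intro a1 _; exact absurd a1 k1
  | p => intro a1 _; exact a1.elim
  | q => intro a1 _; exact a1.elim

/-! ### Longest legal prefix -/

/-- For a set of words `L`: the longest prefix of `w` belonging to `L`, together with the next
letter (if any). -/
noncomputable def cut (L : List Lt → Prop) (w : List Lt) : List Lt × Option Lt := by
  classical exact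
    if h : ∃ (P : List Lt) (x : Lt) (z : List Lt), w = P ++ x :: z ∧ L P ∧ ¬ L (P ++ [x]) then
      (h.choose, some h.choose_spec.choose) else (w, none)

/-- The longest prefix in `L`. -/
noncomputable def c1 (L : List Lt → Prop) (w : List Lt) : List Lt := (cut L w).1

/-- Factorial languages. -/
structure Lang (L : List Lt → Prop) : Prop where
  nil : L []
  left : ∀ {u v}, L (u ++ v) → L u
  right : ∀ {u v}, L (u ++ v) → L v

section cut

variable {L : List Lt → Prop}

lemma cut_of (hL : Lang L) {w : List Lt} (h : L w) : cut L w = (w, none) := by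
  unfold cut
  rw [dif_neg]
  rintro ⟨P, x, z, rfl, -, h2⟩
  apply h2
  have e : P ++ x :: z = (P ++ [x]) ++ z := by simp
  rw [e] at h
  exact hL.left h

lemma dec_unique (hL : Lang L) {P x z P' x' z'} (h : P ++ x :: z = P' ++ x' :: z')
    (h1 : L P) (h2 : ¬ L (P ++ [x])) (h3 : L P') (h4 : ¬ L (P' ++ [x'])) : P = P' ∧ x = x' := by
  have aux : ∀ {P : List Lt} {x z P' x' z'}, P ++ x :: z = P' ++ x' :: z' → L P' →
      ¬ L (P ++ [x]) → ¬ P.length < P'.length := by
    intro P x z P' x' z' h h3 h2 hlt
    apply h2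
    have hp1 : (P ++ [x]) <+: (P ++ x :: z) := ⟨z, by simp⟩
    have hp2 : P' <+: (P ++ x :: z) := ⟨x' :: z', h.symm⟩
    obtain ⟨t, ht⟩ := List.prefix_of_prefix_length_le hp1 hp2 (by simpa using hlt)
    rw [← ht] at h3
    exact hL.left h3
  have hlen : P.length = P'.length := by
    have a := aux h h3 h2
    have b := aux h.symm h1 h4
    omega
  obtain ⟨e1, e2⟩ := List.append_inj h hlen
  exact ⟨e1, (List.cons.inj e2).1⟩

lemma cut_dec (hL : Lang L) {P : List Lt} {x : Lt} {z : List Lt} (h1 : L P)
    (h2 : ¬ L (P ++ [x])) : cut L (P ++ x :: z) = (P, some x) := by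
  have hex : ∃ (P' : List Lt) (x' : Lt) (z' : List Lt),
      P ++ x :: z = P' ++ x' :: z' ∧ L P' ∧ ¬ L (P' ++ [x']) := ⟨P, x, z, rfl, h1, h2⟩
  unfold cut
  rw [dif_pos hex]
  obtain ⟨z', e, h3, h4⟩ := hex.choose_spec.choose_spec
  obtain ⟨e1, e2⟩ := dec_unique hL e h1 h2 h3 h4
  exact Prod.ext e1.symm (congrArg some e2.symm)

lemma exists_dec (hL : Lang L) {w : List Lt} (h : ¬ L w) :
    ∃ (P : List Lt) (x : Lt) (z : List Lt), w = P ++ x :: z ∧ L P ∧ ¬ L (P ++ [x]) := by
  induction w using List.reverseRecOn with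
  | nil => exact absurd hL.nil h
  | append_singleton v a ih =>
    by_cases hv : L v
    · exact ⟨v, a, [], rfl, hv, h⟩
    · obtain ⟨P, x, z, rfl, h1, h2⟩ := ih hv
      exact ⟨P, x, z ++ [a], by simp, h1, h2⟩

/-- A non-`L` word behaves like a left zero for `cut`. -/
lemma cut_append (hL : Lang L) {w : List Lt} (h : ¬ L w) (v : List Lt) :
    cut L (w ++ v) = cut L w := by
  obtain ⟨P, x, z, rfl, h1, h2⟩ := exists_dec hL h
  rw [cut_dec hL h1 h2, List.append_assoc, List.cons_append, cut_dec hL h1 h2]

lemma c1_of (hL : Lang L) {w : List Lt} (h : L w) : c1 L w = w := by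
  unfold c1; rw [cut_of hL h]

lemma c1_mem (hL : Lang L) (w : List Lt) : L (c1 L w) := by
  by_cases h : L w
  · rw [c1_of hL h]; exact h
  · obtain ⟨P, x, z, rfl, h1, h2⟩ := exists_dec hL h
    unfold c1; rw [cut_dec hL h1 h2]; exact h1

lemma c1_prefix (hL : Lang L) (w : List Lt) : c1 L w <+: w := by
  by_cases h : L w
  · rw [c1_of hL h]
  · obtain ⟨P, x, z, rfl, h1, h2⟩ := exists_dec hL h
    unfold c1; rw [cut_dec hL h1 h2]; exact ⟨_, rfl⟩

lemma prefix_c1 (hL : Lang L) {u : List Lt} (hu : L u) (v : List Lt) : u <+: c1 L (u ++ v) := by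
  by_cases h : L (u ++ v)
  · rw [c1_of hL h]; exact ⟨v, rfl⟩
  · obtain ⟨P, x, z, e, h1, h2⟩ := exists_dec hL h
    rw [e]
    unfold c1
    rw [cut_dec hL h1 h2]
    have hp1 : u <+: (u ++ v) := ⟨v, rfl⟩
    have hp2 : (P ++ [x]) <+: (u ++ v) := ⟨z, by rw [e]; simp⟩
    have hp3 : P <+: (u ++ v) := ⟨x :: z, by rw [e]⟩
    rcases Nat.lt_or_ge P.length u.length with hlt | hge
    · exfalso
      apply h2
      obtain ⟨t, ht⟩ := List.prefix_of_prefix_length_le hp2 hp1 (by simpa using hlt)
      rw [← ht] at hu
      exact hL.left hu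
    · exact List.prefix_of_prefix_length_le hp1 hp3 hge

/-- `cut` of `a :: w` only depends on `a`, and `cut` of `w`. -/
lemma cut_cons (hL : Lang L) (a : Lt) {w : List Lt} {P : List Lt} {o : Option Lt}
    (h : cut L w = (P, o)) : L P ∧ (L (a :: P) → cut L (a :: w) = (a :: P, o)) ∧
      (¬ L (a :: P) → cut L (a :: w) = cut L (a :: P)) := by
  by_cases hw : L w
  · rw [cut_of hL hw] at h
    obtain ⟨rfl, rfl⟩ := Prod.mk.inj h
    exact ⟨hw, fun h2 => cut_of hL h2, fun _ => rfl⟩
  · obtain ⟨P', x, z, rfl, h1, h2⟩ := exists_dec hL hw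
    rw [cut_dec hL h1 h2] at h
    obtain ⟨rfl, rfl⟩ := Prod.mk.inj h
    refine ⟨h1, fun h3 => ?_, fun h3 => ?_⟩
    · have h4 : ¬ L ((a :: P') ++ [x]) := fun h5 =>
        h2 (hL.right (u := [a]) (v := P' ++ [x]) (by simpa using h5))
      exact cut_dec (z := z) hL h3 h4
    · have := cut_append hL h3 (x :: z)
      simpa using this

lemma c1_cons (hL : Lang L) (a : Lt) (w : List Lt) : c1 L (a :: w) = c1 L (a :: c1 L w) := by
  obtain ⟨h1, h2, h3⟩ := cut_cons hL a (w := w) (P := c1 L w) (o := (cut L w).2) rfl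
  by_cases h : L (a :: c1 L w)
  · rw [c1_of hL h]
    unfold c1
    unfold c1 at h2
    rw [h2 h]
  · unfold c1
    unfold c1 at h3
    rw [h3 h]

/-- Longest prefix after adding a letter, truncated at `M` letters. -/
lemma take_c1_cons (hL : Lang L)
    (hglue : ∀ {u C v : List Lt}, M ≤ C.length → L (u ++ C) → L (C ++ v) → L (u ++ C ++ v))
    {P P' : List Lt} (hP : L P) (hP' : L P') (h : P.take M = P'.take M) (a : Lt) :
    (c1 L (a :: P)).take M = (c1 L (a :: P')).take M := by
  rcases Nat.lt_or_ge P.length M with hlt | hge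
  · have e1 : P.take M = P := List.take_of_length_le hlt.le
    have e2 : (P'.take M).length < M := by rw [← h, e1]; exact hlt
    have e3 : P'.length < M := by
      rw [List.length_take] at e2
      omega
    rw [e1, List.take_of_length_le e3.le] at h
    rw [h]
  · have hge' : M ≤ P'.length := by
      have : (P'.take M).length = M := by rw [← h]; simp [hge]
      rw [List.length_take] at this
      omega
    have d1 := List.take_append_drop M P
    have d2 := List.take_append_drop M P'
    set F := P.take M with hF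
    have hFlen : F.length = M := by rw [hF, List.length_take]; omega
    by_cases hF2 : L (a :: F)
    · have g1 : L (a :: P) := by
        have := hglue (u := [a]) (C := F) (v := P.drop M) (by omega) (by simpa using hF2)
          (by rw [d1]; exact hP)
        rw [List.append_assoc, d1] at this
        simpa using this
      have g2 : L (a :: P') := by
        have := hglue (u := [a]) (C := F) (v := P'.drop M) (by omega) (by simpa using hF2)
          (by rw [h, d2]; exact hP')
        rw [List.append_assoc, h, d2] at this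
        simpa using this
      rw [c1_of hL g1, c1_of hL g2]
      rcases M with _ | M'
      · simp
      · rw [List.take_succ_cons, List.take_succ_cons]
        have := congrArg (List.take M') h
        rw [hF, List.take_take, List.take_take, Nat.min_eq_left (Nat.le_succ _)] at this
        rw [this]
    · have g1 : cut L (a :: P) = cut L (a :: F) := by
        rw [← cut_append hL hF2 (P.drop M)]
        rw [List.cons_append, d1]
      have g2 : cut L (a :: P') = cut L (a :: F) := by
        rw [← cut_append hL hF2 (P'.drop M)]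
        rw [List.cons_append, h, d2]
      unfold c1
      rw [g1, g2]

end cut

end Pool.Agent.V1123.GirthLang
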