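import Mathlib
import Pool.Agent.V1123.GirthLang

/-!
The congruence on words used for MP_eff4ce_al.
-/

namespace Pool.Agent.V1123.GirthSg

open Pool.Agent.V1123.SqFreeSeq Pool.Agent.V1123.GirthLang

/-- Left information of a word. -/
inductive LI (Z : Type)
  | leg (F : List Lt)
  | oo (F : List Lt)
  | qq (F : List Lt)
  | p0 (z : Z)
  | p1 (F : List Lt)

/-- Types of exits. -/
inductive Ty
  | o
  | q
  | p

/-- Type of a letter. -/
def ty : Lt → Ty
  | .hash => .o
  | .mk _ _ => .o
  | .q => .q
  | .p => .p

variable {Z : Type} (M : ℕ) (φ : List Lt → Z)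

/-- Information retained from a (truncated) legal prefix `F` left by an exit of type `t`. -/
def exF : Ty → List Lt → LI Z
  | .o, F => .oo F
  | .q, F => .qq (if F.head? = some .hash then F.take (M - 1) else F)
  | .p, F => if F.head? = some .hash then .p0 (φ F) else .p1 (F.take (F.idxOf .hash + 1))

/-- Information retained from a legal prefix `P` left by an exit of type `t`. -/
def ex (t : Ty) (P : List Lt) : LI Z := exF M φ t (P.take M)

/-- left information -/
noncomputable def linf (w : List Lt) : LI Z :=
  match cut (Leg M) w with
  | (P, none) => .leg (P.take M)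
  | (P, some x) => ex M φ (ty x) P

/-- reversed language -/
def LegR (w : List Lt) : Prop := Leg M w.reverse

/-- right information -/
noncomputable def rinf (w : List Lt) : List Lt := (c1 (LegR M) w.reverse).take M

/-- full information -/
noncomputable def inv (w : List Lt) : LI Z × List Lt := (linf M φ w, rinf M w)

lemma langLeg : Lang (Leg M) := ⟨leg_nil, leg_left, leg_right⟩

lemma langLegR : Lang (LegR M) := by
  refine ⟨leg_nil, fun {u v} h => ?_, fun {u v} h => ?_⟩
  · unfold LegR at h ⊢
    rw [List.reverse_append] at h
    exact leg_right h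
  · unfold LegR at h ⊢
    rw [List.reverse_append] at h
    exact leg_left h

variable {M} {φ}

lemma legR_reverse {w : List Lt} : LegR M w.reverse ↔ Leg M w := by
  unfold LegR; rw [List.reverse_reverse]

lemma ex_ty {t t' : Ty} {P P' : List Lt} (h : ex M φ t P = ex M φ t' P') : t = t' := by
  cases t <;> cases t' <;> first | rfl | (exfalso; revert h; simp only [ex, exF]; split_ifs <;> simp)

lemma linf_of_leg {w : List Lt} (h : Leg M w) : linf M φ w = .leg (w.take M) := by
  unfold linf
  rw [cut_of (langLeg M) h]

lemma linf_dec {P : List Lt} {x : Lt} {z : List Lt} (h1 : Leg M P) (h2 : ¬ Leg M (P ++ [x])) :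
    linf M φ (P ++ x :: z) = ex M φ (ty x) P := by
  unfold linf
  rw [cut_dec (langLeg M) h1 h2]

lemma linf_append {w : List Lt} (h : ¬ Leg M w) (v : List Lt) :
    linf M φ (w ++ v) = linf M φ w := by
  unfold linf
  rw [cut_append (langLeg M) h]

lemma linf_cut {w w' : List Lt} (h : cut (Leg M) w = cut (Leg M) w') :
    linf M φ w = linf M φ w' := by
  unfold linf
  rw [h]

lemma rinf_append {w : List Lt} (h : ¬ Leg M w) (v : List Lt) : rinf M (v ++ w) = rinf M w := by
  unfold rinf c1
  rw [List.reverse_append, cut_append (langLegR M) (by rwa [legR_reverse])]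

lemma rinf_of_leg {w : List Lt} (h : Leg M w) : rinf M w = w.reverse.take M := by
  unfold rinf
  rw [c1_of (langLegR M) (by rwa [legR_reverse])]

/-- A common prefix from equality of truncations. -/
lemma common_take (hM : 0 < M) {P P' : List Lt} (hP : Leg M P) (h : P.take M = P'.take M) :
    ∃ C v v', P = C ++ v ∧ P' = C ++ v' ∧ (Lt.hash ∈ C ∨ (v = [] ∧ v' = [])) := by
  refine ⟨P.take M, P.drop M, P'.drop M, (List.take_append_drop M P).symm,
    by rw [h]; exact (List.take_append_drop M P').symm, ?_⟩
  rcases Nat.lt_or_ge P.length M with hlt | hge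
  · right
    have e1 : P.take M = P := List.take_of_length_le hlt.le
    have e2 : (P'.take M).length < M := by rw [← h, e1]; exact hlt
    rw [List.length_take] at e2
    exact ⟨List.drop_eq_nil_of_le hlt.le, List.drop_eq_nil_of_le (by omega)⟩
  · left
    obtain ⟨s, hs⟩ := hP
    rw [← List.take_append_drop M P] at hs
    exact hash_mem hM (R_append.1 hs).1 (by rw [List.length_take]; omega)

lemma take_cons_congr {P P' : List Lt} (h : P.take M = P'.take M) (a : Lt) :
    (a :: P).take M = (a :: P').take M := by
  rcases M with _ | M'
  · simp
  · rw [List.take_succ_cons, List.take_succ_cons]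
    have := congrArg (List.take M') h
    rw [List.take_take, List.take_take, Nat.min_eq_left (Nat.le_succ _)] at this
    rw [this]

lemma head_take (hM : 0 < M) (P : List Lt) : (P.take M).head? = P.head? := by
  rcases M with _ | M'
  · omega
  · cases P <;> simp

/-- A common prefix from equality of information. -/
lemma common (hM : 2 ≤ M) {t : Ty} {P P' : List Lt} (hP : Leg M P)
    (h : ex M φ t P = ex M φ t P') :
    ∃ C v v', P = C ++ v ∧ P' = C ++ v' ∧ (Lt.hash ∈ C ∨ (v = [] ∧ v' = [])) := by
  cases t with
  | o =>
    simp only [ex, exF, LI.oo.injEq] at h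
    exact common_take (by omega) hP h
  | q =>
    simp only [ex, exF, LI.qq.injEq] at h
    have hd1 := head_take (M := M) (by omega) P
    have hd2 := head_take (M := M) (by omega) P'
    obtain ⟨m, rfl⟩ : ∃ m, M = m + 2 := ⟨M - 2, by omega⟩
    simp only [Nat.add_succ_sub_one] at h
    rw [hd1, hd2, List.take_take, List.take_take, Nat.min_eq_left (by omega)] at h
    split_ifs at h with h1 h2 h2
    · refine ⟨P.take (m + 1), P.drop (m + 1), P'.drop (m + 1), (List.take_append_drop _ P).symm,
        by rw [h]; exact (List.take_append_drop _ P').symm, Or.inl ?_⟩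
      cases P with
      | nil => simp at h1
      | cons a P => simp at h1; subst h1; simp
    · exfalso
      apply h2
      rw [← hd2, ← h]
      cases P with
      | nil => simp at h1
      | cons a P => simp at h1; subst h1; simp
    · exfalso
      apply h1
      rw [← hd1, h]
      cases P' with
      | nil => simp at h2
      | cons a P => simp at h2; subst h2; simp
    · exact common_take (by omega) hP h
  | p =>
    simp only [ex, exF] at h
    have hd1 := head_take (M := M) (by omega) P
    have hd2 := head_take (M := M) (by omega) P'
    rw [hd1, hd2] at h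
    split_ifs at h with h1 h2 h2
    · cases P with
      | nil => simp at h1
      | cons a P =>
        cases P' with
        | nil => simp at h2
        | cons b P' =>
          simp at h1 h2
          subst h1 h2
          exact ⟨[.hash], P, P', rfl, rfl, Or.inl (by simp)⟩
    · simp only [LI.p1.injEq] at h
      by_cases hm : Lt.hash ∈ P.take M
      · refine ⟨(P.take M).take ((P.take M).idxOf .hash + 1),
          ((P.take M).drop ((P.take M).idxOf .hash + 1)) ++ P.drop M,
          ((P'.take M).drop ((P'.take M).idxOf .hash + 1)) ++ P'.drop M, ?_, ?_, Or.inl ?_⟩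
        · rw [← List.append_assoc, List.take_append_drop, List.take_append_drop]
        · rw [h, ← List.append_assoc, List.take_append_drop, List.take_append_drop]
        · have hlt := List.idxOf_lt_length_iff.2 hm
          have : ((P.take M)[(P.take M).idxOf .hash]) = Lt.hash := List.getElem_idxOf hlt
          rw [List.mem_take_iff_getElem]
          exact ⟨_, by omega, this⟩
      · have e1 : (P.take M).take ((P.take M).idxOf .hash + 1) = P.take M := by
          rw [List.idxOf_eq_length hm]
          exact List.take_of_length_le (by omega)
        have hm' : Lt.hash ∉ P'.take M := by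
          intro hm'
          apply hm
          rw [← e1, h, List.mem_take_iff_getElem]
          have hlt := List.idxOf_lt_length_iff.2 hm'
          exact ⟨_, by omega, List.getElem_idxOf hlt⟩
        have e2 : (P'.take M).take ((P'.take M).idxOf .hash + 1) = P'.take M := by
          rw [List.idxOf_eq_length hm']
          exact List.take_of_length_le (by omega)
        rw [e1, e2] at h
        exact common_take (by omega) hP h

/-- Two markers at distance `M`. -/
lemma hash_dist (hM : 0 < M) {y z : List Lt} (h : Leg M (Lt.hash :: y ++ Lt.hash :: z))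
    (hy : Lt.hash ∉ y) : y.length + 1 = M := by
  obtain ⟨s, hs⟩ := h
  have h1 := R_append.1 hs
  have h0 : s % M = 0 := h1.1.1
  have h2 : (s + (y.length + 1)) % M = 0 := by simpa [R, ok] using h1.2.1
  have h3 : R M (s + 1) y := h1.1.2
  have h4 : y.length < M := by
    by_contra hcon
    exact hy (hash_mem hM h3 (by omega))
  have h5 : M ∣ y.length + 1 :=
    (Nat.dvd_add_right (Nat.dvd_of_mod_eq_zero h0)).1 (Nat.dvd_of_mod_eq_zero h2)
  have := Nat.le_of_dvd (by omega) h5
  omega

lemma not_hash_hash (hM : 2 ≤ M) {z : List Lt} : ¬ Leg M (Lt.hash :: Lt.hash :: z) := by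
  intro h
  have := hash_dist (M := M) (y := []) (z := z) (by omega) (by simpa using h) (by simp)
  simp at this
  omega

lemma ex_step (hM : 2 ≤ M) {t : Ty} {P P' : List Lt} (h : ex M φ t P = ex M φ t P') {a : Lt}
    (ha : Leg M (a :: P)) (ha' : Leg M (a :: P')) : ex M φ t (a :: P) = ex M φ t (a :: P') := by
  have hP : Leg M P := leg_right (u := [a]) (by simpa using ha)
  cases t with
  | o =>
    simp only [ex, exF, LI.oo.injEq] at h ⊢
    exact take_cons_congr h a
  | q =>
    obtain ⟨m, rfl⟩ : ∃ m, M = m + 2 := ⟨M - 2, by omega⟩
    simp only [ex, exF, LI.qq.injEq] at h ⊢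
    rw [head_take (by omega), head_take (by omega)] at h ⊢
    simp only [Nat.add_succ_sub_one, List.head?_cons, Option.some.injEq] at h ⊢
    rw [List.take_take, List.take_take, Nat.min_eq_left (by omega)] at h ⊢
    by_cases h1 : P.head? = some .hash
    · obtain ⟨P2, rfl⟩ : ∃ P2, P = Lt.hash :: P2 := by
        cases P with
        | nil => simp at h1
        | cons b P => simp at h1; exact ⟨P, by rw [h1]⟩
      have h2 : P'.head? = some .hash := by
        by_contra h2
        rw [if_pos h1, if_neg h2] at h
        apply h2
        rw [← head_take (M := m + 2) (by omega), ← h]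
        simp
      obtain ⟨P2', rfl⟩ : ∃ P2, P' = Lt.hash :: P2 := by
        cases P' with
        | nil => simp at h2
        | cons b P => simp at h2; exact ⟨P, by rw [h2]⟩
      rw [if_pos h1, if_pos h2] at h
      have hne : a ≠ .hash := by
        rintro rfl
        exact not_hash_hash hM ha
      rw [if_neg hne, if_neg hne]
      rw [List.take_succ_cons (a := a), List.take_succ_cons (a := a), h]
    · have h2 : ¬ P'.head? = some .hash := by
        intro h2
        rw [if_neg h1, if_pos h2] at h
        apply h1
        rw [← head_take (M := m + 2) (by omega), h]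
        cases P' with
        | nil => simp at h2
        | cons b P => simpa using h2
      rw [if_neg h1, if_neg h2] at h
      have h3 := congrArg (List.take (m + 1)) h
      rw [List.take_take, List.take_take, Nat.min_eq_left (by omega)] at h3
      have h4 := congrArg (List.take m) h
      rw [List.take_take, List.take_take, Nat.min_eq_left (by omega)] at h4
      by_cases hne : a = .hash
      · rw [if_pos hne, if_pos hne]
        rw [List.take_succ_cons, List.take_succ_cons, h4]
      · rw [if_neg hne, if_neg hne]
        rw [List.take_succ_cons, List.take_succ_cons, h3]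
  | p =>
    have hc := common hM hP h
    simp only [ex, exF] at h ⊢
    rw [head_take (by omega), head_take (by omega)] at h ⊢
    simp only [List.head?_cons, Option.some.injEq] at ⊢
    by_cases h1 : P.head? = some .hash
    · have h2 : P'.head? = some .hash := by
        by_contra h2
        rw [if_pos h1, if_neg h2] at h
        simp at h
      obtain ⟨P2, rfl⟩ : ∃ P2, P = Lt.hash :: P2 := by
        cases P with
        | nil => simp at h1
        | cons b P => simp at h1; exact ⟨P, by rw [h1]⟩
      obtain ⟨P2', rfl⟩ : ∃ P2, P' = Lt.hash :: P2 := by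
        cases P' with
        | nil => simp at h2
        | cons b P => simp at h2; exact ⟨P, by rw [h2]⟩
      have hne : a ≠ .hash := by
        rintro rfl
        exact not_hash_hash hM ha
      obtain ⟨m, rfl⟩ : ∃ m, M = m + 2 := ⟨M - 2, by omega⟩
      rw [if_neg hne, if_neg hne]
      simp only [List.take_succ_cons, LI.p1.injEq]
      have e1 : ∀ l : List Lt, (a :: Lt.hash :: l).idxOf Lt.hash = 1 := by
        intro l
        rw [List.idxOf_cons_ne _ hne]
        simp
      rw [e1, e1]
      simp
    · have h2 : ¬ P'.head? = some .hash := by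
        intro h2
        rw [if_neg h1, if_pos h2] at h
        simp at h
      rw [if_neg h1, if_neg h2] at h
      simp only [LI.p1.injEq] at h
      obtain ⟨C, v, v', hv, hv', hC⟩ := hc
      rcases hC with hC | ⟨rfl, rfl⟩
      · -- `C = y ++ hash :: y2` with `hash ∉ y`
        obtain ⟨y, y2, hy, hCy⟩ : ∃ y y2, Lt.hash ∉ y ∧ C = y ++ Lt.hash :: y2 := by
          obtain ⟨y, y2, e, hy⟩ := List.eq_append_cons_of_mem hC
          exact ⟨y, y2, hy, e⟩
        rw [hCy] at hv hv'
        by_cases hne : a = .hash
        · rw [if_pos hne, if_pos hne]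
          subst hne
          congr 2
          have hlen : y.length + 1 = M := by
            refine hash_dist (y := y) (z := y2 ++ v) (by omega) ?_ hy
            rw [hv] at ha
            simpa using ha
          rw [hv, hv', ← hlen]
          simp
        · rw [if_neg hne, if_neg hne]
          rw [LI.p1.injEq]
          have hlen : y.length + 1 < M := by
            by_contra hcon
            obtain ⟨s, hs⟩ := ha
            have e : a :: P = (a :: y) ++ (Lt.hash :: (y2 ++ v)) := by rw [hv]; simp
            rw [e] at hs
            have := hash_mem (by omega) (R_append.1 hs).1 (by simp; omega)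
            rcases List.mem_cons.1 this with h5 | h5
            · exact hne h5.symm
            · exact hy h5
          have key : ∀ v0 : List Lt, ∀ Q, Q = y ++ Lt.hash :: y2 ++ v0 →
              ((a :: Q).take M).take (((a :: Q).take M).idxOf .hash + 1) =
                a :: y ++ [Lt.hash] := by
            intro v0 Q hQ
            have e : (a :: Q).take M = (a :: y) ++ Lt.hash :: (y2 ++ v0).take (M - (y.length + 2)) := by
              rw [hQ]
              have : a :: (y ++ Lt.hash :: y2 ++ v0) = (a :: y ++ [Lt.hash]) ++ (y2 ++ v0) := by simp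
              rw [this, List.take_append]
              rw [List.take_of_length_le (by simp; omega)]
              simp
            have hny : Lt.hash ∉ a :: y := by
              intro h5
              rcases List.mem_cons.1 h5 with h5 | h5
              · exact hne h5.symm
              · exact hy h5
            rw [e, List.idxOf_append_of_notMem hny]
            simp [List.take_append, List.take_of_length_le]
          rw [key v P hv, key v' P' hv']
      · rw [List.append_nil] at hv hv'
        rw [hv, hv']

/-- Legality after adding a letter, in terms of a common prefix. -/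
lemma leg_cons_iff {C v : List Lt} {a : Lt} (hC : Lt.hash ∈ C ∨ v = []) (h : Leg M (C ++ v)) :
    Leg M (a :: (C ++ v)) ↔ Leg M (a :: C) := by
  constructor
  · intro h1
    exact leg_left (u := a :: C) (v := v) (by simpa using h1)
  · intro h1
    rcases hC with hC | rfl
    · simpa using glue (u := [a]) hC (by simpa using h1) h
    · simpa using h1

lemma ex_cons (hM : 2 ≤ M) {t : Ty} {P P' : List Lt} (hP : Leg M P) (hP' : Leg M P')
    (h : ex M φ t P = ex M φ t P') (a : Lt) :
    (Leg M (a :: P) ∧ Leg M (a :: P') ∧ ex M φ t (a :: P) = ex M φ t (a :: P')) ∨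
    (¬ Leg M (a :: P) ∧ ¬ Leg M (a :: P') ∧ cut (Leg M) (a :: P) = cut (Leg M) (a :: P')) := by
  obtain ⟨C, v, v', rfl, rfl, hC⟩ := common hM hP h
  have i1 := leg_cons_iff (a := a) (hC.imp_right And.left) hP
  have i2 := leg_cons_iff (a := a) (hC.imp_right And.right) hP'
  by_cases hc : Leg M (a :: C)
  · left
    exact ⟨i1.2 hc, i2.2 hc, ex_step hM h (i1.2 hc) (i2.2 hc)⟩
  · right
    refine ⟨fun h => hc (i1.1 h), fun h => hc (i2.1 h), ?_⟩
    rw [← List.cons_append, ← List.cons_append, cut_append (langLeg M) hc,
      cut_append (langLeg M) hc]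

lemma eq_of_take {w w' : List Lt} (h : w.take M = w'.take M) (hw : w.length < M) : w = w' := by
  have e1 : w.take M = w := List.take_of_length_le hw.le
  have e2 : (w'.take M).length < M := by rw [← h, e1]; exact hw
  rw [List.length_take] at e2
  rw [e1, List.take_of_length_le (by omega)] at h
  exact h

lemma length_of_take {w w' : List Lt} (h : w.take M = w'.take M) (hw : M ≤ w.length) :
    M ≤ w'.length := by
  have := congrArg List.length h
  rw [List.length_take, List.length_take] at this
  omega

/-- Equality of left informations: both legal or both illegal. -/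
lemma linf_eq_cases {w w' : List Lt} (h : linf M φ w = linf M φ w') :
    (Leg M w ∧ Leg M w' ∧ w.take M = w'.take M) ∨
    (¬ Leg M w ∧ ¬ Leg M w' ∧ ∃ P x z P' x' z', w = P ++ x :: z ∧ w' = P' ++ x' :: z' ∧
      Leg M P ∧ ¬ Leg M (P ++ [x]) ∧ Leg M P' ∧ ¬ Leg M (P' ++ [x']) ∧ ty x = ty x' ∧
      ex M φ (ty x) P = ex M φ (ty x) P') := by
  have hne : ∀ t P F, ex M φ t P ≠ .leg F := by
    intro t P F
    cases t <;> simp only [ex, exF] <;> (try split_ifs) <;> simp
  by_cases hw : Leg M w
  · by_cases hw' : Leg M w'
    · left
      rw [linf_of_leg hw, linf_of_leg hw'] at h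
      exact ⟨hw, hw', LI.leg.inj h⟩
    · exfalso
      obtain ⟨P, x, z, rfl, h1, h2⟩ := exists_dec (langLeg M) hw'
      rw [linf_of_leg hw, linf_dec h1 h2] at h
      exact hne _ _ _ h.symm
  · by_cases hw' : Leg M w'
    · exfalso
      obtain ⟨P, x, z, rfl, h1, h2⟩ := exists_dec (langLeg M) hw
      rw [linf_of_leg hw', linf_dec h1 h2] at h
      exact hne _ _ _ h
    · right
      refine ⟨hw, hw', ?_⟩
      obtain ⟨P, x, z, rfl, h1, h2⟩ := exists_dec (langLeg M) hw
      obtain ⟨P', x', z', rfl, h1', h2'⟩ := exists_dec (langLeg M) hw'
      rw [linf_dec h1 h2, linf_dec h1' h2'] at h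
      have ht := ex_ty h
      rw [← ht] at h
      exact ⟨P, x, z, P', x', z', rfl, rfl, h1, h2, h1', h2', ht, h⟩

lemma linf_cons_of {P : List Lt} {x : Lt} {z : List Lt} {a : Lt} (h2 : ¬ Leg M (P ++ [x]))
    (h : Leg M (a :: P)) : linf M φ (a :: (P ++ x :: z)) = ex M φ (ty x) (a :: P) := by
  rw [← List.cons_append]
  exact linf_dec h (fun h3 => h2 (leg_right (u := [a]) (by simpa using h3)))

lemma linf_cons_not {P v : List Lt} {a : Lt} (h : ¬ Leg M (a :: P)) :
    linf M φ (a :: (P ++ v)) = linf M φ (a :: P) := by
  rw [← List.cons_append]
  exact linf_append h _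

/-- Left multiplication is compatible with the information. -/
lemma inv_cons (hM : 2 ≤ M) {w w' : List Lt} (h : inv M φ w = inv M φ w') (a : Lt) :
    inv M φ (a :: w) = inv M φ (a :: w') := by
  obtain ⟨h1, h2⟩ := Prod.mk.inj h
  rcases linf_eq_cases h1 with ⟨hw, hw', ht⟩ | ⟨hw, hw', P, x, z, P', x', z', rfl, rfl, b1, b2,
    b3, b4, b5, b6⟩
  · rcases Nat.lt_or_ge w.length M with hlt | hge
    · rw [eq_of_take ht hlt]
    · have hge' := length_of_take ht hge
      refine Prod.ext ?_ ?_
      · have hex : ex M φ .o w = ex M φ .o w' := by simp only [ex, exF, ht]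
        change linf M φ (a :: w) = linf M φ (a :: w')
        rcases ex_cons hM hw hw' hex a with ⟨c1, c2, c3⟩ | ⟨c1, c2, c3⟩
        · rw [linf_of_leg c1, linf_of_leg c2]
          simp only [ex, exF, LI.oo.injEq] at c3
          rw [c3]
        · exact linf_cut c3
      · change rinf M (a :: w) = rinf M (a :: w')
        have key : ∀ w, Leg M w → M ≤ w.length → rinf M (a :: w) = rinf M w := by
          intro w hw hge
          rw [rinf_of_leg hw]
          unfold rinf
          rw [List.reverse_cons]
          obtain ⟨t, ht⟩ := prefix_c1 (langLegR M) (legR_reverse.2 hw) [a]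
          rw [← ht, List.take_append_of_le_length (by simpa using hge)]
        rw [key w hw hge, key w' hw' hge']
        exact h2
  · refine Prod.ext ?_ ?_
    · change linf M φ _ = linf M φ _
      rcases ex_cons hM b1 b3 b6 a with ⟨c1, c2, c3⟩ | ⟨c1, c2, c3⟩
      · rw [linf_cons_of b2 c1, linf_cons_of b4 c2, c3, b5]
      · rw [linf_cons_not c1, linf_cons_not c2]
        exact linf_cut c3
    · change rinf M _ = rinf M _
      have e1 := rinf_append (M := M) hw [a]
      have e2 := rinf_append (M := M) hw' [a]
      rw [List.singleton_append] at e1 e2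
      rw [e1, e2]
      exact h2

/-- Right multiplication is compatible with the information. -/
lemma inv_snoc (hM : 2 ≤ M) {w w' : List Lt} (h : inv M φ w = inv M φ w') (b : Lt) :
    inv M φ (w ++ [b]) = inv M φ (w' ++ [b]) := by
  obtain ⟨h1, h2⟩ := Prod.mk.inj h
  have hr : rinf M (w ++ [b]) = rinf M (w' ++ [b]) := by
    unfold rinf
    rw [List.reverse_append, List.reverse_append]
    simp only [List.reverse_cons, List.reverse_nil, List.nil_append, List.singleton_append]
    rw [c1_cons (langLegR M) b w.reverse, c1_cons (langLegR M) b w'.reverse]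
    refine take_c1_cons (langLegR M) ?_ (c1_mem (langLegR M) _) (c1_mem (langLegR M) _) h2 b
    intro u C v hC g1 g2
    unfold LegR at g1 g2 ⊢
    rw [List.reverse_append] at g1 g2 ⊢
    rw [List.reverse_append]
    have hh : Lt.hash ∈ C.reverse := by
      obtain ⟨s, hs⟩ := leg_left g1
      exact hash_mem (by omega) hs (by simpa using hC)
    have := glue hh g2 g1
    rwa [List.append_assoc] at this
  rcases linf_eq_cases h1 with ⟨hw, hw', ht⟩ | ⟨hw, hw', -⟩
  · rcases Nat.lt_or_ge w.length M with hlt | hge
    · rw [eq_of_take ht hlt]
    · have hge' := length_of_take ht hge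
      refine Prod.ext ?_ hr
      change linf M φ _ = linf M φ _
      -- legality of `w ++ [b]` only depends on the last `M` letters
      have h3 : w.reverse.take M = w'.reverse.take M := by
        rw [← rinf_of_leg hw, ← rinf_of_leg hw']
        exact h2
      have aux : ∀ w w' : List Lt, Leg M w → Leg M w' → M ≤ w.length →
          w.reverse.take M = w'.reverse.take M → Leg M (w ++ [b]) → Leg M (w' ++ [b]) := by
        intro w w' hw hw' hge h3 h4
        have e1 : w = (w.reverse.drop M).reverse ++ (w.reverse.take M).reverse := by
          rw [← List.reverse_append, List.take_append_drop, List.reverse_reverse]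
        have e2 : w' = (w'.reverse.drop M).reverse ++ (w'.reverse.take M).reverse := by
          rw [← List.reverse_append, List.take_append_drop, List.reverse_reverse]
        rw [← h3] at e2
        rw [e1, List.append_assoc] at h4
        have h5 := leg_right h4
        have hh : Lt.hash ∈ (w.reverse.take M).reverse := by
          obtain ⟨s, hs⟩ := leg_left h5
          exact hash_mem (by omega) hs (by simp; omega)
        have := glue hh (by rw [← e2]; exact hw') h5
        rwa [← e2] at this
      by_cases h4 : Leg M (w ++ [b])
      · have h5 := aux w w' hw hw' hge h3 h4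
        rw [linf_of_leg h4, linf_of_leg h5, List.take_append_of_le_length hge,
          List.take_append_of_le_length hge', ht]
      · have h5 : ¬ Leg M (w' ++ [b]) := fun h5 => h4 (aux w' w hw' hw hge' h3.symm h5)
        rw [linf_dec hw h4, linf_dec hw' h5]
        simp only [ex, ht]
  · refine Prod.ext ?_ hr
    change linf M φ _ = linf M φ _
    rw [linf_append hw, linf_append hw', h1]

lemma inv_append (hM : 2 ≤ M) {w w' v v' : List Lt} (h : inv M φ w = inv M φ w')
    (h' : inv M φ v = inv M φ v') : inv M φ (w ++ v) = inv M φ (w' ++ v') := by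
  have e1 : inv M φ (w ++ v) = inv M φ (w ++ v') := by
    clear h
    induction w with
    | nil => exact h'
    | cons a w ih => exact inv_cons hM ih a
  have e2 : inv M φ (w ++ v') = inv M φ (w' ++ v') := by
    clear h' e1 v
    induction v' using List.reverseRecOn with
    | nil => simpa using h
    | append_singleton v a ih =>
      rw [← List.append_assoc, ← List.append_assoc]
      exact inv_snoc hM ih a
  exact e1.trans e2

end Pool.Agent.V1123.GirthSg
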