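import Mathlib
import Pool.Agent.V1123.GirthSg

/-!
Commutation in the semigroup used for MP_eff4ce_al.
-/

namespace Pool.Agent.V1123.GirthComm

open Pool.Agent.V1123.SqFreeSeq Pool.Agent.V1123.GirthLang Pool.Agent.V1123.GirthSg

variable {Z : Type} {M : ℕ} {φ : List Lt → Z}

lemma ok_ty {s : ℕ} {a : Lt} (h : ok M s a) : ty a = .o := by
  cases a <;> simp_all [ok, ty]

lemma R_ty {s : ℕ} {w : List Lt} (h : R M s w) : ∀ a ∈ w, ty a = .o := by
  induction w generalizing s with
  | nil => simp
  | cons b w ih =>
    intro a ha
    rcases List.mem_cons.1 ha with rfl | ha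
    · exact ok_ty h.1
    · exact ih h.2 a ha

lemma leg_ty {w : List Lt} (h : Leg M w) : ∀ a ∈ w, ty a = .o := by
  obtain ⟨s, hs⟩ := h
  exact R_ty hs

/-- equality of left informations gives equality of truncated legal prefixes. -/
lemma take_c1_of_linf {w w' : List Lt} (h : linf M φ w = linf M φ w')
    (ho : ∀ a ∈ w, ty a = .o) : (c1 (Leg M) w).take M = (c1 (Leg M) w').take M := by
  rcases linf_eq_cases h with ⟨hw, hw', ht⟩ | ⟨hw, hw', P, x, z, P', x', z', rfl, rfl, b1, b2,
    b3, b4, b5, b6⟩
  · rw [c1_of (langLeg M) hw, c1_of (langLeg M) hw', ht]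
  · unfold c1
    rw [cut_dec (langLeg M) b1 b2, cut_dec (langLeg M) b3 b4]
    rw [ho x (by simp)] at b6
    simpa only [ex, exF, LI.oo.injEq] using b6

lemma take_prefix {l₁ l₂ : List Lt} (h : l₁ <+: l₂) {n : ℕ} (hn : n ≤ l₁.length) :
    l₂.take n = l₁.take n := by
  obtain ⟨t, rfl⟩ := h
  exact List.take_append_of_le_length hn

/-- (A): distinct legal elements do not commute (case `|u| ≤ |v|`). -/
lemma comm_legal_aux {u v : List Lt} (hu0 : u ≠ []) (hu : Leg M u) (hv : Leg M v)
    (hlen : u.length ≤ v.length) (h : inv M φ (u ++ v) = inv M φ (v ++ u)) :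
    inv M φ u = inv M φ v := by
  obtain ⟨h1, h2⟩ := Prod.mk.inj h
  have hpos : 0 < u.length := List.length_pos_iff.2 hu0
  have hty : ∀ a ∈ u ++ v, ty a = .o := by
    intro a ha
    rcases List.mem_append.1 ha with ha | ha
    · exact leg_ty hu a ha
    · exact leg_ty hv a ha
  have hT := take_c1_of_linf h1 hty
  have hp := prefix_c1 (langLeg M) hu v
  have hp' := prefix_c1 (langLeg M) hv u
  have hPuv := c1_prefix (langLeg M) (u ++ v)
  have hPleg := c1_mem (langLeg M) (u ++ v)
  -- the other side
  have hq := prefix_c1 (langLegR M) (legR_reverse.2 hv) u.reverse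
  have hq' := prefix_c1 (langLegR M) (legR_reverse.2 hu) v.reverse
  rw [← List.reverse_append] at hq hq'
  unfold rinf at h2
  set P := c1 (Leg M) (u ++ v) with hP
  set P' := c1 (Leg M) (v ++ u) with hP'
  set Q := c1 (LegR M) (u ++ v).reverse with hQ
  set Q' := c1 (LegR M) (v ++ u).reverse with hQ'
  have hvrl : v.reverse.length = v.length := List.length_reverse
  have hurl : u.reverse.length = u.length := List.length_reverse
  rcases Nat.lt_or_ge u.length M with hlt | hge
  · -- `u` is short
    have hPlen := hp.length_le
    have hP'len := hp'.length_le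
    have hu1 : v.take u.length = u := by
      have e1 := take_prefix hp (n := u.length) le_rfl
      have e2 := take_prefix hp' (n := u.length) hlen
      have e3 := congrArg (List.take u.length) hT
      rw [List.take_take, List.take_take, Nat.min_eq_left hlt.le, e1, e2, List.take_length] at e3
      exact e3.symm
    have hu2 : v.reverse.take u.length = u.reverse := by
      have e1 := take_prefix hq (n := u.length) (by omega)
      have e2 := take_prefix hq' (n := u.length) (by omega)
      have e3 := congrArg (List.take u.length) h2
      rw [List.take_take, List.take_take, Nat.min_eq_left hlt.le, e1, e2] at e3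
      rw [e3, ← hurl, List.take_length]
    obtain ⟨v', hv'⟩ : ∃ v', v = u ++ v' := ⟨v.drop u.length, by
      conv_lhs => rw [← List.take_append_drop u.length v]
      rw [hu1]⟩
    have hsq := no_sq hu0 hlt
    -- the legal prefix is short
    have hPshort : P.length < 2 * u.length := by
      by_contra hcon
      apply hsq
      have e1 := take_prefix hPuv (n := 2 * u.length) (by omega)
      have e2 : (u ++ v).take (2 * u.length) = u ++ u := by
        rw [hv', ← List.append_assoc]
        rw [List.take_append_of_le_length (by simp; omega)]
        exact List.take_of_length_le (by simp; omega)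
      rw [e2] at e1
      rw [e1]
      rw [← List.take_append_drop (2 * u.length) P] at hPleg
      exact leg_left hPleg
    rcases Nat.lt_or_ge v.length M with hvlt | hvge
    · -- `v` is short
      have hvP : P.take v.length = v := by
        have e2 := take_prefix hp' (n := v.length) le_rfl
        have e3 := congrArg (List.take v.length) hT
        rw [List.take_take, List.take_take, Nat.min_eq_left hvlt.le, e2, List.take_length] at e3
        exact e3
      have hvPlen : v.length ≤ P.length := by
        have := congrArg List.length hvP
        rw [List.length_take] at this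
        omega
      rcases Nat.eq_or_lt_of_le hlen with he | hl
      · have : v = u := by
          rw [← hu1, he, List.take_length]
        rw [this]
      · exfalso
        -- `v` starts with a square of length `2 (|v| - |u|)`
        set d := v.length - u.length with hd
        have hd1 : 0 < d := by omega
        have hd2 : d < u.length := by omega
        -- `v.drop d = u`
        have e1 : v.drop d = u := by
          have := congrArg List.reverse hu2
          rw [List.reverse_reverse, List.reverse_take, List.reverse_reverse, List.length_reverse] at this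
          rw [hd]
          exact this
        have e2 : u.take d = v.take d := by
          rw [← hu1, List.take_take, Nat.min_eq_left hd2.le]
        have e3 : v = v.take d ++ (v.take d ++ u.drop d) := by
          conv_lhs => rw [← List.take_append_drop d v, e1]
          conv_lhs => rw [← List.take_append_drop d u, e2]
        have hz : v.take d ≠ [] := by
          intro h0
          have := congrArg List.length h0
          rw [List.length_take, List.length_nil] at this
          omega
        refine no_sq (M := M) hz (by rw [List.length_take]; omega) ?_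
        rw [e3, ← List.append_assoc] at hv
        exact leg_left hv
    · -- `v` is long
      exfalso
      have hvP : P.take M = v.take M := by
        rw [hT]; exact take_prefix hp' hvge
      have hPM : M ≤ P.length := by
        have := congrArg List.length hvP
        rw [List.length_take, List.length_take] at this
        omega
      set r := M - u.length with hr
      have hF : P.take M = u ++ v.take r := by
        have e1 := take_prefix hPuv (n := M) hPM
        rw [← e1, List.take_append, List.take_of_length_le hlt.le]
      have hw : v.take r = u.take r := by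
        rw [← hu1, List.take_take, Nat.min_eq_left (by omega)]
      have hFleg : Leg M (u ++ v.take r) := by
        rw [← hF]
        rw [← List.take_append_drop M P] at hPleg
        exact leg_left hPleg
      have hFlen : (u ++ v.take r).length = M := by
        rw [← hF, List.length_take]; omega
      have hFF := leg_self_append hFleg (by rw [hFlen])
      have hne : u.take r ≠ [] := by
        intro h0
        have := congrArg List.length h0
        rw [List.length_take, List.length_nil] at this
        omega
      refine no_sq (M := M) hne (by rw [List.length_take]; omega) ?_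
      rw [hw] at hFF
      have e : (u ++ u.take r) ++ (u ++ u.take r) =
          u ++ ((u.take r ++ u.take r) ++ (u.drop r ++ u.take r)) := by
        conv_lhs => enter [2, 1]; rw [← List.take_append_drop r u]
        simp only [List.append_assoc]
      rw [e] at hFF
      exact leg_left (leg_right hFF)
  · -- both long
    have e1 := take_prefix hp (n := M) hge
    have e2 := take_prefix hp' (n := M) (by omega)
    have e3 := take_prefix hq (n := M) (by omega)
    have e4 := take_prefix hq' (n := M) (by omega)
    refine Prod.ext ?_ ?_
    · change linf M φ u = linf M φ v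
      rw [linf_of_leg hu, linf_of_leg hv, ← e1, ← e2, hT]
    · change rinf M u = rinf M v
      rw [rinf_of_leg hu, rinf_of_leg hv, ← e3, ← e4, h2]

/-- (A): distinct legal elements do not commute. -/
lemma comm_legal {u v : List Lt} (hu0 : u ≠ []) (hv0 : v ≠ []) (hu : Leg M u) (hv : Leg M v)
    (h : inv M φ (u ++ v) = inv M φ (v ++ u)) : inv M φ u = inv M φ v := by
  rcases le_total u.length v.length with hl | hl
  · exact comm_legal_aux hu0 hu hv hl h
  · exact (comm_legal_aux hv0 hv hu hl h.symm).symm

/-- illegal words form a rectangular band ideal. -/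
lemma inv_rect {k : List Lt} (hk : ¬ Leg M k) (x : List Lt) :
    inv M φ (k ++ (x ++ k)) = inv M φ k := by
  refine Prod.ext ?_ ?_
  · exact linf_append hk _
  · change rinf M _ = rinf M _
    rw [← List.append_assoc]
    exact rinf_append hk _

lemma inv_kk {k : List Lt} (hk : ¬ Leg M k) : inv M φ (k ++ k) = inv M φ k := by
  simpa using inv_rect (φ := φ) hk []

/-- if `w` commutes with an illegal `k`, then `k = w k = k w`. -/
lemma comm_illegal (hM : 2 ≤ M) {w k : List Lt} (hk : ¬ Leg M k)
    (h : inv M φ (w ++ k) = inv M φ (k ++ w)) :
    inv M φ k = inv M φ (w ++ k) ∧ inv M φ k = inv M φ (k ++ w) := by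
  have e1 : inv M φ k = inv M φ (k ++ (w ++ k)) := (inv_rect hk w).symm
  have e2 : inv M φ (k ++ (w ++ k)) = inv M φ ((k ++ w) ++ k) := by rw [List.append_assoc]
  have e3 : inv M φ ((k ++ w) ++ k) = inv M φ ((w ++ k) ++ k) := inv_append hM h.symm rfl
  have e4 : inv M φ ((w ++ k) ++ k) = inv M φ (w ++ (k ++ k)) := by rw [List.append_assoc]
  have e5 : inv M φ (w ++ (k ++ k)) = inv M φ (w ++ k) := inv_append hM rfl (inv_kk hk)
  have e : inv M φ k = inv M φ (w ++ k) := by rw [e1, e2, e3, e4, e5]
  exact ⟨e, e.trans h⟩

/-- commuting illegal words are equal. -/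
lemma comm_ill_ill (hM : 2 ≤ M) {k k' : List Lt} (hk : ¬ Leg M k) (hk' : ¬ Leg M k')
    (h : inv M φ (k ++ k') = inv M φ (k' ++ k)) : inv M φ k = inv M φ k' := by
  have a := (comm_illegal hM (w := k') hk h.symm).2
  have b := (comm_illegal hM (w := k) hk' h).1
  exact a.trans b.symm

/-- an illegal word commuting with `w`, `w w` illegal, is `w w`. -/
lemma comm_sq (hM : 2 ≤ M) {w k : List Lt} (hk : ¬ Leg M k) (hw : ¬ Leg M (w ++ w))
    (h : inv M φ (w ++ k) = inv M φ (k ++ w)) : inv M φ k = inv M φ (w ++ w) := by
  apply comm_ill_ill hM hk hw
  -- `k` commutes with `w w`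
  obtain ⟨h1, h2⟩ := comm_illegal hM hk h
  have e1 : inv M φ (k ++ (w ++ w)) = inv M φ k := by
    rw [← List.append_assoc, h2]
    exact inv_append hM h2.symm rfl
  have e2 : inv M φ ((w ++ w) ++ k) = inv M φ k := by
    rw [List.append_assoc, h1]
    exact inv_append hM rfl h1.symm
  rw [e1, e2]

/-- exits of long words -/
lemma comm_long (hM : 2 ≤ M) {w k : List Lt} (hk : ¬ Leg M k) (hw : Leg M w)
    (hwl : M ≤ w.length) (h : inv M φ (w ++ k) = inv M φ (k ++ w)) :
    ∃ t, inv M φ k = (ex M φ t w, w.reverse.take M) := by
  obtain ⟨h1, h2⟩ := comm_illegal hM hk h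
  have hwk : ¬ Leg M (w ++ k) := fun h => hk (leg_right h)
  obtain ⟨P, x, z, e, b1, b2⟩ := exists_dec (langLeg M) hwk
  refine ⟨ty x, Prod.ext ?_ ?_⟩
  · have h3 : linf M φ k = linf M φ (w ++ k) := congrArg Prod.fst h1
    change linf M φ k = _
    rw [h3, e, linf_dec b1 b2]
    have hp := prefix_c1 (langLeg M) hw k
    have hc : c1 (Leg M) (w ++ k) = P := by rw [e]; unfold c1; rw [cut_dec (langLeg M) b1 b2]
    rw [hc] at hp
    unfold ex
    rw [take_prefix hp hwl]
  · have h3 : rinf M k = rinf M (k ++ w) := congrArg Prod.snd h2
    change rinf M k = _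
    rw [h3]
    unfold rinf
    rw [List.reverse_append]
    exact take_prefix (prefix_c1 (langLegR M) (legR_reverse.2 hw) k.reverse) (by simpa using hwl)

end Pool.Agent.V1123.GirthComm
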