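import Mathlib

set_option autoImplicit false

namespace Pool.Agent.V1123.GcdSum

open Finset

/-- Number of pairs of multiples. -/
theorem count_pairs (L p w : ℕ) :
    ∑ m ∈ Ioc 0 L, ∑ n ∈ Ioc 0 L, (if p ∣ m ∧ p ∣ n then w else 0) = w * (L / p) ^ 2 := by
  have h1 : ∀ m ∈ Ioc 0 L, ∑ n ∈ Ioc 0 L, (if p ∣ m ∧ p ∣ n then w else 0) =
      if p ∣ m then w * (L / p) else 0 := by
    intro m _
    by_cases hm : p ∣ m
    · simp only [hm, true_and, if_true]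
      rw [← Finset.sum_filter, Finset.sum_const, Nat.Ioc_filter_dvd_card_eq_div, smul_eq_mul,
        mul_comm]
    · simp [hm]
  rw [Finset.sum_congr rfl h1, ← Finset.sum_filter, Finset.sum_const,
    Nat.Ioc_filter_dvd_card_eq_div, smul_eq_mul]
  ring

theorem prime_part_le (P : Finset ℕ) (hP : ∀ p ∈ P, p.Prime) (g : ℕ) (hg : 0 < g) :
    ∑ p ∈ P, (if p ∣ g then p - 1 else 0) ≤ g := by
  classical
  rw [← Finset.sum_filter]
  calc ∑ p ∈ P.filter (fun p => p ∣ g), (p - 1) = ∑ p ∈ P.filter (fun p => p ∣ g), p.totient := by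
        refine Finset.sum_congr rfl fun p hp => ?_
        rw [Finset.mem_filter] at hp
        rw [Nat.totient_prime (hP p hp.1)]
    _ ≤ ∑ d ∈ g.divisors, d.totient := by
        apply Finset.sum_le_sum_of_subset
        intro p hp
        rw [Finset.mem_filter] at hp
        exact Nat.mem_divisors.2 ⟨hp.2, hg.ne'⟩
    _ = g := Nat.sum_totient g

theorem gcd_sum_ge (P : Finset ℕ) (hP : ∀ p ∈ P, p.Prime) (L : ℕ) :
    ∑ p ∈ P, (p - 1) * (L / p) ^ 2 ≤ ∑ m ∈ Ioc 0 L, ∑ n ∈ Ioc 0 L, Nat.gcd m n := by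
  calc ∑ p ∈ P, (p - 1) * (L / p) ^ 2
      = ∑ p ∈ P, ∑ m ∈ Ioc 0 L, ∑ n ∈ Ioc 0 L, (if p ∣ m ∧ p ∣ n then p - 1 else 0) :=
        Finset.sum_congr rfl fun p _ => (count_pairs L p (p - 1)).symm
    _ = ∑ m ∈ Ioc 0 L, ∑ n ∈ Ioc 0 L, ∑ p ∈ P, (if p ∣ m ∧ p ∣ n then p - 1 else 0) := by
        rw [Finset.sum_comm]
        refine Finset.sum_congr rfl fun m _ => ?_
        rw [Finset.sum_comm]
    _ ≤ ∑ m ∈ Ioc 0 L, ∑ n ∈ Ioc 0 L, Nat.gcd m n := by
        refine Finset.sum_le_sum fun m hm => Finset.sum_le_sum fun n hn => ?_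
        have hm' := (Finset.mem_Ioc.1 hm).1
        have hg : 0 < Nat.gcd m n := Nat.gcd_pos_of_pos_left _ hm'
        refine le_trans (le_of_eq ?_) (prime_part_le P hP _ hg)
        refine Finset.sum_congr rfl fun p _ => ?_
        simp only [Nat.dvd_gcd_iff]

/-- The sums of gcds over squares are not `O(L ^ 2)`. -/
theorem gcd_sum_large (M : ℕ) : ∃ L : ℕ, 0 < L ∧
    M * L ^ 2 < ∑ m ∈ Ioc 0 L, ∑ n ∈ Ioc 0 L, Nat.gcd m n := by
  classical
  have h1 := not_summable_one_div_on_primes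
  rw [not_summable_iff_tendsto_nat_atTop_of_nonneg] at h1
  · have h2 := (Filter.tendsto_atTop.1 h1) (2 * M + 1)
    obtain ⟨D, hD⟩ := h2.exists
    set P := (Finset.range D).filter Nat.Prime with hP
    have hPp : ∀ p ∈ P, p.Prime := fun p hp => (Finset.mem_filter.1 hp).2
    have hsum : (2 * M + 1 : ℝ) ≤ ∑ p ∈ P, (1 : ℝ) / p := by
      refine hD.trans (le_of_eq ?_)
      rw [hP, Finset.sum_filter]
      refine Finset.sum_congr rfl fun p _ => ?_
      rw [Set.indicator_apply]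
      rfl
    refine ⟨D.factorial, Nat.factorial_pos D, ?_⟩
    set L := D.factorial with hL
    have hL0 : 0 < L := Nat.factorial_pos D
    have hge := gcd_sum_ge P hPp L
    have hreal : (M : ℝ) * L ^ 2 < ((∑ p ∈ P, (p - 1) * (L / p) ^ 2 : ℕ) : ℝ) := by
      have h3 : ∀ p ∈ P, (L : ℝ) ^ 2 / 2 * (1 / p) ≤ (((p - 1) * (L / p) ^ 2 : ℕ) : ℝ) := by
        intro p hp
        have hpp := hPp p hp
        have hpD : p < D := by
          have := (Finset.mem_filter.1 hp).1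
          simpa using this
        have hdvd : p ∣ L := Nat.dvd_factorial hpp.pos hpD.le
        have hp0 : (0 : ℝ) < p := by exact_mod_cast hpp.pos
        push_cast [Nat.cast_sub hpp.one_lt.le, Nat.cast_div hdvd hp0.ne']
        have h2p : (2 : ℝ) ≤ p := by exact_mod_cast hpp.two_le
        have e : ((p : ℝ) - 1) * (L / p) ^ 2 = (L : ℝ) ^ 2 * (1 / p) * ((p - 1) / p) := by
          field_simp
        rw [e]
        have h4 : (1 : ℝ) / 2 ≤ (p - 1) / p := by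
          rw [div_le_div_iff₀ (by norm_num) hp0]; linarith
        have h5 : (0 : ℝ) ≤ (L : ℝ) ^ 2 * (1 / p) := by positivity
        calc (L : ℝ) ^ 2 / 2 * (1 / p) = (L : ℝ) ^ 2 * (1 / p) * (1 / 2) := by ring
          _ ≤ _ := by gcongr
      rw [Nat.cast_sum]
      refine lt_of_lt_of_le ?_ (Finset.sum_le_sum h3)
      rw [← Finset.mul_sum]
      have hLr : (0 : ℝ) < (L : ℝ) ^ 2 := by positivity
      calc (M : ℝ) * L ^ 2 < (L : ℝ) ^ 2 / 2 * (2 * M + 1) := by nlinarith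
        _ ≤ _ := by gcongr
    have : M * L ^ 2 < ∑ p ∈ P, (p - 1) * (L / p) ^ 2 := by exact_mod_cast hreal
    exact lt_of_lt_of_le this hge
  · intro n
    exact Set.indicator_nonneg (fun p _ => by positivity) n

/-- Multiples in a symmetric interval. -/
theorem card_mult_le (n g : ℕ) (hg : 0 < g) :
    ((Icc (-(n : ℤ)) n).filter (fun a => (g : ℤ) ∣ a)).card ≤ 2 * (n / g) + 1 := by
  classical
  have hsub : (Icc (-(n : ℤ)) n).filter (fun a => (g : ℤ) ∣ a) ⊆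
      (Icc (-((n / g : ℕ) : ℤ)) ((n / g : ℕ) : ℤ)).image (fun k => (g : ℤ) * k) := by
    intro a ha
    rw [Finset.mem_filter, Finset.mem_Icc] at ha
    obtain ⟨⟨h1, h2⟩, k, rfl⟩ := ha
    refine Finset.mem_image.2 ⟨k, ?_, rfl⟩
    have hg' : (0 : ℤ) < g := by exact_mod_cast hg
    rw [Finset.mem_Icc]
    push_cast
    constructor
    · have h3 : -k ≤ (n : ℤ) / g := by
        apply Int.le_ediv_of_mul_le hg'
        linarith
      linarith
    · apply Int.le_ediv_of_mul_le hg'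
      linarith
  refine (Finset.card_le_card hsub).trans (Finset.card_image_le.trans ?_)
  rw [Int.card_Icc]
  omega

/-- Upper bound for the sum of gcds over a symmetric square. -/
theorem gcd_sum_le (n : ℕ) :
    ∑ v ∈ ((Icc (-(n : ℤ)) n) ×ˢ (Icc (-(n : ℤ)) n)).filter (fun v => v ≠ (0, 0)),
      (Int.gcd v.1 v.2) ≤ ∑ g ∈ Icc 1 n, g * (2 * (n / g) + 1) ^ 2 := by
  classical
  have h1 : ∀ v ∈ ((Icc (-(n : ℤ)) n) ×ˢ (Icc (-(n : ℤ)) n)).filter (fun v => v ≠ (0, 0)),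
      Int.gcd v.1 v.2 ≤ ∑ g ∈ Icc 1 n, (if (g : ℤ) ∣ v.1 ∧ (g : ℤ) ∣ v.2 then g else 0) := by
    rintro ⟨a, b⟩ hv
    rw [Finset.mem_filter, Finset.mem_product, Finset.mem_Icc, Finset.mem_Icc] at hv
    obtain ⟨⟨⟨ha1, ha2⟩, hb1, hb2⟩, hne⟩ := hv
    simp only at ha1 ha2 hb1 hb2 ⊢
    have hne' : a ≠ 0 ∨ b ≠ 0 := by
      by_contra hcon
      push Not at hcon
      exact hne (Prod.ext hcon.1 hcon.2)
    have hgpos : 0 < Int.gcd a b := Int.gcd_pos_iff.2 hne'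
    have hgle : Int.gcd a b ≤ n := by
      rcases hne' with h | h
      · have := Nat.le_of_dvd (Int.natAbs_pos.2 h) (Int.gcd_dvd_natAbs_left a b)
        omega
      · have := Nat.le_of_dvd (Int.natAbs_pos.2 h) (Int.gcd_dvd_natAbs_right a b)
        omega
    have h2 : (if ((Int.gcd a b : ℕ) : ℤ) ∣ a ∧ ((Int.gcd a b : ℕ) : ℤ) ∣ b then Int.gcd a b else 0) =
        Int.gcd a b := if_pos ⟨Int.gcd_dvd_left _ _, Int.gcd_dvd_right _ _⟩
    rw [← h2]
    exact Finset.single_le_sum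
      (f := fun g : ℕ => if (g : ℤ) ∣ a ∧ (g : ℤ) ∣ b then g else 0)
      (fun _ _ => Nat.zero_le _) (Finset.mem_Icc.2 ⟨hgpos, hgle⟩)
  refine (Finset.sum_le_sum h1).trans ?_
  rw [Finset.sum_comm]
  refine Finset.sum_le_sum fun g hg => ?_
  have hg0 : 0 < g := (Finset.mem_Icc.1 hg).1
  rw [← Finset.sum_filter, Finset.sum_const, smul_eq_mul, mul_comm]
  apply Nat.mul_le_mul_left
  have hsub : (((Icc (-(n : ℤ)) n) ×ˢ (Icc (-(n : ℤ)) n)).filter (fun v => v ≠ (0, 0))).filter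
      (fun v => (g : ℤ) ∣ v.1 ∧ (g : ℤ) ∣ v.2) ⊆
      ((Icc (-(n : ℤ)) n).filter (fun a => (g : ℤ) ∣ a)) ×ˢ
        ((Icc (-(n : ℤ)) n).filter (fun a => (g : ℤ) ∣ a)) := by
    intro v hv
    rw [Finset.mem_filter, Finset.mem_filter, Finset.mem_product] at hv
    rw [Finset.mem_product, Finset.mem_filter, Finset.mem_filter]
    exact ⟨⟨hv.1.1.1, hv.2.1⟩, ⟨hv.1.1.2, hv.2.2⟩⟩
  refine (Finset.card_le_card hsub).trans ?_
  rw [Finset.card_product, pow_two]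
  exact Nat.mul_le_mul (card_mult_le n g hg0) (card_mult_le n g hg0)

/-- Real version. -/
theorem gcd_sum_le_real (n : ℕ) (hn : 1 ≤ n) :
    ((∑ v ∈ ((Icc (-(n : ℤ)) n) ×ˢ (Icc (-(n : ℤ)) n)).filter (fun v => v ≠ (0, 0)),
      (Int.gcd v.1 v.2) : ℕ) : ℝ) ≤ 18 * n ^ 2 * Real.sqrt n := by
  have hn' : (1 : ℝ) ≤ n := by exact_mod_cast hn
  have h1 : ((∑ g ∈ Icc 1 n, g * (2 * (n / g) + 1) ^ 2 : ℕ) : ℝ) ≤
      ∑ g ∈ Icc 1 n, 9 * (n : ℝ) ^ 2 * (g : ℝ)⁻¹ := by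
    rw [Nat.cast_sum]
    refine Finset.sum_le_sum fun g hg => ?_
    rw [Finset.mem_Icc] at hg
    have hg0 : (0 : ℝ) < g := by exact_mod_cast hg.1
    have hgn : (g : ℝ) ≤ n := by exact_mod_cast hg.2
    push_cast
    have h2 : ((n / g : ℕ) : ℝ) ≤ n / g := Nat.cast_div_le
    have h3 : (1 : ℝ) ≤ n / g := by rw [le_div_iff₀ hg0]; linarith
    have h4 : (2 * ((n / g : ℕ) : ℝ) + 1) ≤ 3 * (n / g) := by linarith
    calc (g : ℝ) * (2 * ((n / g : ℕ) : ℝ) + 1) ^ 2 ≤ g * (3 * (n / g)) ^ 2 := by gcongr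
      _ = 9 * (n : ℝ) ^ 2 * (g : ℝ)⁻¹ := by field_simp; ring
  have h2 : ((∑ v ∈ ((Icc (-(n : ℤ)) n) ×ˢ (Icc (-(n : ℤ)) n)).filter (fun v => v ≠ (0, 0)),
      (Int.gcd v.1 v.2) : ℕ) : ℝ) ≤ ((∑ g ∈ Icc 1 n, g * (2 * (n / g) + 1) ^ 2 : ℕ) : ℝ) := by
    exact_mod_cast gcd_sum_le n
  refine h2.trans (h1.trans ?_)
  rw [← Finset.mul_sum]
  have h3 : ∑ g ∈ Icc 1 n, ((g : ℝ))⁻¹ ≤ 1 + Real.log n := by
    have := harmonic_le_one_add_log n
    rw [harmonic_eq_sum_Icc] at this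
    push_cast at this
    exact this
  have h4 : 1 + Real.log n ≤ 2 * Real.sqrt n := by
    have h5 : Real.log (Real.sqrt n) ≤ Real.sqrt n - 1 :=
      Real.log_le_sub_one_of_pos (Real.sqrt_pos.2 (by linarith))
    rw [Real.log_sqrt (by linarith)] at h5
    linarith
  calc 9 * (n : ℝ) ^ 2 * ∑ g ∈ Icc 1 n, ((g : ℝ))⁻¹ ≤ 9 * (n : ℝ) ^ 2 * (2 * Real.sqrt n) := by
        gcongr; linarith
    _ = _ := by ring

end Pool.Agent.V1123.GcdSum
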