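import Mathlib
import Pool.Agent.V1123.BallGrowth

set_option autoImplicit false

namespace Pool.Agent.V1123.HeisRot

open Pool.Agent.V1123.BallGrowth

/-- The semidirect product of a Heisenberg-type group on `ℤ² × ℤ` by the rotation of order four.
Here `(a, b)` is a vector, `z` a central coordinate and `(c, d)` a Gaussian unit. -/
@[ext] structure GG where
  a : ℤ
  b : ℤ
  z : ℤ
  c : ℤ
  d : ℤ
  h : c ^ 2 + d ^ 2 = 1

namespace GG

instance : Mul GG := ⟨fun g g' =>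
  ⟨g.a + (g.c * g'.a - g.d * g'.b), g.b + (g.d * g'.a + g.c * g'.b),
    g.z + g'.z + (g.a * (g.d * g'.a + g.c * g'.b) - g.b * (g.c * g'.a - g.d * g'.b)),
    g.c * g'.c - g.d * g'.d, g.c * g'.d + g.d * g'.c, by
      have h1 := g.h
      have h2 := g'.h
      have : (g.c * g'.c - g.d * g'.d) ^ 2 + (g.c * g'.d + g.d * g'.c) ^ 2 =
        (g.c ^ 2 + g.d ^ 2) * (g'.c ^ 2 + g'.d ^ 2) := by ring
      rw [this, h1, h2, one_mul]⟩⟩

instance : One GG := ⟨⟨0, 0, 0, 1, 0, by norm_num⟩⟩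

instance : Inv GG := ⟨fun g =>
  ⟨-(g.c * g.a + g.d * g.b), -(-g.d * g.a + g.c * g.b), -g.z, g.c, -g.d, by
    have h1 := g.h
    rw [neg_sq]; exact h1⟩⟩

theorem mul_a (g g' : GG) : (g * g').a = g.a + (g.c * g'.a - g.d * g'.b) := rfl
theorem mul_b (g g' : GG) : (g * g').b = g.b + (g.d * g'.a + g.c * g'.b) := rfl
theorem mul_z (g g' : GG) : (g * g').z =
    g.z + g'.z + (g.a * (g.d * g'.a + g.c * g'.b) - g.b * (g.c * g'.a - g.d * g'.b)) := rfl
theorem mul_c (g g' : GG) : (g * g').c = g.c * g'.c - g.d * g'.d := rfl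
theorem mul_d (g g' : GG) : (g * g').d = g.c * g'.d + g.d * g'.c := rfl
theorem one_a : (1 : GG).a = 0 := rfl
theorem one_b : (1 : GG).b = 0 := rfl
theorem one_z : (1 : GG).z = 0 := rfl
theorem one_c : (1 : GG).c = 1 := rfl
theorem one_d : (1 : GG).d = 0 := rfl
theorem inv_a (g : GG) : (g⁻¹).a = -(g.c * g.a + g.d * g.b) := rfl
theorem inv_b (g : GG) : (g⁻¹).b = -(-g.d * g.a + g.c * g.b) := rfl
theorem inv_z (g : GG) : (g⁻¹).z = -g.z := rfl
theorem inv_c (g : GG) : (g⁻¹).c = g.c := rfl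
theorem inv_d (g : GG) : (g⁻¹).d = -g.d := rfl

instance : Group GG := Group.ofLeftAxioms
  (by
    intro x y w
    have hx := x.h
    ext
    · simp only [mul_a, mul_b, mul_c, mul_d]; ring
    · simp only [mul_a, mul_b, mul_c, mul_d]; ring
    · simp only [mul_a, mul_b, mul_c, mul_d, mul_z]
      linear_combination (y.a * (y.d * w.a + y.c * w.b) - y.b * (y.c * w.a - y.d * w.b)) * hx
    · simp only [mul_c, mul_d]; ring
    · simp only [mul_c, mul_d]; ring)
  (by
    intro x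
    ext <;> simp only [mul_a, mul_b, mul_c, mul_d, mul_z, one_a, one_b, one_c, one_d, one_z] <;> ring)
  (by
    intro x
    have hx := x.h
    ext
    · simp only [mul_a, inv_a, inv_c, inv_d, one_a]; ring
    · simp only [mul_b, inv_b, inv_c, inv_d, one_b]; ring
    · simp only [mul_z, inv_z, inv_a, inv_b, inv_c, inv_d, one_z]; ring
    · simp only [mul_c, inv_c, inv_d, one_c]; linear_combination hx
    · simp only [mul_d, inv_c, inv_d, one_d]; ring)

/-- Elements of the nilpotent part. -/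
def N (a b z : ℤ) : GG := ⟨a, b, z, 1, 0, by norm_num⟩

/-- The rotation. -/
def rho : GG := ⟨0, 0, 0, 0, 1, by norm_num⟩

theorem N_mul (a b z a' b' z' : ℤ) :
    N a b z * N a' b' z' = N (a + a') (b + b') (z + z' + (a * b' - b * a')) := by
  ext <;> simp only [mul_a, mul_b, mul_c, mul_d, mul_z, N] <;> ring

theorem N_one : N 0 0 0 = 1 := rfl

theorem N_inv (a b z : ℤ) : (N a b z)⁻¹ = N (-a) (-b) (-z) := by
  rw [inv_eq_iff_mul_eq_one, N_mul, ← N_one]
  ext <;> simp only [N] <;> ring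

theorem N_pow (a b z : ℤ) (n : ℕ) : (N a b z) ^ n = N (n * a) (n * b) (n * z) := by
  induction n with
  | zero => rw [pow_zero, ← N_one]; ext <;> simp [N]
  | succ n ih =>
    rw [pow_succ, ih, N_mul]
    ext <;> simp only [N] <;> push_cast <;> ring

theorem N_zpow (a b z : ℤ) (n : ℤ) : (N a b z) ^ n = N (n * a) (n * b) (n * z) := by
  obtain ⟨m, rfl | rfl⟩ := n.eq_nat_or_neg
  · rw [zpow_natCast, N_pow]
  · rw [zpow_neg, zpow_natCast, N_pow, N_inv]
    ext <;> simp only [N] <;> ring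

theorem eq_N (g : GG) (h1 : g.c = 1) (h2 : g.d = 0) : g = N g.a g.b g.z := by
  ext
  · rfl
  · rfl
  · rfl
  · exact h1
  · exact h2

theorem eps_cases (g : GG) : (g.c = 1 ∧ g.d = 0) ∨ (g.c = -1 ∧ g.d = 0) ∨ (g.c = 0 ∧ g.d = 1) ∨
    (g.c = 0 ∧ g.d = -1) := by
  have h := g.h
  have h1 : g.c ≤ 1 := by nlinarith [sq_nonneg g.d]
  have h2 : -1 ≤ g.c := by nlinarith [sq_nonneg g.d]
  have h3 : g.d ≤ 1 := by nlinarith [sq_nonneg g.c]
  have h4 : -1 ≤ g.d := by nlinarith [sq_nonneg g.c]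
  generalize g.c = c at *
  generalize g.d = d at *
  interval_cases c <;> interval_cases d <;> simp_all

/-- Being central. -/
def Cen (g : GG) : Prop := ∀ h : GG, g * h = h * g

theorem cen_N (z : ℤ) : Cen (N 0 0 z) := by
  intro h
  ext <;> simp only [mul_a, mul_b, mul_c, mul_d, mul_z, N] <;> ring

theorem cen_iff (g : GG) : Cen g ↔ ∃ z, g = N 0 0 z := by
  constructor
  · intro h
    have h1 := h (N 1 0 0)
    have h2 := h (N 0 1 0)
    have a1 := congrArg GG.a h1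
    have b1 := congrArg GG.b h1
    have z1 := congrArg GG.z h1
    have z2 := congrArg GG.z h2
    simp only [mul_a, mul_b, mul_z, N] at a1 b1 z1 z2
    have hc : g.c = 1 := by linarith
    have hd : g.d = 0 := by linarith
    rw [hc, hd] at z1 z2
    refine ⟨g.z, ?_⟩
    rw [eq_N g hc hd]
    ext <;> simp only [N] <;> linarith
  · rintro ⟨z, rfl⟩
    exact cen_N z

theorem cen_map (α : GG ≃* GG) (g : GG) (h : Cen g) : Cen (α g) := by
  intro k
  obtain ⟨k', rfl⟩ := α.surjective k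
  rw [← map_mul, ← map_mul, h k']

theorem cen_map_iff (α : GG ≃* GG) (g : GG) : Cen (α g) ↔ Cen g := by
  constructor
  · intro h
    have := cen_map α.symm _ h
    rwa [MulEquiv.symm_apply_apply] at this
  · exact cen_map α g

/-- Fourth powers outside the nilpotent part are central. -/
theorem pow_four_cen (g : GG) (h : ¬ (g.c = 1 ∧ g.d = 0)) : Cen (g ^ 4) := by
  rw [cen_iff]
  refine ⟨(g ^ 4).z, ?_⟩
  have e : g ^ 4 = g * g * (g * g) := by
    rw [show (4 : ℕ) = 2 + 2 from rfl, pow_add, pow_two]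
  rw [e]
  rcases eps_cases g with ⟨hc, hd⟩ | ⟨hc, hd⟩ | ⟨hc, hd⟩ | ⟨hc, hd⟩
  · exact absurd ⟨hc, hd⟩ h
  all_goals
    ext <;> simp only [mul_a, mul_b, mul_c, mul_d, mul_z, N, hc, hd] <;> ring

theorem noncen_pow_four (a b z : ℤ) (h : ¬ (a = 0 ∧ b = 0)) : ¬ Cen ((N a b z) ^ 4) := by
  rw [N_pow, cen_iff]
  rintro ⟨t, ht⟩
  have h1 := congrArg GG.a ht
  have h2 := congrArg GG.b ht
  simp only [N] at h1 h2
  apply h
  constructor <;> (push_cast at h1 h2; omega)

/-- Automorphisms preserve the set of noncentral elements of the nilpotent part. -/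
theorem map_N (α : GG ≃* GG) (a b z : ℤ) (h : ¬ (a = 0 ∧ b = 0)) :
    ∃ a' b' z', α (N a b z) = N a' b' z' ∧ ¬ (a' = 0 ∧ b' = 0) := by
  have h1 : ¬ Cen ((α (N a b z)) ^ 4) := by
    rw [← map_pow, cen_map_iff]
    exact noncen_pow_four a b z h
  have h2 : (α (N a b z)).c = 1 ∧ (α (N a b z)).d = 0 := by
    by_contra hcon
    exact h1 (pow_four_cen _ hcon)
  refine ⟨_, _, _, eq_N _ h2.1 h2.2, ?_⟩
  rintro ⟨h3, h4⟩
  apply h1
  rw [eq_N _ h2.1 h2.2, h3, h4, N_pow, mul_zero]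
  exact cen_N _

/-- Description of the automorphisms on the nilpotent part. -/
theorem aut_desc (α : GG ≃* GG) : ∃ p1 p2 e s z1 z2 : ℤ, (e = 1 ∨ e = -1) ∧ (s = 1 ∨ s = -1) ∧
    p1 ^ 2 + p2 ^ 2 = 1 ∧ ∀ m n z : ℤ, α (N m n z) =
      N (m * p1 - n * (e * p2)) (m * p2 + n * (e * p1)) (s * z + m * z1 + n * z2) := by
  obtain ⟨p1, p2, z1, hp, hp0⟩ := map_N α 1 0 0 (by simp)
  obtain ⟨q1, q2, z2, hq, -⟩ := map_N α 0 1 0 (by simp)
  obtain ⟨s, hs⟩ := (cen_iff _).1 (cen_map α _ (cen_N 1))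
  obtain ⟨s', hs'⟩ := (cen_iff _).1 (cen_map α.symm _ (cen_N 1))
  have hss : s * s' = 1 := by
    have h1 : N 0 0 1 = α (N 0 0 s') := by rw [← hs', MulEquiv.apply_symm_apply]
    have h2 : N 0 0 s' = (N 0 0 1) ^ s' := by
      rw [N_zpow]; ext <;> simp [N]
    rw [h2, map_zpow, hs, N_zpow] at h1
    have := congrArg GG.z h1
    simp only [N] at this
    linarith
  have hs1 : s = 1 ∨ s = -1 := Int.isUnit_iff.1 (IsUnit.of_mul_eq_one s' hss)
  have r1 : rho * N 1 0 0 = N 0 1 0 * rho := by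
    ext <;> simp [mul_a, mul_b, mul_c, mul_d, mul_z, N, rho]
  have r2 : rho * N 0 1 0 = N (-1) 0 0 * rho := by
    ext <;> simp [mul_a, mul_b, mul_c, mul_d, mul_z, N, rho]
  have r3 : N 1 0 0 * N 0 1 0 = N 0 1 0 * N 1 0 0 * (N 0 0 1) ^ 2 := by
    rw [N_pow, N_mul, N_mul, N_mul]; ext <;> simp [N]
  have r4 : N (-1) 0 0 = (N 1 0 0)⁻¹ := by
    rw [N_inv]; ext <;> simp [N]
  have e1 := congrArg α r1
  have e2 := congrArg α r2
  have e3 := congrArg α r3
  rw [map_mul, map_mul, hp, hq] at e1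
  rw [r4, map_mul, map_mul, map_inv, hp, hq, N_inv] at e2
  rw [map_mul, map_mul, map_mul, map_pow, hp, hq, hs, N_pow, N_mul, N_mul, N_mul] at e3
  set R := α rho with hR
  have a1 := congrArg GG.a e1
  have b1 := congrArg GG.b e1
  have a2 := congrArg GG.a e2
  have b2 := congrArg GG.b e2
  have z3 := congrArg GG.z e3
  simp only [mul_a, mul_b, N] at a1 b1 a2 b2
  simp only [N] at z3
  push_cast at z3
  have hdet : p1 * q2 - p2 * q1 = s := by linarith
  have hRc : R.c = 0 ∧ (R.d = 1 ∨ R.d = -1) := by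
    rcases eps_cases R with ⟨hc, hd⟩ | ⟨hc, hd⟩ | ⟨hc, hd⟩ | ⟨hc, hd⟩
    · rw [hc, hd] at a1 b1 a2 b2
      exact absurd ⟨by linarith, by linarith⟩ hp0
    · rw [hc, hd] at a1 b1 a2 b2
      exact absurd ⟨by linarith, by linarith⟩ hp0
    · exact ⟨hc, Or.inl hd⟩
    · exact ⟨hc, Or.inr hd⟩
  obtain ⟨hc, hd⟩ := hRc
  rw [hc] at a1 b1 a2 b2
  have hq1 : q1 = -(R.d * p2) := by linarith
  have hq2 : q2 = R.d * p1 := by linarith
  have hnorm : p1 ^ 2 + p2 ^ 2 = 1 := by
    rw [hq1, hq2] at hdet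
    have h1 : R.d * (p1 ^ 2 + p2 ^ 2) = s := by linarith
    have h2 : 0 ≤ p1 ^ 2 + p2 ^ 2 := by positivity
    rcases hd with hd | hd <;> rcases hs1 with hs1 | hs1 <;> rw [hd, hs1] at h1 <;> linarith
  refine ⟨p1, p2, R.d, s, z1, z2, hd, hs1, hnorm, ?_⟩
  intro m n z
  have h1 : N m n z = (N 1 0 0) ^ m * (N 0 1 0) ^ n * (N 0 0 1) ^ (z - m * n) := by
    rw [N_zpow, N_zpow, N_zpow, N_mul, N_mul]
    ext <;> simp only [N] <;> ring
  rw [h1, map_mul, map_mul, map_zpow, map_zpow, map_zpow, hp, hq, hs, N_zpow, N_zpow, N_zpow,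
    N_mul, N_mul, hq1, hq2]
  ext
  · simp only [N]; ring
  · simp only [N]; ring
  · simp only [N]
    rw [hq1, hq2] at hdet
    linear_combination (m * n) * hdet
  · rfl
  · rfl

/-- Positive vectors: the only coincidences in an orbit. -/
theorem orbit_desc (α : GG ≃* GG) (m n z m' n' z' : ℤ) (hm : 0 < m) (hn : 0 < n) (hm' : 0 < m')
    (hn' : 0 < n') (h : α (N m n z) = N m' n' z') :
    ((m' = m ∧ n' = n) ∨ (m' = n ∧ n' = m)) ∧
      ((Int.gcd m n : ℤ) ∣ z' - z ∨ (Int.gcd m n : ℤ) ∣ z' + z) := by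
  obtain ⟨p1, p2, e, s, z1, z2, he, hs, hp, hα⟩ := aut_desc α
  rw [hα] at h
  have ha := congrArg GG.a h
  have hb := congrArg GG.b h
  have hz := congrArg GG.z h
  simp only [N] at ha hb hz
  have hdvd : (Int.gcd m n : ℤ) ∣ m * z1 + n * z2 :=
    dvd_add (Dvd.dvd.mul_right (Int.gcd_dvd_left _ _) _) (Dvd.dvd.mul_right (Int.gcd_dvd_right _ _) _)
  constructor
  · have hu1 : p1 ≤ 1 := by nlinarith [sq_nonneg p2]
    have hu2 : -1 ≤ p1 := by nlinarith [sq_nonneg p2]
    have hu3 : p2 ≤ 1 := by nlinarith [sq_nonneg p1]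
    have hu4 : -1 ≤ p2 := by nlinarith [sq_nonneg p1]
    rcases he with rfl | rfl <;> interval_cases p1 <;> interval_cases p2 <;>
      first
        | (exfalso; norm_num at hp; done)
        | (exfalso; linarith)
        | (left; constructor <;> linarith)
        | (right; constructor <;> linarith)
  · rcases hs with rfl | rfl
    · left
      have : z' - z = m * z1 + n * z2 := by linarith
      rw [this]; exact hdvd
    · right
      have : z' + z = m * z1 + n * z2 := by linarith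
      rw [this]; exact hdvd

end GG

end Pool.Agent.V1123.HeisRot
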