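import Mathlib

/-!
# Increasing homeomorphisms of the real line: basic tools

We work in the group `H = (ℝ ≃o ℝ)`.
-/

namespace Pool.Agent.V1123.HomeoR

/-- The group of increasing bijections of `ℝ`. -/
abbrev H := ℝ ≃o ℝ

lemma mul_ap (f g : H) (x : ℝ) : (f * g) x = f (g x) := rfl
lemma one_ap (x : ℝ) : (1 : H) x = x := rfl
lemma inv_self (f : H) (x : ℝ) : f⁻¹ (f x) = x := f.symm_apply_apply x
lemma self_inv (f : H) (x : ℝ) : f (f⁻¹ x) = x := f.apply_symm_apply x

lemma inv_fix {f : H} {x : ℝ} (h : f x = x) : f⁻¹ x = x := by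
  conv_lhs => rw [← h]
  exact inv_self f x

lemma pow_fix {f : H} {x : ℝ} (h : f x = x) (k : ℕ) : (f ^ k) x = x := by
  induction k with
  | zero => rfl
  | succ k ih => rw [pow_succ, mul_ap, h, ih]

lemma pow_succ_ap (f : H) (k : ℕ) (x : ℝ) : (f ^ (k + 1)) x = f ((f ^ k) x) := by
  rw [pow_succ']; rfl

lemma inv_le_iff (f : H) (x y : ℝ) : f⁻¹ x ≤ y ↔ x ≤ f y := f.symm_apply_le
lemma le_inv_iff (f : H) (x y : ℝ) : x ≤ f⁻¹ y ↔ f x ≤ y := f.le_symm_apply

/-- Elements with disjoint supports commute. -/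
lemma commute_of_disjoint {f g : H} (h : ∀ x, f x = x ∨ g x = x) : Commute f g := by
  have hd : Equiv.Perm.Disjoint f.toEquiv g.toEquiv := h
  have := hd.commute
  ext x
  have h1 := congrArg (fun p : Equiv.Perm ℝ => p x) this.eq
  exact h1

/-! ### Lattice operations -/

/-- pointwise maximum -/
def hsup (f g : H) : H where
  toFun x := max (f x) (g x)
  invFun y := min (f.symm y) (g.symm y)
  left_inv x := by
    change min (f.symm (max (f x) (g x))) (g.symm (max (f x) (g x))) = x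
    rcases le_total (f x) (g x) with h | h
    · rw [max_eq_right h, g.symm_apply_apply, min_eq_right]
      exact f.le_symm_apply.2 h
    · rw [max_eq_left h, f.symm_apply_apply, min_eq_left]
      exact g.le_symm_apply.2 h
  right_inv y := by
    change max (f (min (f.symm y) (g.symm y))) (g (min (f.symm y) (g.symm y))) = y
    rcases le_total (f.symm y) (g.symm y) with h | h
    · rw [min_eq_left h, f.apply_symm_apply, max_eq_left]
      exact g.le_symm_apply.1 h
    · rw [min_eq_right h, g.apply_symm_apply, max_eq_right]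
      exact f.le_symm_apply.1 h
  map_rel_iff' := by
    intro a b
    have hs : StrictMono fun x => max (f x) (g x) := fun a b h =>
      max_lt_max (f.strictMono h) (g.strictMono h)
    exact hs.le_iff_le

lemma hsup_ap (f g : H) (x : ℝ) : hsup f g x = max (f x) (g x) := rfl

/-- pointwise minimum -/
def hinf (f g : H) : H := (hsup f⁻¹ g⁻¹)⁻¹

lemma hinf_ap (f g : H) (x : ℝ) : hinf f g x = min (f x) (g x) := rfl

/-- affine maps -/
noncomputable def aff (a b : ℝ) (ha : 0 < a) : H where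
  toFun x := a * x + b
  invFun y := (y - b) / a
  left_inv x := by field_simp; ring
  right_inv y := by field_simp; ring
  map_rel_iff' := by
    intro x y
    change a * x + b ≤ a * y + b ↔ x ≤ y
    constructor
    · intro h
      exact le_of_mul_le_mul_left (by linarith) ha
    · intro h
      have := mul_le_mul_of_nonneg_left h ha.le
      linarith

lemma aff_ap (a b : ℝ) (ha : 0 < a) (x : ℝ) : aff a b ha x = a * x + b := rfl

/-- translations -/
noncomputable def tr (t : ℝ) : H := aff 1 t one_pos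

lemma tr_ap (t x : ℝ) : tr t x = x + t := by
  rw [tr, aff_ap, one_mul]

lemma tr_mul (s t : ℝ) : tr s * tr t = tr (s + t) := by
  ext x
  rw [mul_ap, tr_ap, tr_ap, tr_ap]; ring

lemma tr_zero : tr 0 = 1 := by
  ext x
  rw [tr_ap, one_ap, add_zero]

lemma tr_inv (t : ℝ) : (tr t)⁻¹ = tr (-t) := by
  rw [inv_eq_iff_mul_eq_one, tr_mul, add_neg_cancel, tr_zero]

lemma tr_npow (k : ℕ) : (tr 1) ^ k = tr k := by
  induction k with
  | zero => rw [pow_zero, Nat.cast_zero, tr_zero]
  | succ k ih => rw [pow_succ, ih, tr_mul, Nat.cast_succ]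

lemma tr_zpow (d : ℤ) : (tr 1) ^ d = tr d := by
  rcases d with k | k
  · rw [Int.ofNat_eq_natCast, zpow_natCast, tr_npow]; simp
  · rw [zpow_negSucc, tr_npow, tr_inv]
    congr 1
    push_cast
    rfl

/-! ### Limits -/

/-- Pointwise eventually constant sequences (with their inverses) have a limit. -/
lemma lim_exists (g : ℕ → H) (h1 : ∀ x, ∃ K, ∀ k, K ≤ k → g k x = g K x)
    (h2 : ∀ y, ∃ K, ∀ k, K ≤ k → (g k)⁻¹ y = (g K)⁻¹ y) :
    ∃ G : H, ∀ x, ∃ K, ∀ k, K ≤ k → G x = g k x := by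
  choose K hK using h1
  choose L hL using h2
  refine ⟨{ toFun := fun x => g (K x) x
            invFun := fun y => (g (L y))⁻¹ y
            left_inv := ?_
            right_inv := ?_
            map_rel_iff' := ?_ }, fun x => ⟨K x, fun k hk => (hK x k hk).symm⟩⟩
  · intro x
    have h1 := hK x (max (K x) (L (g (K x) x))) (le_max_left _ _)
    have h2 := hL (g (K x) x) (max (K x) (L (g (K x) x))) (le_max_right _ _)
    calc (g (L (g (K x) x)))⁻¹ (g (K x) x)
        = (g (max (K x) (L (g (K x) x))))⁻¹ (g (K x) x) := h2.symm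
      _ = (g (max (K x) (L (g (K x) x))))⁻¹ (g (max (K x) (L (g (K x) x))) x) := by rw [h1]
      _ = x := inv_self _ _
  · intro y
    have h1 := hK ((g (L y))⁻¹ y) (max (K ((g (L y))⁻¹ y)) (L y)) (le_max_left _ _)
    have h2 := hL y (max (K ((g (L y))⁻¹ y)) (L y)) (le_max_right _ _)
    calc g (K ((g (L y))⁻¹ y)) ((g (L y))⁻¹ y)
        = g (max (K ((g (L y))⁻¹ y)) (L y)) ((g (L y))⁻¹ y) := h1.symm
      _ = g (max (K ((g (L y))⁻¹ y)) (L y)) ((g (max (K ((g (L y))⁻¹ y)) (L y)))⁻¹ y) := by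
          rw [h2]
      _ = y := self_inv _ _
  · intro a b
    have h1 := hK a (max (K a) (K b)) (le_max_left _ _)
    have h2 := hK b (max (K a) (K b)) (le_max_right _ _)
    change g (K a) a ≤ g (K b) b ↔ a ≤ b
    rw [← h1, ← h2]
    exact (g _).le_iff_le

/-- Mather's trick: if the backward orbits of `s` and of `τ s` eventually leave the support of
`τ`, then `τ s` is conjugate to `s`. -/
lemma mather (s τ : H) (h1 : ∀ x, ∃ K, ∀ k, K ≤ k → τ ((s⁻¹ ^ k) x) = (s⁻¹ ^ k) x)
    (h2 : ∀ y, ∃ K, ∀ k, K ≤ k → τ ((((τ * s)⁻¹) ^ k) y) = (((τ * s)⁻¹) ^ k) y) :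
    ∃ A : H, A * s * A⁻¹ * s⁻¹ = τ ∧ ∀ x, s x = x → τ x = x → A x = x := by
  obtain ⟨A, hA⟩ := lim_exists (fun k => (τ * s) ^ k * s⁻¹ ^ k) (by
    intro x
    obtain ⟨K, hK⟩ := h1 x
    refine ⟨K, fun k hk => ?_⟩
    induction k, hk using Nat.le_induction with
    | base => rfl
    | succ k hk ih =>
      rw [← ih]
      simp only [mul_ap, pow_succ (τ * s) k]
      rw [pow_succ_ap s⁻¹ k x, self_inv, hK k hk]) (by
    intro y
    obtain ⟨K, hK⟩ := h2 y
    refine ⟨K, fun k hk => ?_⟩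
    induction k, hk using Nat.le_induction with
    | base => rfl
    | succ k hk ih =>
      rw [← ih]
      have e1 : ∀ k, ((τ * s) ^ k * s⁻¹ ^ k)⁻¹ = s ^ k * ((τ * s)⁻¹) ^ k := by
        intro k
        rw [mul_inv_rev, inv_pow, inv_inv, inv_pow]
      rw [e1, e1]
      simp only [mul_ap, pow_succ s k]
      rw [pow_succ_ap (τ * s)⁻¹ k y]
      have e2 : ∀ z, s ((τ * s)⁻¹ z) = τ⁻¹ z := by
        intro z
        rw [mul_inv_rev, mul_ap, self_inv]
      rw [e2, inv_fix (hK k hk)])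
  refine ⟨A, ?_, ?_⟩
  · have e : A * s = τ * s * A := by
      ext x
      obtain ⟨K, hK⟩ := hA x
      obtain ⟨L, hL⟩ := hA (s x)
      have h3 := hK (max K L) (le_max_left _ _)
      have h4 := hL (max K L + 1) ((le_max_right _ _).trans (Nat.le_succ _))
      rw [mul_ap, mul_ap, h3, h4]
      simp only [mul_ap, pow_succ' (τ * s) (max K L), pow_succ s⁻¹ (max K L)]
      rw [inv_self]
    rw [e]
    group
  · intro x hs hτ
    obtain ⟨K, hK⟩ := hA x
    rw [hK K le_rfl, mul_ap, pow_fix (inv_fix hs), pow_fix]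
    rw [mul_ap, hs, hτ]

/-! ### Bumps -/

/-- A bump supported on `[-R, R]`. -/
noncomputable def bump (l R : ℝ) (hl : 1 < l) : H :=
  hsup 1 (hinf (aff l (l * R - R) (by linarith)) (aff l⁻¹ (R - R * l⁻¹) (by positivity)))

lemma bump_ap (l R : ℝ) (hl : 1 < l) (x : ℝ) :
    bump l R hl x = max x (min (l * (x + R) - R) (R - (R - x) * l⁻¹)) := by
  unfold bump
  rw [hsup_ap, hinf_ap, aff_ap, aff_ap, one_ap]
  congr 2 <;> ring

lemma bump_fix {l R : ℝ} (hl : 1 < l) {x : ℝ} (hx : R ≤ |x|) : bump l R hl x = x := by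
  rw [bump_ap]
  apply max_eq_left
  have hl' : l⁻¹ < 1 := inv_lt_one_of_one_lt₀ hl
  have hl0 : 0 < l⁻¹ := by positivity
  rcases le_abs.1 hx with h | h
  · refine (min_le_right _ _).trans ?_
    nlinarith
  · refine (min_le_left _ _).trans ?_
    nlinarith

lemma bump_gt {l R : ℝ} (hl : 1 < l) {x : ℝ} (hx : |x| < R) : x < bump l R hl x := by
  rw [bump_ap]
  apply lt_max_of_lt_right
  have hl' : l⁻¹ < 1 := inv_lt_one_of_one_lt₀ hl
  obtain ⟨h1, h2⟩ := abs_lt.1 hx
  refine lt_min ?_ ?_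
  · nlinarith
  · nlinarith

lemma bump_ge {l R : ℝ} (hl : 1 < l) (x : ℝ) : x ≤ bump l R hl x := by
  rw [bump_ap]
  exact le_max_left _ _

/-! ### Periodisation -/

lemma exists_near {N : ℝ} (hN : 0 < N) (x : ℝ) : ∃ n : ℤ, -(N / 2) ≤ x - N * n ∧ x - N * n < N / 2 := by
  refine ⟨⌊x / N + 1 / 2⌋, ?_, ?_⟩
  · have h := Int.floor_le (x / N + 1 / 2)
    have h2 : N * (⌊x / N + 1 / 2⌋ : ℝ) ≤ N * (x / N + 1 / 2) := mul_le_mul_of_nonneg_left h hN.le
    have h3 : N * (x / N + 1 / 2) = x + N / 2 := by field_simp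
    linarith
  · have h := Int.lt_floor_add_one (x / N + 1 / 2)
    have h2 : N * (x / N + 1 / 2) < N * ((⌊x / N + 1 / 2⌋ : ℝ) + 1) := mul_lt_mul_of_pos_left h hN
    have h3 : N * (x / N + 1 / 2) = x + N / 2 := by field_simp
    linarith

lemma near_unique {N : ℝ} (hN : 0 < N) {x : ℝ} {n m : ℤ} (h1 : -(N / 2) ≤ x - N * n)
    (h2 : x - N * n < N / 2) (h3 : -(N / 2) ≤ x - N * m) (h4 : x - N * m < N / 2) : n = m := by
  have h5 : N * ((n : ℝ) - m) < N * 1 := by linarith
  have h6 : N * ((m : ℝ) - n) < N * 1 := by linarith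
  have h7 : ((n : ℝ) - m) < 1 := lt_of_mul_lt_mul_left h5 hN.le
  have h8 : ((m : ℝ) - n) < 1 := lt_of_mul_lt_mul_left h6 hN.le
  have h9 : n - m < 1 := by exact_mod_cast h7
  have h10 : m - n < 1 := by exact_mod_cast h8
  omega

lemma periodize {N : ℝ} (hN : 0 < N) (φ : H) (hφ : ∀ x, N / 2 ≤ |x| → φ x = x) :
    ∃ Φ : H, ∀ (n : ℤ) (x : ℝ), |x - N * n| ≤ N / 2 → Φ x = N * n + φ (x - N * n) := by
  choose ν hν1 hν2 using fun x => exists_near hN x
  have hpos : φ (N / 2) = N / 2 := hφ _ (le_abs_self _)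
  have hneg : φ (-(N / 2)) = -(N / 2) := hφ _ (by rw [abs_neg]; exact le_abs_self _)
  have hkey : ∀ (ψ : H), ψ (N / 2) = N / 2 → ψ (-(N / 2)) = -(N / 2) → ∀ x,
      ν (N * ν x + ψ (x - N * ν x)) = ν x := by
    intro ψ h1 h2 x
    have h3 : -(N / 2) ≤ ψ (x - N * ν x) := by
      rw [← h2]; exact ψ.monotone (hν1 x)
    have h4 : ψ (x - N * ν x) < N / 2 := by
      conv_rhs => rw [← h1]
      exact ψ.strictMono (hν2 x)
    refine near_unique hN (hν1 _) (hν2 _) ?_ ?_
    · linarith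
    · linarith
  have hinv : ∀ (ψ χ : H), ψ (N / 2) = N / 2 → ψ (-(N / 2)) = -(N / 2) → (∀ x, χ (ψ x) = x) → ∀ x,
      N * ν (N * ν x + ψ (x - N * ν x)) +
        χ (N * ν x + ψ (x - N * ν x) - N * ν (N * ν x + ψ (x - N * ν x))) = x := by
    intro ψ χ h1 h2 h3 x
    rw [hkey ψ h1 h2 x]
    have : N * (ν x : ℝ) + ψ (x - N * ν x) - N * ν x = ψ (x - N * ν x) := by ring
    rw [this, h3]
    ring
  have hmono : StrictMono fun x => N * (ν x : ℝ) + φ (x - N * ν x) := by
    intro x y hxy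
    change N * (ν x : ℝ) + φ (x - N * ν x) < N * (ν y : ℝ) + φ (y - N * ν y)
    rcases lt_trichotomy (ν x) (ν y) with h | h | h
    · have h4 : φ (x - N * ν x) < N / 2 := by
        conv_rhs => rw [← hpos]
        exact φ.strictMono (hν2 x)
      have h5 : -(N / 2) ≤ φ (y - N * ν y) := by
        rw [← hneg]; exact φ.monotone (hν1 y)
      have h6 : (ν x : ℝ) + 1 ≤ ν y := by exact_mod_cast h
      nlinarith
    · rw [h]
      have := φ.strictMono (show x - N * ν y < y - N * ν y by linarith)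
      linarith
    · exfalso
      have h6 : (ν y : ℝ) + 1 ≤ ν x := by exact_mod_cast h
      have h7 := hν1 x
      have h8 := hν2 y
      nlinarith
  refine ⟨{ toFun := fun x => N * ν x + φ (x - N * ν x)
            invFun := fun x => N * ν x + φ⁻¹ (x - N * ν x)
            left_inv := hinv φ φ⁻¹ hpos hneg (inv_self φ)
            right_inv := hinv φ⁻¹ φ (inv_fix hpos) (inv_fix hneg) (self_inv φ)
            map_rel_iff' := by
              intro a b
              exact hmono.le_iff_le }, ?_⟩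
  intro n x hx
  change N * (ν x : ℝ) + φ (x - N * ν x) = N * n + φ (x - N * n)
  obtain ⟨h1, h2⟩ := abs_le.1 hx
  rcases h2.lt_or_eq with h2 | h2
  · rw [near_unique hN (hν1 x) (hν2 x) h1 h2]
  · have h3 : ν x = n + 1 := by
      refine near_unique hN (hν1 x) (hν2 x) ?_ ?_
      · push_cast; linarith
      · push_cast; linarith
    rw [h3, h2]
    have h4 : x - N * ((n + 1 : ℤ) : ℝ) = -(N / 2) := by push_cast; linarith
    rw [h4, hneg, hpos]
    push_cast
    ring

/-- `β` fixes all points at distance at least `r` from `N ℤ`. -/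
def FixOut (N r : ℝ) (β : H) : Prop := ∀ x, (∀ n : ℤ, r ≤ |x - N * n|) → β x = x

lemma FixOut.mono {N r r' : ℝ} {β : H} (h : FixOut N r β) (hr : r ≤ r') : FixOut N r' β :=
  fun x hx => h x fun n => hr.trans (hx n)

lemma FixOut.inv {N r : ℝ} {β : H} (h : FixOut N r β) : FixOut N r β⁻¹ :=
  fun x hx => inv_fix (h x hx)

/-- Periodic bumps. -/
lemma pbump {N : ℝ} (l R : ℝ) (hl : 1 < l) (hR : 0 < R) (hN : 2 * R ≤ N) :
    ∃ s : H, FixOut N R s ∧ (∀ x, x ≤ s x) ∧ (∀ (n : ℤ) x, |x - N * n| < R → x < s x) ∧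
      ∀ (n : ℤ) (x : ℝ), |x| ≤ R → s (N * n + x) = N * n + bump l R hl x := by
  have hN0 : 0 < N := by linarith
  obtain ⟨s, hs⟩ := periodize hN0 (bump l R hl) (fun x hx => bump_fix hl (by linarith))
  have hge : ∀ x, x ≤ s x := by
    intro x
    obtain ⟨n, h1, h2⟩ := exists_near hN0 x
    rw [hs n x (abs_le.2 ⟨h1, h2.le⟩)]
    have := bump_ge hl (R := R) (x - N * n)
    linarith
  refine ⟨s, ?_, hge, ?_, ?_⟩
  · intro x hx
    obtain ⟨n, h1, h2⟩ := exists_near hN0 x
    rw [hs n x (abs_le.2 ⟨h1, h2.le⟩), bump_fix hl (hx n)]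
    ring
  · intro n x hx
    rw [hs n x (by linarith)]
    have := bump_gt hl hx
    linarith
  · intro n x hx
    have e : N * (n : ℝ) + x - N * n = x := by ring
    rw [hs n _ (by rw [e]; linarith), e]

end Pool.Agent.V1123.HomeoR
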