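import Mathlib
import Pool.Agent.V1123.HomeoR

/-!
# Increasing homeomorphisms of the real line: displacement, commutators, compression
-/

namespace Pool.Agent.V1123.HomeoR

/-- if `y` is at distance in `[r, N - r]` from `N n` then it is at distance at least `r` from
all of `N ℤ`. -/
lemma far {N r : ℝ} (hN : 0 < N) {y : ℝ} {n : ℤ} (h1 : r ≤ |y - N * n|) (h2 : |y - N * n| ≤ N - r)
    (m : ℤ) : r ≤ |y - N * m| := by
  by_cases h : m = n
  · rw [h]; exact h1
  · have h3 : (1 : ℝ) ≤ |(n : ℝ) - m| := by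
      have : 1 ≤ |n - m| := Int.one_le_abs (sub_ne_zero.2 fun h' => h h'.symm)
      exact_mod_cast this
    have h4 : N ≤ |N * (n : ℝ) - N * m| := by
      rw [← mul_sub, abs_mul, abs_of_pos hN]
      nlinarith
    have h5 : N * (n : ℝ) - N * m = (y - N * m) - (y - N * n) := by ring
    rw [h5] at h4
    have h6 := abs_sub (y - N * m) (y - N * n)
    linarith

lemma FixOut.ap {N r : ℝ} {β : H} (h : FixOut N r β) (hN : 0 < N) {y : ℝ} {n : ℤ}
    (h1 : r ≤ |y - N * n|) (h2 : |y - N * n| ≤ N - r) : β y = y :=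
  h y (far hN h1 h2)

/-- `s` is supported on the `R`-neighbourhood of `N ℤ` and displaces the `r`-neighbourhood. -/
structure Disp (N r R : ℝ) (s : H) : Prop where
  fix : FixOut N R s
  ge : ∀ x, x ≤ s x
  gt : ∀ (n : ℤ) x, |x - N * n| < R → x < s x
  dis : ∀ n : ℤ, N * n + r ≤ s (N * n - r)

lemma exists_disp {N r R : ℝ} (hr : 0 < r) (hrR : r < R) (hN : 2 * R ≤ N) : ∃ s, Disp N r R s := by
  have hl : 1 < (R + r) / (R - r) := by
    rw [one_lt_div (by linarith)]; linarith
  obtain ⟨s, h1, h2, h3, h4⟩ := pbump (N := N) ((R + r) / (R - r)) R hl (by linarith) hN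
  refine ⟨s, h1, h2, h3, fun n => ?_⟩
  have h5 := h4 n (-r) (by rw [abs_neg, abs_of_pos hr]; exact hrR.le)
  rw [show N * (n : ℝ) - r = N * n + -r by ring, h5, bump_ap]
  have h6 : (R + r) / (R - r) * (-r + R) - R = r := by
    have : R - r ≠ 0 := by linarith
    rw [show -r + R = R - r by ring, div_mul_cancel₀ _ this]; ring
  have h7 : R - (R - -r) * ((R + r) / (R - r))⁻¹ = r := by
    have : R + r ≠ 0 := by linarith
    rw [inv_div, sub_neg_eq_add, mul_div_cancel₀ _ this]; ring
  rw [h6, h7, min_self]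
  have := le_max_right (-r) r
  linarith

section

variable {N r R : ℝ} {s : H}

lemma Disp.left (h : Disp N r R s) (hR : 0 < R) (hN : 2 * R ≤ N) (n : ℤ) :
    s (N * n - R) = N * n - R := by
  refine h.fix.ap (n := n) (by linarith) ?_ ?_
  · rw [show N * (n : ℝ) - R - N * n = -R by ring, abs_neg, abs_of_pos hR]
  · rw [show N * (n : ℝ) - R - N * n = -R by ring, abs_neg, abs_of_pos hR]; linarith

lemma Disp.down (h : Disp N r R s) (hr : 0 < r) {n : ℤ} {x : ℝ} (hx : |x - N * n| < R) :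
    ∃ K, (s⁻¹ ^ K) x ≤ N * n + r := by
  by_contra hcon
  push Not at hcon
  have hbdd : BddBelow (Set.range fun k => (s⁻¹ ^ k) x) :=
    ⟨N * n + r, by rintro _ ⟨k, rfl⟩; exact (hcon k).le⟩
  obtain ⟨L, hL⟩ : ∃ L, L = ⨅ k, (s⁻¹ ^ k) x := ⟨_, rfl⟩
  have h1 : N * n + r ≤ L := by
    rw [hL]; exact le_ciInf fun k => (hcon k).le
  have h2 : L ≤ x := by
    rw [hL]; exact ciInf_le hbdd 0
  have h3 : s⁻¹ L = ⨅ k, s⁻¹ ((s⁻¹ ^ k) x) := by
    rw [hL]; exact OrderIso.map_ciInf _ hbdd
  have h4 : L ≤ s⁻¹ L := by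
    rw [h3]
    refine le_ciInf fun k => ?_
    rw [← pow_succ_ap, hL]
    exact ciInf_le hbdd (k + 1)
  have h5 : s L ≤ L := (le_inv_iff _ _ _).1 h4
  have h6 := abs_lt.1 hx
  have h7 := h.gt n L (abs_lt.2 ⟨by linarith, by linarith⟩)
  linarith

/-- Elements supported on the `r`-neighbourhood of `N ℤ` are commutators. -/
lemma Disp.comm (h : Disp N r R s) (hr : 0 < r) (hrR : r < R) (hN : 2 * R ≤ N) {τ : H}
    (hτ : FixOut N r τ) : ∃ A : H, A * s * A⁻¹ * s⁻¹ = τ ∧ FixOut N R A := by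
  have hR : 0 < R := by linarith
  have hN0 : 0 < N := by linarith
  have hpt : ∀ (c : ℝ) (n : ℤ), N * (n : ℝ) + c - N * n = c := fun c n => by ring
  have hτr : ∀ n : ℤ, τ (N * n + r) = N * n + r := fun n => hτ.ap hN0 (n := n)
    (by rw [hpt, abs_of_pos hr]) (by rw [hpt, abs_of_pos hr]; linarith)
  have hτr' : ∀ n : ℤ, τ (N * n - r) = N * n - r := fun n => by
    rw [sub_eq_add_neg]
    exact hτ.ap hN0 (n := n) (by rw [hpt, abs_neg, abs_of_pos hr])
      (by rw [hpt, abs_neg, abs_of_pos hr]; linarith)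
  have hsr : ∀ n : ℤ, s⁻¹ (N * n + r) ≤ N * n - r := fun n => (inv_le_iff _ _ _).2 (h.dis n)
  have hsle : ∀ x, s⁻¹ x ≤ x := fun x => (inv_le_iff _ _ _).2 (h.ge x)
  have hfixτ : ∀ (n : ℤ) (y : ℝ), N * n - R < y → y ≤ N * n - r → τ y = y := by
    intro n y h1 h2
    have e : |y - N * n| = N * n - y := by rw [abs_sub_comm, abs_of_nonneg]; linarith
    exact hτ.ap hN0 (n := n) (by rw [e]; linarith) (by rw [e]; linarith)
  have hfixτ' : ∀ (n : ℤ) (y : ℝ), N * n + r ≤ y → y < N * n + R → τ y = y := by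
    intro n y h1 h2
    have e : |y - N * n| = y - N * n := by rw [abs_of_nonneg]; linarith
    exact hτ.ap hN0 (n := n) (by rw [e]; linarith) (by rw [e]; linarith)
  have hleft := h.left hR hN
  have hτleft : ∀ n : ℤ, τ (N * n - R) = N * n - R := by
    intro n
    have e : |N * (n : ℝ) - R - N * n| = R := by
      rw [show N * (n : ℝ) - R - N * n = -R by ring, abs_neg, abs_of_pos hR]
    exact hτ.ap hN0 (n := n) (by rw [e]; linarith) (by rw [e]; linarith)
  have hright : ∀ n : ℤ, s (N * n + R) = N * n + R := by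
    intro n
    exact h.fix.ap hN0 (n := n) (by rw [hpt, abs_of_pos hR]) (by rw [hpt, abs_of_pos hR]; linarith)
  have hτright : ∀ n : ℤ, τ (N * n + R) = N * n + R := by
    intro n
    exact hτ.ap hN0 (n := n) (by rw [hpt, abs_of_pos hR]; linarith)
      (by rw [hpt, abs_of_pos hR]; linarith)
  obtain ⟨A, hA1, hA2⟩ := mather s τ (by
    intro x
    obtain ⟨n, hn1, hn2⟩ := exists_near hN0 x
    rcases lt_or_ge (|x - N * n|) R with hx | hx
    · obtain ⟨K, hK⟩ := h.down hr hx
      refine ⟨K + 1, fun k hk => ?_⟩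
      have hlow : N * n - R < (s⁻¹ ^ k) x := by
        have h1 := (s⁻¹ ^ k).strictMono (show N * (n : ℝ) - R < x by linarith [(abs_lt.1 hx).1])
        rwa [pow_fix (inv_fix (hleft n))] at h1
      refine hfixτ n _ hlow ?_
      induction k, hk using Nat.le_induction with
      | base =>
        rw [pow_succ_ap]
        exact (s⁻¹.monotone hK).trans (hsr n)
      | succ k hk ih =>
        rw [pow_succ_ap]
        refine (hsle _).trans (ih ?_)
        have h1 := (s⁻¹ ^ k).strictMono (show N * (n : ℝ) - R < x by linarith [(abs_lt.1 hx).1])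
        rwa [pow_fix (inv_fix (hleft n))] at h1
    · have h3 : |x - N * n| ≤ N / 2 := abs_le.2 ⟨hn1, hn2.le⟩
      have h1 : s x = x := h.fix.ap hN0 hx (by linarith)
      have h2 : τ x = x := hτ.ap hN0 (n := n) (by linarith) (by linarith)
      refine ⟨0, fun k _ => ?_⟩
      rw [pow_fix (inv_fix h1), h2]) (by
    intro x
    obtain ⟨n, hn1, hn2⟩ := exists_near hN0 x
    have hstep : ∀ z, (τ * s)⁻¹ z = s⁻¹ (τ⁻¹ z) := by
      intro z
      rw [mul_inv_rev, mul_ap]
    rcases lt_or_ge (|x - N * n|) R with hx | hx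
    · have hlow : ∀ k, N * n - R < (((τ * s)⁻¹) ^ k) x := by
        intro k
        have h1 := (((τ * s)⁻¹) ^ k).strictMono
          (show N * (n : ℝ) - R < x by linarith [(abs_lt.1 hx).1])
        rwa [pow_fix (inv_fix (by rw [mul_ap, hleft, hτleft]))] at h1
      have hupp : ∀ k, (((τ * s)⁻¹) ^ k) x < N * n + R := by
        intro k
        have h1 := (((τ * s)⁻¹) ^ k).strictMono
          (show x < N * (n : ℝ) + R by linarith [(abs_lt.1 hx).2])
        rwa [pow_fix (inv_fix (by rw [mul_ap, hright, hτright])) (x := N * (n : ℝ) + R)] at h1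
      obtain ⟨K, hK⟩ : ∃ K, (((τ * s)⁻¹) ^ K) x ≤ N * n + r := by
        by_contra hcon
        push Not at hcon
        have heq : ∀ k, (((τ * s)⁻¹) ^ k) x = (s⁻¹ ^ k) x := by
          intro k
          induction k with
          | zero => rfl
          | succ k ih =>
            rw [pow_succ_ap, pow_succ_ap, hstep, inv_fix (hfixτ' n _ (hcon k).le (hupp k)), ih]
        obtain ⟨K, hK⟩ := h.down hr hx
        have := hcon K
        rw [heq] at this
        linarith
      refine ⟨K + 1, fun k hk => ?_⟩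
      refine hfixτ n _ (hlow k) ?_
      induction k, hk using Nat.le_induction with
      | base =>
        rw [pow_succ_ap, hstep]
        have h1 := τ⁻¹.monotone hK
        rw [inv_fix (hτr n)] at h1
        exact (s⁻¹.monotone h1).trans (hsr n)
      | succ k hk ih =>
        rw [pow_succ_ap, hstep]
        have h1 := τ⁻¹.monotone ih
        rw [inv_fix (hτr' n)] at h1
        exact (hsle _).trans h1
    · have h3 : |x - N * n| ≤ N / 2 := abs_le.2 ⟨hn1, hn2.le⟩
      have h1 : s x = x := h.fix.ap hN0 hx (by linarith)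
      have h2 : τ x = x := hτ.ap hN0 (n := n) (by linarith) (by linarith)
      refine ⟨0, fun k _ => ?_⟩
      rw [pow_fix (inv_fix (by rw [mul_ap, h1, h2])), h2])
  exact ⟨A, hA1, fun x hx => hA2 x (h.fix x hx) (hτ.mono hrR.le x hx)⟩

end

/-! ### Commuting shifts -/

/-- conjugation by a translation -/
noncomputable def sh (d : ℤ) (β : H) : H := tr d * β * tr (-d)

lemma sh_ap (d : ℤ) (β : H) (x : ℝ) : sh d β x = β (x - d) + d := by
  unfold sh
  rw [mul_ap, mul_ap, tr_ap, tr_ap, sub_eq_add_neg]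

lemma commute_sh {N : ℝ} {β β' : H} (hβ : FixOut N 1 β) (hβ' : FixOut N 1 β')
    {d d' : ℤ} (h1 : 2 ≤ |d - d'|) (h2 : (|d - d'| : ℝ) ≤ N - 2) : Commute (sh d β) (sh d' β') := by
  have h1' : (2 : ℝ) ≤ |(d : ℝ) - d'| := by exact_mod_cast h1
  have hN0 : 0 < N := by linarith
  apply commute_of_disjoint
  intro x
  rw [sh_ap, sh_ap]
  by_cases hx : ∀ n : ℤ, 1 ≤ |x - d - N * n|
  · left
    rw [hβ _ hx]; ring
  · right
    push Not at hx
    obtain ⟨n, hn⟩ := hx
    rw [hβ' (x - d')]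
    · ring
    · intro m
      have e : x - d' - N * m = (x - d - N * n) + (((d : ℝ) - d') + N * ((n : ℝ) - m)) := by ring
      have h3 : 2 ≤ |((d : ℝ) - d') + N * ((n : ℝ) - m)| := by
        by_cases hnm : n = m
        · rw [hnm, sub_self, mul_zero, add_zero]; exact h1'
        · have h4 : (1 : ℝ) ≤ |(n : ℝ) - m| := by
            have : 1 ≤ |n - m| := Int.one_le_abs (sub_ne_zero.2 hnm)
            exact_mod_cast this
          have h5 : N ≤ |N * ((n : ℝ) - m)| := by
            rw [abs_mul, abs_of_pos hN0]; nlinarith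
          have h6 := abs_sub_abs_le_abs_sub (N * ((n : ℝ) - m)) (-((d : ℝ) - d'))
          rw [abs_neg, sub_neg_eq_add, add_comm (N * ((n : ℝ) - m))] at h6
          linarith
      have h7 := abs_sub_abs_le_abs_sub (((d : ℝ) - d') + N * ((n : ℝ) - m)) (-(x - d - N * n))
      rw [abs_neg, sub_neg_eq_add, add_comm (((d : ℝ) - d') + N * ((n : ℝ) - m)), ← e] at h7
      linarith

/-! ### Compression -/

/-- the compressing element -/
noncomputable def comp (κ : H) (m : ℕ) : H :=
  ((tr 1 * κ⁻¹) ^ m * (tr 1)⁻¹ ^ m) * (((tr 1)⁻¹ * κ) ^ m * (tr 1) ^ m)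

lemma comp_spec {N : ℝ} {κ : H} {m : ℕ} (hN : 2 * (m : ℝ) + 1 ≤ N) (hκ : Disp N (1 / 2) (3 / 4) κ)
    (n : ℤ) {x : ℝ} (hx : |x - N * n| ≤ m) : |comp κ m x - N * n| ≤ 1 / 2 := by
  have hN0 : 0 < N := by
    have : (0 : ℝ) ≤ m := Nat.cast_nonneg _
    linarith
  have hfix : ∀ y : ℝ, 1 ≤ |y - N * n| → |y - N * n| ≤ N - 1 → κ y = y := by
    intro y h1 h2
    exact hκ.fix.ap hN0 (n := n) (by linarith) (by linarith)
  have htr : ∀ y, (tr 1)⁻¹ y = y - 1 := by
    intro y
    rw [tr_inv, tr_ap]; ring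
  have htrm : ((tr 1) ^ m) = tr m := tr_npow m
  have htrm' : ((tr 1)⁻¹ ^ m) = tr (-m) := by rw [inv_pow, tr_npow, tr_inv]
  -- left part
  have hL1 : ∀ i : ℕ, i ≤ m → ∀ y, N * n - 1 / 2 ≤ y → y ≤ N * n + m →
      N * n - 1 / 2 ≤ (((tr 1)⁻¹ * κ) ^ i) y ∧ (((tr 1)⁻¹ * κ) ^ i) y ≤ N * n + (m - i) := by
    intro i
    induction i with
    | zero =>
      intro _ y h1 h2
      rw [pow_zero, one_ap, Nat.cast_zero, sub_zero]
      exact ⟨h1, h2⟩
    | succ i ih =>
      intro hi y h1 h2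
      obtain ⟨h3, h4⟩ := ih (by omega) y h1 h2
      rw [pow_succ_ap, mul_ap, htr]
      constructor
      · have h5 := κ.monotone h3
        have h6 := hκ.dis n
        have : N * (n : ℝ) - 1 / 2 ≤ N * n + 1 / 2 - 1 := by linarith
        linarith
      · have h5 := κ.monotone h4
        have h6 : (1 : ℝ) ≤ (m : ℝ) - i := by
          have : (i : ℝ) + 1 ≤ m := by exact_mod_cast hi
          linarith
        have h7 : (0 : ℝ) ≤ i := Nat.cast_nonneg _
        have e : |N * (n : ℝ) + ((m : ℝ) - i) - N * n| = (m : ℝ) - i := by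
          rw [show N * (n : ℝ) + ((m : ℝ) - i) - N * n = (m : ℝ) - i by ring,
            abs_of_nonneg (by linarith)]
        rw [hfix (N * (n : ℝ) + ((m : ℝ) - i)) (by rw [e]; exact h6) (by rw [e]; linarith)] at h5
        push_cast
        linarith
  have hL2 : ∀ i : ℕ, i ≤ m → ∀ y, N * n + m ≤ y → y ≤ N * n + 2 * m →
      (((tr 1)⁻¹ * κ) ^ i) y = y - i := by
    intro i
    induction i with
    | zero => intro _ y _ _; simp
    | succ i ih =>
      intro hi y h1 h2
      have h6 : (1 : ℝ) ≤ (m : ℝ) - i := by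
        have : (i : ℝ) + 1 ≤ m := by exact_mod_cast hi
        linarith
      have h7 : (0 : ℝ) ≤ i := Nat.cast_nonneg _
      rw [pow_succ_ap, mul_ap, htr, ih (by omega) y h1 h2]
      have e : |y - i - N * (n : ℝ)| = y - i - N * n := abs_of_nonneg (by linarith)
      rw [hfix _ (by rw [e]; linarith) (by rw [e]; linarith)]
      push_cast
      ring
  have hR1 : ∀ i : ℕ, i ≤ m → ∀ y, N * n - m ≤ y → y ≤ N * n + 1 / 2 →
      N * n - (m - i) ≤ ((tr 1 * κ⁻¹) ^ i) y ∧ ((tr 1 * κ⁻¹) ^ i) y ≤ N * n + 1 / 2 := by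
    intro i
    induction i with
    | zero =>
      intro _ y h1 h2
      rw [pow_zero, one_ap, Nat.cast_zero, sub_zero]
      exact ⟨h1, h2⟩
    | succ i ih =>
      intro hi y h1 h2
      obtain ⟨h3, h4⟩ := ih (by omega) y h1 h2
      rw [pow_succ_ap, mul_ap, tr_ap]
      constructor
      · have h5 := κ⁻¹.monotone h3
        have h6 : (1 : ℝ) ≤ (m : ℝ) - i := by
          have : (i : ℝ) + 1 ≤ m := by exact_mod_cast hi
          linarith
        have h7 : (0 : ℝ) ≤ i := Nat.cast_nonneg _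
        have e : |N * (n : ℝ) - ((m : ℝ) - i) - N * n| = (m : ℝ) - i := by
          rw [show N * (n : ℝ) - ((m : ℝ) - i) - N * n = -((m : ℝ) - i) by ring, abs_neg,
            abs_of_nonneg (by linarith)]
        rw [inv_fix (hfix (N * (n : ℝ) - ((m : ℝ) - i)) (by rw [e]; exact h6)
          (by rw [e]; linarith))] at h5
        push_cast
        linarith
      · have h5 := κ⁻¹.monotone h4
        have h6 : κ⁻¹ (N * n + 1 / 2) ≤ N * n - 1 / 2 := (inv_le_iff _ _ _).2 (hκ.dis n)
        linarith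
  have hR2 : ∀ i : ℕ, i ≤ m → ∀ y, N * n - 2 * m ≤ y → y ≤ N * n - m →
      ((tr 1 * κ⁻¹) ^ i) y = y + i := by
    intro i
    induction i with
    | zero => intro _ y _ _; simp
    | succ i ih =>
      intro hi y h1 h2
      have h6 : (1 : ℝ) ≤ (m : ℝ) - i := by
        have : (i : ℝ) + 1 ≤ m := by exact_mod_cast hi
        linarith
      have h7 : (0 : ℝ) ≤ i := Nat.cast_nonneg _
      rw [pow_succ_ap, mul_ap, tr_ap, ih (by omega) y h1 h2]
      have e : |y + i - N * (n : ℝ)| = N * n - (y + i) := by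
        rw [abs_sub_comm, abs_of_nonneg (by linarith)]
      rw [inv_fix (hfix _ (by rw [e]; linarith) (by rw [e]; linarith))]
      push_cast
      ring
  have hkL : ∀ z, (((tr 1)⁻¹ * κ) ^ m * (tr 1) ^ m) z = (((tr 1)⁻¹ * κ) ^ m) (z + m) := by
    intro z
    rw [mul_ap, htrm, tr_ap]
  have hkR : ∀ z, ((tr 1 * κ⁻¹) ^ m * (tr 1)⁻¹ ^ m) z = ((tr 1 * κ⁻¹) ^ m) (z - m) := by
    intro z
    rw [mul_ap, htrm', tr_ap, sub_eq_add_neg]
  obtain ⟨hx1, hx2⟩ := abs_le.1 hx
  unfold comp
  rw [mul_ap, hkL, hkR]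
  have hm0 : (0 : ℝ) ≤ m := Nat.cast_nonneg _
  rcases le_total x (N * n) with h | h
  · obtain ⟨h1, h2⟩ := hL1 m le_rfl (x + m) (by linarith) (by linarith)
    rw [sub_self, add_zero] at h2
    rcases Nat.eq_zero_or_pos m with hm | hm
    · subst hm
      simp only [Nat.cast_zero, pow_zero, one_ap, add_zero, sub_zero] at *
      rw [abs_le]
      constructor <;> linarith
    · have hm1 : (1 : ℝ) ≤ m := by exact_mod_cast hm
      rw [hR2 m le_rfl _ (by linarith) (by linarith), sub_add_cancel, abs_le]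
      constructor <;> linarith
  · rw [hL2 m le_rfl (x + m) (by linarith) (by linarith), add_sub_cancel_right]
    obtain ⟨h1, h2⟩ := hR1 m le_rfl (x - m) (by linarith) (by linarith)
    rw [sub_self, sub_zero] at h1
    rw [abs_le]
    constructor <;> linarith

/-- Conjugating by the compressing element. -/
lemma comp_conj {N : ℝ} {κ : H} {m : ℕ} (hN : 2 * (m : ℝ) + 1 ≤ N)
    (hκ : Disp N (1 / 2) (3 / 4) κ) {b : H} (hb : FixOut N m b) :
    FixOut N (1 / 2) (comp κ m * b * (comp κ m)⁻¹) := by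
  intro y hy
  have : b ((comp κ m)⁻¹ y) = (comp κ m)⁻¹ y := by
    apply hb
    intro n
    by_contra hcon
    push Not at hcon
    obtain ⟨h1, h2⟩ := abs_lt.1 hcon
    have h3 := comp_spec hN hκ n (x := N * n - m) (by
      rw [show N * (n : ℝ) - m - N * n = -m by ring, abs_neg, abs_of_nonneg (Nat.cast_nonneg _)])
    have h4 := comp_spec hN hκ n (x := N * n + m) (by
      rw [show N * (n : ℝ) + m - N * n = m by ring, abs_of_nonneg (Nat.cast_nonneg _)])
    have h5 := (comp κ m).strictMono (show N * (n : ℝ) - m < (comp κ m)⁻¹ y by linarith)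
    have h6 := (comp κ m).strictMono (show (comp κ m)⁻¹ y < N * (n : ℝ) + m by linarith)
    rw [self_inv] at h5 h6
    have h7 := hy n
    rcases le_abs.1 h7 with h | h
    · have := (abs_le.1 h4).2
      linarith
    · have := (abs_le.1 h3).1
      linarith
  rw [mul_ap, mul_ap, this, self_inv]

end Pool.Agent.V1123.HomeoR
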