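import Mathlib
import Pool.Agent.V1123.HomeoR2

/-!
# Increasing homeomorphisms of the real line: fragmentation, Abel functions, domination
-/

namespace Pool.Agent.V1123.HomeoR

/-! ### Fragmentation -/

lemma bump_half {y : ℝ} (h1 : -(7 / 2) ≤ y) (h2 : y ≤ 3) :
    y + 1 / 2 ≤ bump 2 4 one_lt_two y := by
  rw [bump_ap]
  apply le_max_of_le_right
  refine le_min ?_ ?_
  · linarith
  · norm_num
    linarith

lemma frag {m : ℕ} (hm : 1 ≤ m) (v : H) (hv : ∀ x, |v x - x| ≤ 1 / 2) :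
    ∃ a b : H, FixOut (2 * m + 6) 4 a ∧ FixOut (2 * m + 6) m b ∧
      v = (tr (m + 3) * a * (tr (m + 3))⁻¹) * b := by
  obtain ⟨N, hN⟩ : ∃ N : ℝ, N = 2 * m + 6 := ⟨_, rfl⟩
  obtain ⟨M, hM⟩ : ∃ M : ℝ, M = m + 3 := ⟨_, rfl⟩
  have hm1 : (1 : ℝ) ≤ m := by exact_mod_cast hm
  have hN0 : 0 < N := by linarith
  rw [← hN, ← hM]
  obtain ⟨s, hs1, hs2, hs3, hs4⟩ := pbump (N := N) 2 4 one_lt_two (by norm_num) (by linarith)
  -- the upper barrier
  obtain ⟨U, hU⟩ : ∃ U : H, ∀ x, U x = s (x - M) + M := by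
    refine ⟨tr M * s * tr (-M), fun x => ?_⟩
    rw [mul_ap, mul_ap, tr_ap, tr_ap, sub_eq_add_neg]
  have hUbig : ∀ (n : ℤ) (x : ℝ), -(7 / 2) ≤ x - (N * n + M) → x - (N * n + M) ≤ 3 →
      x + 1 / 2 ≤ U x := by
    intro n x h1 h2
    have h3 := hs4 n (x - (N * n + M)) (abs_le.2 ⟨by linarith, by linarith⟩)
    rw [hU, show x - M = N * n + (x - (N * n + M)) by ring, h3]
    have := bump_half h1 h2
    linarith
  have hLbig : ∀ (n : ℤ) (x : ℝ), |x - (N * n + M)| ≤ 3 → U⁻¹ x ≤ x - 1 / 2 := by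
    intro n x h
    obtain ⟨h1, h2⟩ := abs_le.1 h
    rw [inv_le_iff]
    have := hUbig n (x - 1 / 2) (by linarith) (by linarith)
    linarith
  have hUfix : ∀ x, (∀ n : ℤ, 4 ≤ |x - M - N * n|) → U x = x := by
    intro x hx
    rw [hU, hs1 _ hx]; ring
  obtain ⟨a₀, ha₀⟩ : ∃ a₀ : H, a₀ = hsup U⁻¹ (hinf v U) := ⟨_, rfl⟩
  have ha1 : ∀ x, (∀ n : ℤ, 4 ≤ |x - M - N * n|) → a₀ x = x := by
    intro x hx
    rw [ha₀, hsup_ap, hinf_ap, hUfix x hx, inv_fix (hUfix x hx)]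
    rw [max_eq_left (min_le_right _ _)]
  have ha2 : ∀ (n : ℤ) (x : ℝ), |x - (N * n + M)| ≤ 3 → a₀ x = v x := by
    intro n x h
    obtain ⟨h1, h2⟩ := abs_le.1 h
    have h3 := hLbig n x h
    have h4 := hUbig n x (by linarith) (by linarith)
    obtain ⟨h5, h6⟩ := abs_le.1 (hv x)
    rw [ha₀, hsup_ap, hinf_ap, min_eq_left (by linarith), max_eq_right (by linarith)]
  refine ⟨(tr M)⁻¹ * a₀ * tr M, a₀⁻¹ * v, ?_, ?_, ?_⟩
  · intro x hx
    rw [mul_ap, mul_ap, tr_ap, ha1, tr_inv, tr_ap]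
    · ring
    · intro n
      rw [add_sub_cancel_right]
      exact hx n
  · intro x hx
    have hfl1 := Int.floor_le (x / N)
    have hfl2 := Int.lt_floor_add_one (x / N)
    have h1 : N * (⌊x / N⌋ : ℝ) ≤ x := by
      have := mul_le_mul_of_nonneg_left hfl1 hN0.le
      rwa [mul_div_cancel₀ _ hN0.ne'] at this
    have h2 : x < N * ((⌊x / N⌋ : ℝ) + 1) := by
      have := mul_lt_mul_of_pos_left hfl2 hN0
      rwa [mul_div_cancel₀ _ hN0.ne'] at this
    have h3 := hx ⌊x / N⌋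
    have h4 := hx (⌊x / N⌋ + 1)
    rw [abs_of_nonneg (by linarith)] at h3
    rw [abs_sub_comm, abs_of_nonneg (by push_cast; linarith)] at h4
    push_cast at h4
    have h5 := ha2 ⌊x / N⌋ x (abs_le.2 ⟨by linarith, by linarith⟩)
    rw [mul_ap, ← h5, inv_self]
  · group

/-! ### Abel functions -/

lemma zpow_succ_ap (F : H) (n : ℤ) (x : ℝ) : (F ^ (n + 1)) x = F ((F ^ n) x) := by
  rw [zpow_add_one, ← mul_ap, ← (Commute.refl F).zpow_right n |>.eq]

lemma zpow_succ_ap' (F : H) (n : ℤ) (x : ℝ) : (F ^ (n + 1)) x = (F ^ n) (F x) := by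
  rw [zpow_add_one, mul_ap]

lemma abel (F : H) (hF : ∀ x, x + 1 ≤ F x) : ∃ φ : H, ∀ x, φ (F x) = φ x + 1 / 2 := by
  have hF0 : 0 < F 0 := by have := hF 0; linarith
  have hstep : ∀ n : ℤ, (F ^ n) 0 + 1 ≤ (F ^ (n + 1)) 0 := by
    intro n
    rw [zpow_succ_ap]
    exact hF _
  have hsteps : ∀ (n : ℤ) (k : ℕ), (F ^ n) 0 + k ≤ (F ^ (n + k)) 0 := by
    intro n k
    induction k with
    | zero => simp
    | succ k ih =>
      have := hstep (n + k)
      rw [show n + ((k + 1 : ℕ) : ℤ) = n + k + 1 by push_cast; ring]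
      push_cast
      linarith
  have hmono : ∀ n m : ℤ, n ≤ m → (F ^ n) 0 ≤ (F ^ m) 0 := by
    intro n m h
    obtain ⟨k, rfl⟩ := Int.le.dest h
    have := hsteps n k
    have h2 : (0 : ℝ) ≤ k := Nat.cast_nonneg _
    linarith
  let ψ : ℝ → ℝ := fun y => (F ^ ⌊2 * y⌋) (Int.fract (2 * y) * F 0)
  have hψ : StrictMono ψ := by
    intro y y' hy
    have hle : ⌊2 * y⌋ ≤ ⌊2 * y'⌋ := Int.floor_le_floor (by linarith)
    rcases hle.lt_or_eq with h | h
    · have h1 : ψ y < (F ^ (⌊2 * y⌋ + 1)) 0 := by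
        rw [zpow_succ_ap']
        refine (F ^ ⌊2 * y⌋).strictMono ?_
        have := Int.fract_lt_one (2 * y)
        nlinarith
      have h2 : (F ^ ⌊2 * y'⌋) 0 ≤ ψ y' :=
        (F ^ ⌊2 * y'⌋).monotone (mul_nonneg (Int.fract_nonneg _) hF0.le)
      exact h1.trans_le ((hmono _ _ h).trans h2)
    · change (F ^ ⌊2 * y⌋) (Int.fract (2 * y) * F 0) < (F ^ ⌊2 * y'⌋) (Int.fract (2 * y') * F 0)
      rw [← h]
      refine (F ^ ⌊2 * y⌋).strictMono (mul_lt_mul_of_pos_right ?_ hF0)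
      rw [Int.fract, Int.fract, ← h]
      linarith
  have hsurj : Function.Surjective ψ := by
    intro x
    have hbd : ∃ b : ℤ, ∀ z : ℤ, (F ^ z) 0 ≤ x → z ≤ b := by
      refine ⟨⌈|x|⌉, fun z hz => ?_⟩
      rcases le_total z 0 with h | h
      · exact h.trans (Int.ceil_nonneg (abs_nonneg x))
      · obtain ⟨k, rfl⟩ := Int.eq_ofNat_of_zero_le h
        have h1 := hsteps 0 k
        rw [zero_add, zpow_zero, one_ap, zero_add] at h1
        have h2 : ((k : ℤ) : ℝ) ≤ (⌈|x|⌉ : ℝ) := by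
          rw [Int.cast_natCast]
          exact (h1.trans hz).trans ((le_abs_self x).trans (Int.le_ceil _))
        exact_mod_cast h2
    have hne : ∃ z : ℤ, (F ^ z) 0 ≤ x := by
      refine ⟨-(⌈|x|⌉₊ : ℤ), ?_⟩
      have h1 := hsteps (-(⌈|x|⌉₊ : ℤ)) ⌈|x|⌉₊
      rw [neg_add_cancel, zpow_zero, one_ap] at h1
      have h2 := Nat.le_ceil |x|
      have h3 := neg_abs_le x
      linarith
    obtain ⟨n, hn, hmax⟩ := Int.exists_greatest_of_bdd hbd hne
    have hlt : x < (F ^ (n + 1)) 0 := by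
      by_contra hcon
      push Not at hcon
      have := hmax _ hcon
      omega
    obtain ⟨w, hw⟩ : ∃ w, w = (F ^ n)⁻¹ x := ⟨_, rfl⟩
    have hw0 : 0 ≤ w := by
      rw [hw, le_inv_iff]; exact hn
    have hw1 : w < F 0 := by
      rw [zpow_succ_ap'] at hlt
      rw [hw]
      by_contra hcon
      push Not at hcon
      rw [le_inv_iff] at hcon
      linarith
    have hfl : ⌊2 * ((n + w / F 0) / 2)⌋ = n := by
      rw [Int.floor_eq_iff]
      have h1 : 0 ≤ w / F 0 := by positivity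
      have h2 : w / F 0 < 1 := (div_lt_one hF0).2 hw1
      constructor <;> linarith
    refine ⟨(n + w / F 0) / 2, ?_⟩
    change (F ^ ⌊2 * ((n + w / F 0) / 2)⌋) (Int.fract (2 * ((n + w / F 0) / 2)) * F 0) = x
    rw [Int.fract, hfl]
    have h3 : (2 * ((n + w / F 0) / 2) - n) * F 0 = w := by
      field_simp
      ring
    rw [h3, hw, self_inv]
  let Ψ : H := hψ.orderIsoOfSurjective ψ hsurj
  have hΨ : ∀ y, Ψ (y + 1 / 2) = F (Ψ y) := by
    intro y
    change (F ^ ⌊2 * (y + 1 / 2)⌋) (Int.fract (2 * (y + 1 / 2)) * F 0) =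
      F ((F ^ ⌊2 * y⌋) (Int.fract (2 * y) * F 0))
    have e : 2 * (y + 1 / 2) = 2 * y + 1 := by ring
    rw [e, Int.floor_add_one, Int.fract_add_one, zpow_succ_ap]
  refine ⟨Ψ⁻¹, fun x => ?_⟩
  have h1 := hΨ (Ψ⁻¹ x)
  rw [self_inv] at h1
  rw [← h1, inv_self]

/-! ### Domination -/

lemma dominate (f : ℕ → H) :
    ∃ F : H, (∀ x, x + 1 ≤ F x) ∧ ∀ i, ∃ R, ∀ x, R ≤ x → f i x ≤ F x := by
  let a : ℕ → ℝ := fun n => n + 2 + ∑ j ∈ Finset.range (n + 1), ∑ i ∈ Finset.range (j + 1),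
    |f i (j + 1)|
  have hastep : ∀ n, a n + 1 ≤ a (n + 1) := by
    intro n
    change (n : ℝ) + 2 + _ + 1 ≤ ((n + 1 : ℕ) : ℝ) + 2 + _
    rw [Finset.sum_range_succ _ (n + 1)]
    have : 0 ≤ ∑ i ∈ Finset.range (n + 1 + 1), |f i (((n + 1 : ℕ) : ℝ) + 1)| :=
      Finset.sum_nonneg fun i _ => abs_nonneg _
    push_cast at this ⊢
    linarith
  have ha : StrictMono a := strictMono_nat_of_lt_succ fun n => by
    have := hastep n
    linarith
  have ha2 : ∀ n : ℕ, (n : ℝ) + 2 ≤ a n := by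
    intro n
    have : 0 ≤ ∑ j ∈ Finset.range (n + 1), ∑ i ∈ Finset.range (j + 1), |f i ((j : ℝ) + 1)| :=
      Finset.sum_nonneg fun j _ => Finset.sum_nonneg fun i _ => abs_nonneg _
    change (n : ℝ) + 2 ≤ n + 2 + _
    linarith
  have haf : ∀ i n : ℕ, i ≤ n → f i (n + 1) ≤ a n := by
    intro i n hin
    have h1 := Finset.single_le_sum (f := fun j : ℕ => ∑ i ∈ Finset.range (j + 1), |f i ((j : ℝ) + 1)|)
      (s := Finset.range (n + 1)) (fun j _ => Finset.sum_nonneg fun i _ => abs_nonneg _)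
      (Finset.mem_range.2 (Nat.lt_succ_self n))
    have h2 := Finset.single_le_sum (f := fun i : ℕ => |f i ((n : ℝ) + 1)|)
      (s := Finset.range (n + 1)) (fun i _ => abs_nonneg _)
      (Finset.mem_range.2 (Nat.lt_succ_of_le hin))
    have h3 := le_abs_self (f i ((n : ℝ) + 1))
    have h4 : (0 : ℝ) ≤ n := Nat.cast_nonneg _
    change f i ((n : ℝ) + 1) ≤ n + 2 + _
    exact h3.trans (h2.trans (h1.trans (by linarith)))
  have hpos : ∀ k, 0 < a (k + 1) - a k := fun k => by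
    have := hastep k
    linarith
  let pl : ℝ → ℝ := fun x =>
    if x < 0 then a 0 + x else a ⌊x⌋₊ + (x - ⌊x⌋₊) * (a (⌊x⌋₊ + 1) - a ⌊x⌋₊)
  have hpl1 : ∀ x, 0 ≤ x → a ⌊x⌋₊ ≤ pl x := by
    intro x hx
    change a ⌊x⌋₊ ≤ if x < 0 then a 0 + x else a ⌊x⌋₊ + (x - ⌊x⌋₊) * (a (⌊x⌋₊ + 1) - a ⌊x⌋₊)
    rw [if_neg (not_lt.2 hx)]
    have : 0 ≤ (x - ⌊x⌋₊) * (a (⌊x⌋₊ + 1) - a ⌊x⌋₊) :=
      mul_nonneg (sub_nonneg.2 (Nat.floor_le hx)) (hpos _).le
    linarith
  have hplmono : StrictMono pl := by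
    intro x y hxy
    change (if x < 0 then a 0 + x else a ⌊x⌋₊ + (x - ⌊x⌋₊) * (a (⌊x⌋₊ + 1) - a ⌊x⌋₊)) <
      (if y < 0 then a 0 + y else a ⌊y⌋₊ + (y - ⌊y⌋₊) * (a (⌊y⌋₊ + 1) - a ⌊y⌋₊))
    split_ifs with h1 h2 h2
    · linarith
    · push Not at h2
      have h3 : a 0 ≤ a ⌊y⌋₊ := ha.monotone (Nat.zero_le _)
      have h4 : 0 ≤ (y - ⌊y⌋₊) * (a (⌊y⌋₊ + 1) - a ⌊y⌋₊) :=
        mul_nonneg (sub_nonneg.2 (Nat.floor_le h2)) (hpos _).le
      linarith
    · exfalso; linarith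
    · push Not at h1 h2
      have hx1 := Nat.lt_floor_add_one x
      have hy0 := Nat.floor_le h2
      rcases (Nat.floor_mono hxy.le).eq_or_lt with h | h
      · rw [h]
        have h3 := mul_lt_mul_of_pos_right (show x - ⌊y⌋₊ < y - ⌊y⌋₊ by linarith) (hpos ⌊y⌋₊)
        linarith
      · have h5 := mul_lt_mul_of_pos_right (show x - ⌊x⌋₊ < 1 by linarith) (hpos ⌊x⌋₊)
        have h6 : a (⌊x⌋₊ + 1) ≤ a ⌊y⌋₊ := ha.monotone h
        have h7 : 0 ≤ (y - ⌊y⌋₊) * (a (⌊y⌋₊ + 1) - a ⌊y⌋₊) :=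
          mul_nonneg (sub_nonneg.2 hy0) (hpos _).le
        linarith
  have hplsurj : Function.Surjective pl := by
    intro y
    by_cases h0 : y < a 0
    · refine ⟨y - a 0, ?_⟩
      change (if y - a 0 < 0 then a 0 + (y - a 0) else _) = y
      rw [if_pos (by linarith)]
      ring
    · push Not at h0
      have hex : ∃ k : ℕ, y < a (k + 1) := by
        refine ⟨⌈y⌉₊, lt_of_le_of_lt (Nat.le_ceil y) (lt_of_lt_of_le ?_ (ha2 (⌈y⌉₊ + 1)))⟩
        push_cast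
        linarith
      classical
      obtain ⟨k, hk1, hk0⟩ : ∃ k : ℕ, y < a (k + 1) ∧ a k ≤ y := by
        refine ⟨Nat.find hex, Nat.find_spec hex, ?_⟩
        rcases Nat.eq_zero_or_pos (Nat.find hex) with h | h
        · rw [h]; exact h0
        · by_contra hc
          push Not at hc
          exact Nat.find_min hex (m := Nat.find hex - 1) (by omega)
            (by rwa [Nat.sub_add_cancel h])
      have hd : 0 < a (k + 1) - a k := hpos k
      obtain ⟨t, ht⟩ : ∃ t, t = (y - a k) / (a (k + 1) - a k) := ⟨_, rfl⟩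
      have ht0 : 0 ≤ t := by rw [ht]; exact div_nonneg (by linarith) hd.le
      have ht1 : t < 1 := by rw [ht]; exact (div_lt_one hd).2 (by linarith)
      have hfl : ⌊(k : ℝ) + t⌋₊ = k := by
        rw [Nat.floor_eq_iff (by positivity)]
        constructor <;> linarith
      refine ⟨k + t, ?_⟩
      change (if (k : ℝ) + t < 0 then a 0 + (k + t) else
        a ⌊(k : ℝ) + t⌋₊ + (k + t - ⌊(k : ℝ) + t⌋₊) * (a (⌊(k : ℝ) + t⌋₊ + 1) - a ⌊(k : ℝ) + t⌋₊)) = y
      rw [if_neg (by push Not; positivity), hfl]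
      have h1 : t * (a (k + 1) - a k) = y - a k := by rw [ht]; exact div_mul_cancel₀ _ hd.ne'
      have h2 : (k : ℝ) + t - k = t := by ring
      rw [h2, h1]
      ring
  refine ⟨hplmono.orderIsoOfSurjective pl hplsurj, ?_, ?_⟩
  · intro x
    change x + 1 ≤ pl x
    by_cases hx : x < 0
    · change x + 1 ≤ if x < 0 then a 0 + x else _
      rw [if_pos hx]
      have := ha2 0
      push_cast at this
      linarith
    · push Not at hx
      have h1 := hpl1 x hx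
      have h2 := ha2 ⌊x⌋₊
      have h3 := Nat.lt_floor_add_one x
      linarith
  · intro i
    refine ⟨i, fun x hx => ?_⟩
    change f i x ≤ pl x
    have hx0 : 0 ≤ x := (Nat.cast_nonneg i).trans hx
    have h1 : i ≤ ⌊x⌋₊ := Nat.le_floor hx
    have h2 : f i x ≤ f i (⌊x⌋₊ + 1) := (f i).monotone (Nat.lt_floor_add_one x).le
    exact h2.trans ((haf i _ h1).trans (hpl1 x hx0))

/-- reflection -/
noncomputable def refl (h : H) : H where
  toFun x := -h (-x)
  invFun x := -h⁻¹ (-x)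
  left_inv x := by
    change -h⁻¹ (- -h (-x)) = x
    rw [neg_neg, inv_self, neg_neg]
  right_inv x := by
    change -h (- -h⁻¹ (-x)) = x
    rw [neg_neg, self_inv, neg_neg]
  map_rel_iff' := by
    intro a b
    change -h (-a) ≤ -h (-b) ↔ a ≤ b
    rw [neg_le_neg_iff, h.le_iff_le, neg_le_neg_iff]

lemma refl_ap (h : H) (x : ℝ) : refl h x = -h (-x) := rfl

lemma dominate2 (f : ℕ → H) :
    ∃ F : H, (∀ x, x + 1 ≤ F x) ∧ ∀ i, ∃ R, ∀ x, R ≤ |x| → F⁻¹ x ≤ f i x ∧ f i x ≤ F x := by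
  -- the sequence `f 0, (f 0)⁻¹, f 1, (f 1)⁻¹, ...`
  let e : ℕ → H := fun k => if k % 2 = 0 then f (k / 2) else (f (k / 2))⁻¹
  have he0 : ∀ i, e (2 * i) = f i := by
    intro i
    change (if 2 * i % 2 = 0 then f (2 * i / 2) else _) = f i
    rw [if_pos (by omega), show 2 * i / 2 = i by omega]
  have he1 : ∀ i, e (2 * i + 1) = (f i)⁻¹ := by
    intro i
    change (if (2 * i + 1) % 2 = 0 then _ else (f ((2 * i + 1) / 2))⁻¹) = (f i)⁻¹
    rw [if_neg (by omega), show (2 * i + 1) / 2 = i by omega]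
  obtain ⟨P, hP1, hP2⟩ := dominate e
  obtain ⟨Q, hQ1, hQ2⟩ := dominate fun k => refl (e k)
  obtain ⟨G, hG⟩ : ∃ G : H, G = refl Q := ⟨_, rfl⟩
  have hG1 : ∀ x, G x ≤ x - 1 := by
    intro x
    rw [hG, refl_ap]
    have := hQ1 (-x)
    linarith
  have hG2 : ∀ k, ∃ R, ∀ x, x ≤ -R → G x ≤ e k x := by
    intro k
    obtain ⟨R, hR⟩ := hQ2 k
    refine ⟨R, fun x hx => ?_⟩
    have := hR (-x) (by linarith)
    rw [refl_ap, neg_neg] at this
    rw [hG, refl_ap]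
    linarith
  have hGi : ∀ x, x + 1 ≤ G⁻¹ x := by
    intro x
    rw [le_inv_iff]
    have := hG1 (x + 1)
    linarith
  refine ⟨P * G⁻¹, ?_, ?_⟩
  · intro x
    rw [mul_ap]
    have h1 := hGi x
    have h2 := hP1 (G⁻¹ x)
    linarith
  · intro i
    have hFP : ∀ x, P x ≤ (P * G⁻¹) x := fun x => by
      rw [mul_ap]
      exact P.monotone (by have := hGi x; linarith)
    have hFG : ∀ x, G⁻¹ x ≤ (P * G⁻¹) x := fun x => by
      rw [mul_ap]
      have := hP1 (G⁻¹ x)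
      linarith
    obtain ⟨R1, hR1⟩ := hP2 (2 * i)
    obtain ⟨R2, hR2⟩ := hP2 (2 * i + 1)
    obtain ⟨R3, hR3⟩ := hG2 (2 * i)
    obtain ⟨R4, hR4⟩ := hG2 (2 * i + 1)
    rw [he0] at hR1 hR3
    rw [he1] at hR2 hR4
    refine ⟨max (max (max R1 R3) (max ((f i)⁻¹ R2) (-((f i)⁻¹ (-R4))))) 1, fun x hx => ?_⟩
    have hx1 : R1 ≤ |x| := ((le_max_left _ _).trans ((le_max_left _ _).trans (le_max_left _ _))).trans hx
    have hx3 : R3 ≤ |x| := ((le_max_right _ _).trans ((le_max_left _ _).trans (le_max_left _ _))).trans hx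
    have hx2 : (f i)⁻¹ R2 ≤ |x| :=
      ((le_max_left _ _).trans ((le_max_right _ _).trans (le_max_left _ _))).trans hx
    have hx4 : -((f i)⁻¹ (-R4)) ≤ |x| :=
      ((le_max_right _ _).trans ((le_max_right _ _).trans (le_max_left _ _))).trans hx
    rcases le_total 0 x with h | h
    · rw [abs_of_nonneg h] at hx1 hx2 hx3 hx4
      constructor
      · rw [inv_le_iff]
        have h1 : R2 ≤ f i x := (inv_le_iff _ _ _).1 hx2
        have h2 := hR2 (f i x) h1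
        rw [inv_self] at h2
        exact h2.trans (hFP _)
      · exact (hR1 x hx1).trans (hFP x)
    · rw [abs_of_nonpos h] at hx1 hx2 hx3 hx4
      constructor
      · have h1 := hR3 x (by linarith)
        refine le_trans ?_ h1
        rw [inv_le_iff]
        have h2 := hFG (G x)
        rwa [inv_self] at h2
      · have h1 : f i x ≤ -R4 := by
          rw [← le_inv_iff]
          linarith
        have h2 := hR4 (f i x) h1
        rw [inv_self] at h2
        have h3 : f i x ≤ G⁻¹ x := (le_inv_iff _ _ _).2 h2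
        exact h3.trans (hFG x)

end Pool.Agent.V1123.HomeoR
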