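import Mathlib
import Pool.Agent.V1123.HomeoR3

/-!
# Increasing homeomorphisms of the real line: coding lemmas
-/

namespace Pool.Agent.V1123.HomeoR

/-! ### Countable coding -/

lemma lemmaC {N : ℝ} (hN : 2 ≤ N) {κ s : H} (hκ : Disp N (1 / 2) (3 / 4) κ)
    (hs : Disp N (3 / 4) 1 s) (τ : ℕ → H) (hτ : ∀ i, FixOut N (1 / 2) (τ i)) :
    ∃ g : H, ∀ i, τ i ∈ Subgroup.closure ({κ, s, g} : Set H) := by
  have hN0 : 0 < N := by linarith
  choose A hA1 hA2 using fun i => hκ.comm (by norm_num) (by norm_num) (by linarith) (hτ i)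
  obtain ⟨inU, hinU⟩ : ∃ inU : ℝ → Prop, ∀ z, inU z ↔ ∃ n : ℤ, |z - N * n| < 3 / 4 := ⟨_, fun _ => Iff.rfl⟩
  have hout : ∀ (i : ℕ) (z : ℝ), ¬ inU z → A i z = z := by
    intro i z hz
    rw [hinU] at hz
    push Not at hz
    exact hA2 i z hz
  -- one step pushes out
  have hex : ∀ (k : ℕ) (z : ℝ), inU z → ¬ inU ((s⁻¹ ^ (k + 1)) z) := by
    intro k z hz
    rw [hinU] at hz
    obtain ⟨n, hn⟩ := hz
    obtain ⟨h1, h2⟩ := abs_lt.1 hn
    have hleft := hs.left one_pos (by linarith) n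
    have hlow : N * n - 1 < (s⁻¹ ^ (k + 1)) z := by
      have h3 := (s⁻¹ ^ (k + 1)).strictMono (show N * (n : ℝ) - 1 < z by linarith)
      rwa [pow_fix (inv_fix hleft)] at h3
    have hup : (s⁻¹ ^ (k + 1)) z ≤ N * n - 3 / 4 := by
      have hsle : ∀ x, s⁻¹ x ≤ x := fun x => (inv_le_iff _ _ _).2 (hs.ge x)
      clear hlow
      induction k with
      | zero =>
        rw [zero_add, pow_one]
        refine (s⁻¹.monotone (show z ≤ N * n + 3 / 4 by linarith)).trans ?_
        exact (inv_le_iff _ _ _).2 (hs.dis n)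
      | succ k ih =>
        rw [pow_succ_ap]
        exact (hsle _).trans ih
    rw [hinU]
    push Not
    intro m
    have e : |(s⁻¹ ^ (k + 1)) z - N * n| = N * n - (s⁻¹ ^ (k + 1)) z := by
      rw [abs_sub_comm, abs_of_nonneg (by linarith)]
    exact far hN0 (n := n) (by rw [e]; linarith) (by rw [e]; linarith) m
  have hexcl : ∀ (i j : ℕ) (x : ℝ), i ≠ j → inU ((s⁻¹ ^ i) x) → ¬ inU ((s⁻¹ ^ j) x) := by
    have hlt : ∀ (i j : ℕ) (x : ℝ), i < j → inU ((s⁻¹ ^ i) x) → ¬ inU ((s⁻¹ ^ j) x) := by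
      intro i j x hij h
      obtain ⟨k, rfl⟩ := Nat.exists_eq_add_of_lt hij
      have := hex k _ h
      rwa [← mul_ap, ← pow_add, show k + 1 + i = i + k + 1 by omega] at this
    intro i j x hij h1 h2
    rcases lt_or_gt_of_ne hij with h | h
    · exact hlt i j x h h1 h2
    · exact hlt j i x h h2 h1
  obtain ⟨h, hh⟩ : ∃ h : ℕ → H, ∀ i, h i = s ^ i * A i * s⁻¹ ^ i := ⟨_, fun _ => rfl⟩
  have hhfix : ∀ (i : ℕ) (x : ℝ), ¬ inU ((s⁻¹ ^ i) x) → h i x = x := by
    intro i x hx
    rw [hh, mul_ap, mul_ap, hout i _ hx, ← mul_ap, inv_pow, mul_inv_cancel, one_ap]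
  have hhcomm : ∀ i j, Commute (h i) (h j) := by
    intro i j
    by_cases hij : i = j
    · rw [hij]
    · apply commute_of_disjoint
      intro x
      by_cases hx : inU ((s⁻¹ ^ i) x)
      · right
        exact hhfix j x (hexcl i j x hij hx)
      · left
        exact hhfix i x hx
  let P : ℕ → H := fun k => Nat.rec 1 (fun k r => h k * r) k
  have hP0 : P 0 = 1 := rfl
  have hPs : ∀ k, P (k + 1) = h k * P k := fun k => rfl
  have hPcomm : ∀ k j, Commute (h j) (P k) := by
    intro k j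
    induction k with
    | zero => rw [hP0]; exact Commute.one_right _
    | succ k ih => rw [hPs]; exact (hhcomm j k).mul_right ih
  have hstab : ∀ (x : ℝ) (K : ℕ), (∀ j, K ≤ j → h j x = x) → ∀ k, K ≤ k → P k x = P K x := by
    intro x K hK k hk
    induction k, hk using Nat.le_induction with
    | base => rfl
    | succ k hk ih =>
      rw [hPs, (hPcomm k k).eq, mul_ap, hK k hk, ih]
  have hstab' : ∀ (x : ℝ) (K : ℕ), (∀ j, K ≤ j → h j x = x) → ∀ k, K ≤ k →
      (P k)⁻¹ x = (P K)⁻¹ x := by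
    intro x K hK k hk
    induction k, hk using Nat.le_induction with
    | base => rfl
    | succ k hk ih =>
      rw [hPs, mul_inv_rev, mul_ap, inv_fix (hK k hk), ih]
  have hexK : ∀ x, ∃ K, ∀ j, K ≤ j → h j x = x := by
    intro x
    by_cases hx : ∃ i, inU ((s⁻¹ ^ i) x)
    · obtain ⟨i, hi⟩ := hx
      exact ⟨i + 1, fun j hj => hhfix j x (hexcl i j x (by omega) hi)⟩
    · push Not at hx
      exact ⟨0, fun j _ => hhfix j x (hx j)⟩
  obtain ⟨G, hG⟩ := lim_exists P (fun x => by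
    obtain ⟨K, hK⟩ := hexK x
    exact ⟨K, hstab x K hK⟩) (fun x => by
    obtain ⟨K, hK⟩ := hexK x
    exact ⟨K, hstab' x K hK⟩)
  -- value of `G`
  have hGval : ∀ (i : ℕ) (x : ℝ), inU ((s⁻¹ ^ i) x) → G x = h i x := by
    intro i x hx
    have hfix : ∀ j, j ≠ i → h j x = x := fun j hj => hhfix j x (hexcl i j x hj.symm hx)
    have h1 : ∀ k, k ≤ i → P k x = x := by
      intro k
      induction k with
      | zero => intro _; rw [hP0, one_ap]
      | succ k ih =>
        intro hk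
        rw [hPs, mul_ap, ih (by omega), hfix k (by omega)]
    have h2 : P (i + 1) x = h i x := by
      rw [hPs, mul_ap, h1 i le_rfl]
    have h3 := hstab x (i + 1) (fun j hj => hfix j (by omega))
    obtain ⟨K, hK⟩ := hG x
    rw [hK (max K (i + 1)) (le_max_left _ _), h3 _ (le_max_right _ _), h2]
  refine ⟨G, fun i => ?_⟩
  obtain ⟨Gi, hGi⟩ : ∃ Gi : H, Gi = s⁻¹ ^ i * G * s ^ i := ⟨_, rfl⟩
  have hGiU : ∀ y, inU y → Gi y = A i y := by
    intro y hy
    have e1 : (s⁻¹ ^ i) ((s ^ i) y) = y := by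
      rw [← mul_ap, inv_pow, inv_mul_cancel, one_ap]
    rw [hGi, mul_ap, mul_ap, hGval i ((s ^ i) y) (by rw [e1]; exact hy), hh, mul_ap, mul_ap, e1,
      ← mul_ap, inv_pow, inv_mul_cancel, one_ap]
  have hD : Commute ((A i)⁻¹ * Gi) κ := by
    apply commute_of_disjoint
    intro x
    by_cases hx : inU x
    · left
      rw [mul_ap, hGiU x hx, inv_self]
    · right
      rw [hinU] at hx
      push Not at hx
      exact hκ.fix x hx
  have key : Gi * κ * Gi⁻¹ * κ⁻¹ = τ i := by
    rw [← hA1 i]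
    have e1 : Gi = A i * ((A i)⁻¹ * Gi) := by group
    have e2 : (A i)⁻¹ * Gi * κ = κ * ((A i)⁻¹ * Gi) := hD.eq
    have e3 : Gi * κ = A i * κ * (A i)⁻¹ * Gi := by
      calc Gi * κ = A i * ((A i)⁻¹ * Gi * κ) := by group
        _ = A i * (κ * ((A i)⁻¹ * Gi)) := by rw [e2]
        _ = A i * κ * (A i)⁻¹ * Gi := by group
    rw [e3]
    group
  rw [← key]
  have m1 : κ ∈ Subgroup.closure ({κ, s, G} : Set H) := Subgroup.subset_closure (by simp)
  have m2 : s ∈ Subgroup.closure ({κ, s, G} : Set H) := Subgroup.subset_closure (by simp)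
  have m3 : G ∈ Subgroup.closure ({κ, s, G} : Set H) := Subgroup.subset_closure (by simp)
  have m4 : Gi ∈ Subgroup.closure ({κ, s, G} : Set H) := by
    rw [hGi]
    exact mul_mem (mul_mem (pow_mem (inv_mem m2) _) m3) (pow_mem m2 _)
  exact mul_mem (mul_mem (mul_mem m4 m1) (inv_mem m4)) (inv_mem m1)

/-! ### Finite coding -/

lemma sh_mul (d : ℤ) (a b : H) : sh d (a * b) = sh d a * sh d b := by
  ext x
  rw [mul_ap, sh_ap, sh_ap, sh_ap, mul_ap]
  congr 2
  ring_nf

lemma sh_sh (d e : ℤ) (a : H) : sh d (sh e a) = sh (d + e) a := by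
  ext x
  rw [sh_ap, sh_ap, sh_ap]
  push_cast
  rw [show x - (d + e : ℝ) = x - d - e by ring]
  ring

lemma sh_zero (a : H) : sh 0 a = a := by
  ext x
  rw [sh_ap]
  simp

lemma Commute.sh {a b : H} (h : Commute a b) (d : ℤ) : Commute (sh d a) (sh d b) := by
  change HomeoR.sh d a * HomeoR.sh d b = HomeoR.sh d b * HomeoR.sh d a
  rw [← sh_mul, h.eq, sh_mul]

lemma commute_sh_left {a b : H} {d : ℤ} (h : Commute a (sh (-d) b)) : Commute (sh d a) b := by
  have := Commute.sh h d
  rwa [sh_sh, add_neg_cancel, sh_zero] at this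

lemma split (x : ℕ → H) (q : ℕ) (hc : ∀ k l, k ≤ q → l ≤ q → k ≠ l → Commute (x k) (x l)) :
    ∃ g : H, ∀ j, j ≤ q → ∃ r : H, g = x j * r ∧
      ∀ y, (∀ k, k ≤ q → k ≠ j → Commute y (x k)) → Commute y r := by
  induction q with
  | zero =>
    refine ⟨x 0, fun j hj => ⟨1, ?_, fun y _ => Commute.one_right _⟩⟩
    rw [Nat.le_zero.1 hj, mul_one]
  | succ q ih =>
    obtain ⟨g, hg⟩ := ih fun k l hk hl hkl => hc k l (by omega) (by omega) hkl
    have hgc : ∀ y, (∀ k, k ≤ q → Commute y (x k)) → Commute y g := by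
      intro y hy
      obtain ⟨r, hr1, hr2⟩ := hg 0 (by omega)
      rw [hr1]
      exact (hy 0 (by omega)).mul_right (hr2 y fun k hk _ => hy k hk)
    refine ⟨x (q + 1) * g, fun j hj => ?_⟩
    rcases Nat.lt_or_ge q j with h | h
    · have : j = q + 1 := by omega
      subst this
      exact ⟨g, rfl, fun y hy => hgc y fun k hk => hy k (by omega) (by omega)⟩
    · obtain ⟨r, hr1, hr2⟩ := hg j h
      refine ⟨x (q + 1) * r, ?_, fun y hy => ?_⟩
      · rw [hr1, ← mul_assoc, ← mul_assoc, (hc (q + 1) j le_rfl (by omega) (by omega)).eq]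
      · exact (hy (q + 1) le_rfl (by omega)).mul_right
          (hr2 y fun k hk hkj => hy k (by omega) hkj)

lemma comm_calc {b s u v : H} (hus : Commute u s) (hvb : Commute v b) (huv : Commute u v) :
    (b * u) * (s * v) * (b * u)⁻¹ * (s * v)⁻¹ = b * s * b⁻¹ * s⁻¹ := by
  have e1 : (b * u) * (s * v) = b * s * (u * v) := by
    calc (b * u) * (s * v) = b * (u * s) * v := by group
      _ = b * (s * u) * v := by rw [hus.eq]
      _ = b * s * (u * v) := by group
  have e2 : (s * v) * (b * u) = s * b * (u * v) := by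
    calc (s * v) * (b * u) = s * (v * b) * u := by group
      _ = s * (b * v) * u := by rw [hvb.eq]
      _ = s * b * (v * u) := by group
      _ = s * b * (u * v) := by rw [huv.eq]
  calc (b * u) * (s * v) * (b * u)⁻¹ * (s * v)⁻¹ = (b * u) * (s * v) * ((s * v) * (b * u))⁻¹ := by
        group
    _ = b * s * (u * v) * (s * b * (u * v))⁻¹ := by rw [e1, e2]
    _ = b * s * b⁻¹ * s⁻¹ := by group

lemma finite_code (q : ℕ) {N : ℝ} (hN : 8 * (q : ℝ) + 4 ≤ N) (τ : ℕ → H)
    (hτ : ∀ j, j < q → FixOut N (3 / 4) (τ j)) :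
    ∃ g : H, ∀ j, j < q → τ j ∈ Subgroup.closure ({tr 1, g} : Set H) := by
  have hq0 : (0 : ℝ) ≤ q := Nat.cast_nonneg _
  obtain ⟨s, hs⟩ := exists_disp (N := N) (r := 3 / 4) (R := 1) (by norm_num) (by norm_num)
    (by linarith)
  have hA : ∀ j, ∃ A : H, FixOut N 1 A ∧ (j < q → A * s * A⁻¹ * s⁻¹ = τ j) := by
    intro j
    by_cases hj : j < q
    · obtain ⟨A, h1, h2⟩ := hs.comm (by norm_num) (by norm_num) (by linarith) (hτ j hj)
      exact ⟨A, h2, fun _ => h1⟩
    · exact ⟨1, fun x _ => rfl, fun h => absurd h hj⟩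
  choose A hA1 hA2 using hA
  obtain ⟨β, hβ⟩ : ∃ β : ℕ → H, β = fun k => if k = 0 then s else A (k - 1) := ⟨_, rfl⟩
  obtain ⟨p, hp⟩ : ∃ p : ℕ → ℤ, p = fun k : ℕ => if k = 0 then 2 else 4 * (k : ℤ) := ⟨_, rfl⟩
  have hβ0 : β 0 = s := by rw [hβ]; rfl
  have hβs : ∀ j, β (j + 1) = A j := fun j => by rw [hβ]; rfl
  have hβfix : ∀ k, FixOut N 1 (β k) := by
    intro k
    rcases k with _ | k
    · rw [hβ0]; exact hs.fix
    · rw [hβs]; exact hA1 k
  have hp0 : p 0 = 2 := by rw [hp]; rfl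
  have hps : ∀ k, k ≠ 0 → p k = 4 * (k : ℤ) := by
    intro k hk
    rw [hp]
    change (if k = 0 then (2 : ℤ) else 4 * (k : ℤ)) = _
    rw [if_neg hk]
  -- commutation criterion
  have hcs : ∀ (k l : ℕ) (d : ℤ), 2 ≤ |d| → |d| ≤ 8 * (q : ℤ) + 2 → Commute (sh d (β k)) (β l) := by
    intro k l d h1 h2
    have := commute_sh (hβfix k) (hβfix l) (d := d) (d' := 0) (by rwa [sub_zero]) (by
      have h3 : (|d| : ℝ) ≤ 8 * q + 2 := by exact_mod_cast h2
      rw [Int.cast_zero, sub_zero]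
      linarith)
    rwa [sh_zero] at this
  have hcc : ∀ (k l : ℕ) (d e : ℤ), 2 ≤ |d - e| → |d - e| ≤ 8 * (q : ℤ) + 2 →
      Commute (sh d (β k)) (sh e (β l)) := by
    intro k l d e h1 h2
    have := Commute.sh (hcs k l (d - e) h1 h2) e
    rwa [sh_sh, add_sub_cancel] at this
  obtain ⟨g, hg⟩ := split (fun k => sh (p k) (β k)) q (by
    intro k l hk hl hkl
    apply hcc
    · rcases Nat.eq_zero_or_pos k with h | h
      · subst h
        rw [hp0, hps l (by omega)]
        rw [le_abs]; right; omega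
      · rw [hps k (by omega)]
        rcases Nat.eq_zero_or_pos l with h' | h'
        · subst h'
          rw [hp0, le_abs]; left; omega
        · rw [hps l (by omega), le_abs]
          omega
    · rcases Nat.eq_zero_or_pos k with h | h
      · subst h
        rw [hp0, hps l (by omega)]
        rw [abs_le]; constructor <;> omega
      · rw [hps k (by omega)]
        rcases Nat.eq_zero_or_pos l with h' | h'
        · subst h'
          rw [hp0, abs_le]; constructor <;> omega
        · rw [hps l (by omega), abs_le]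
          constructor <;> omega)
  refine ⟨g, fun j hj => ?_⟩
  obtain ⟨r0, hr01, hr02⟩ := hg 0 (by omega)
  obtain ⟨r, hr1, hr2⟩ := hg (j + 1) (by omega)
  have hpj : p (j + 1) = 4 * ((j + 1 : ℕ) : ℤ) := hps (j + 1) (by omega)
  -- the two shifted copies
  have hu : sh (-(p (j + 1))) g = A j * sh (-(p (j + 1))) r := by
    conv_lhs => rw [hr1]
    rw [sh_mul, sh_sh, neg_add_cancel, sh_zero, hβs]
  have hv : sh (-2) g = s * sh (-2) r0 := by
    conv_lhs => rw [hr01]
    rw [sh_mul, sh_sh, hp0, show (-2 : ℤ) + 2 = 0 by norm_num, sh_zero, hβ0]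
  have hr2' : ∀ (y : H) (d : ℤ), (∀ k, k ≤ q → k ≠ j + 1 → Commute (sh (-d) y) (sh (p k) (β k))) →
      Commute y (sh d r) := by
    intro y d hy
    exact (commute_sh_left (hr2 _ hy).symm).symm
  have hr02' : ∀ (y : H) (d : ℤ), (∀ k, k ≤ q → k ≠ 0 → Commute (sh (-d) y) (sh (p k) (β k))) →
      Commute y (sh d r0) := by
    intro y d hy
    exact (commute_sh_left (hr02 _ hy).symm).symm
  have c1 : Commute (sh (-(p (j + 1))) r) s := by
    refine (hr2' s _ fun k hk hkj => ?_).symm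
    rw [neg_neg, ← hβ0]
    apply hcc
    · rw [hpj]
      rcases Nat.eq_zero_or_pos k with h | h
      · subst h
        rw [hp0, le_abs]; left; push_cast; omega
      · rw [hps k (by omega), le_abs]; push_cast; omega
    · rw [hpj]
      rcases Nat.eq_zero_or_pos k with h | h
      · subst h
        rw [hp0, abs_le]; constructor <;> push_cast <;> omega
      · rw [hps k (by omega), abs_le]; constructor <;> push_cast <;> omega
  have c2 : Commute (sh (-2) r0) (A j) := by
    refine (hr02' (A j) _ fun k hk hk0 => ?_).symm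
    rw [neg_neg, ← hβs, hps k hk0]
    apply hcc
    · rw [le_abs]; omega
    · rw [abs_le]; constructor <;> omega
  have c3 : Commute (sh (-(p (j + 1))) r) (sh (-2) r0) := by
    refine (hr2' _ _ fun k hk hkj => ?_).symm
    rw [neg_neg, sh_sh]
    refine (hr02' _ _ fun l hl hl0 => ?_).symm
    rw [sh_sh]
    apply hcc
    · rw [hpj, hps l hl0]
      rcases Nat.eq_zero_or_pos k with h | h
      · subst h
        rw [hp0, le_abs]; right; push_cast; omega
      · rw [hps k (by omega), le_abs]; push_cast; omega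
    · rw [hpj, hps l hl0]
      rcases Nat.eq_zero_or_pos k with h | h
      · subst h
        rw [hp0, abs_le]; constructor <;> push_cast <;> omega
      · rw [hps k (by omega), abs_le]; constructor <;> push_cast <;> omega
  have key : sh (-(p (j + 1))) g * sh (-2) g * (sh (-(p (j + 1))) g)⁻¹ * (sh (-2) g)⁻¹ = τ j := by
    rw [hu, hv, comm_calc c1 c2 c3, hA2 j hj]
  have m1 : (tr 1 : H) ∈ Subgroup.closure ({tr 1, g} : Set H) := Subgroup.subset_closure (by simp)
  have m2 : g ∈ Subgroup.closure ({tr 1, g} : Set H) := Subgroup.subset_closure (by simp)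
  have m3 : ∀ d : ℤ, sh d g ∈ Subgroup.closure ({tr 1, g} : Set H) := by
    intro d
    unfold sh
    refine mul_mem (mul_mem ?_ m2) ?_
    · rw [← tr_zpow]; exact zpow_mem m1 _
    · rw [← tr_inv, ← tr_zpow]; exact inv_mem (zpow_mem m1 _)
  rw [← key]
  exact mul_mem (mul_mem (mul_mem (m3 _) (m3 _)) (inv_mem (m3 _))) (inv_mem (m3 _))

end Pool.Agent.V1123.HomeoR
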