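import Mathlib
import Pool.Agent.V1123.HomeoR4

/-!
# Every countable set of increasing homeomorphisms lies in a two-generated subgroup
-/

namespace Pool.Agent.V1123.HomeoR

lemma comp_mem {S : Subgroup H} {κ : H} (m : ℕ) (h1 : (tr 1 : H) ∈ S) (h2 : κ ∈ S) :
    comp κ m ∈ S := by
  unfold comp
  exact mul_mem
    (mul_mem (pow_mem (mul_mem h1 (inv_mem h2)) _) (pow_mem (inv_mem h1) _))
    (mul_mem (pow_mem (mul_mem (inv_mem h1) h2) _) (pow_mem h1 _))

/-- conjugating a closure membership back -/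
lemma closure_conj {φ f : H} {T : Set H} (h : φ * f * φ⁻¹ ∈ Subgroup.closure T) :
    f ∈ Subgroup.closure ((fun x => φ⁻¹ * x * φ) '' T) := by
  have h1 : MulAut.conj φ⁻¹ (φ * f * φ⁻¹) = f := by
    rw [MulAut.conj_apply]; group
  have h2 : (fun x => φ⁻¹ * x * φ) '' T = (MulAut.conj φ⁻¹).toMonoidHom '' T := by
    apply Set.image_congr
    intro x _
    change _ = MulAut.conj φ⁻¹ x
    rw [MulAut.conj_apply, inv_inv]
  rw [h2, ← MonoidHom.map_closure]
  exact ⟨_, h, h1⟩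

lemma closure_le_of {T : Set H} {S : Subgroup H} (h : ∀ x ∈ T, x ∈ S) {f : H}
    (hf : f ∈ Subgroup.closure T) : f ∈ S :=
  (Subgroup.closure_le S).2 h hf

/-- Disassembling an element of small displacement. -/
lemma frag_mem {m : ℕ} (hm : 1 ≤ m) (v : H) (hv : ∀ x, |v x - x| ≤ 1 / 2) {κ : H}
    (h4 : 4 ≤ m) (hκ : Disp (2 * m + 6) (1 / 2) (3 / 4) κ) :
    ∃ a b : H, FixOut (2 * m + 6) (1 / 2) a ∧ FixOut (2 * m + 6) (1 / 2) b ∧
      ∀ S : Subgroup H, (tr 1 : H) ∈ S → κ ∈ S → a ∈ S → b ∈ S → v ∈ S := by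
  obtain ⟨a, b, ha, hb, hvab⟩ := frag hm v hv
  have h4' : (4 : ℝ) ≤ m := by exact_mod_cast h4
  refine ⟨comp κ m * a * (comp κ m)⁻¹, comp κ m * b * (comp κ m)⁻¹,
    comp_conj (by linarith) hκ (ha.mono h4'), comp_conj (by linarith) hκ hb, ?_⟩
  intro S h1 h2 h3 h5
  have hc := comp_mem m h1 h2
  have ha' : a ∈ S := by
    have := mul_mem (mul_mem (inv_mem hc) h3) hc
    rwa [show (comp κ m)⁻¹ * (comp κ m * a * (comp κ m)⁻¹) * comp κ m = a by group] at this
  have hb' : b ∈ S := by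
    have := mul_mem (mul_mem (inv_mem hc) h5) hc
    rwa [show (comp κ m)⁻¹ * (comp κ m * b * (comp κ m)⁻¹) * comp κ m = b by group] at this
  have ht : tr (m + 3) ∈ S := by
    have := pow_mem h1 (m + 3)
    rw [tr_npow] at this
    push_cast at this
    exact this
  rw [hvab]
  exact mul_mem (mul_mem (mul_mem ht ha') (inv_mem ht)) hb'

lemma bound_finite (f : ℕ → H) (r : ℕ) :
    ∃ F : H, (∀ x, x + 1 ≤ F x) ∧ ∀ i, i < r → ∀ x, f i x ≤ F x ∧ (f i)⁻¹ x ≤ F x := by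
  induction r with
  | zero => exact ⟨tr 1, fun x => by rw [tr_ap], fun i hi => absurd hi (Nat.not_lt_zero _)⟩
  | succ r ih =>
    obtain ⟨F, h1, h2⟩ := ih
    refine ⟨hsup F (hsup (f r) (f r)⁻¹), fun x => ?_, fun i hi x => ?_⟩
    · rw [hsup_ap]; exact (h1 x).trans (le_max_left _ _)
    · rw [hsup_ap, hsup_ap]
      rcases Nat.lt_succ_iff_lt_or_eq.1 hi with h | h
      · exact ⟨(h2 i h x).1.trans (le_max_left _ _), (h2 i h x).2.trans (le_max_left _ _)⟩
      · subst h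
        exact ⟨(le_max_left _ _).trans (le_max_right _ _), (le_max_right _ _).trans (le_max_right _ _)⟩

/-- Finitely many elements lie in a two-generated subgroup. -/
theorem finite_two (r : ℕ) (f : ℕ → H) :
    ∃ c g : H, ∀ i, i < r → f i ∈ Subgroup.closure ({c, g} : Set H) := by
  obtain ⟨F, hF1, hF2⟩ := bound_finite f r
  obtain ⟨φ, hφ⟩ := abel F hF1
  obtain ⟨m, hm⟩ : ∃ m : ℕ, m = 8 * r + 12 := ⟨_, rfl⟩
  obtain ⟨κ, hκ⟩ := exists_disp (N := 2 * (m : ℝ) + 6) (r := 1 / 2) (R := 3 / 4) (by norm_num)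
    (by norm_num) (by have : (0 : ℝ) ≤ m := Nat.cast_nonneg _; linarith)
  have hsmall : ∀ i, i < r → ∀ x, |(φ * f i * φ⁻¹) x - x| ≤ 1 / 2 := by
    intro i hi x
    rw [mul_ap, mul_ap]
    obtain ⟨h1, -⟩ := hF2 i hi (φ⁻¹ x)
    obtain ⟨-, h2⟩ := hF2 i hi (f i (φ⁻¹ x))
    rw [inv_self] at h2
    have h3 := φ.monotone h1
    have h4 := φ.monotone h2
    rw [hφ, self_inv] at h3
    rw [hφ, self_inv] at h4
    rw [abs_le]
    constructor <;> linarith
  have hex : ∀ i, ∃ a b : H, FixOut (2 * (m : ℝ) + 6) (1 / 2) a ∧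
      FixOut (2 * (m : ℝ) + 6) (1 / 2) b ∧ (i < r →
      ∀ S : Subgroup H, (tr 1 : H) ∈ S → κ ∈ S → a ∈ S → b ∈ S → φ * f i * φ⁻¹ ∈ S) := by
    intro i
    by_cases hi : i < r
    · obtain ⟨a, b, h1, h2, h3⟩ := frag_mem (m := m) (by omega) _ (hsmall i hi) (by omega) hκ
      exact ⟨a, b, h1, h2, fun _ => h3⟩
    · exact ⟨1, 1, fun x _ => rfl, fun x _ => rfl, fun h => absurd h hi⟩
  choose a b ha hb hab using hex
  obtain ⟨τ, hτ⟩ : ∃ τ : ℕ → H, τ = fun k => if k = 0 then κ else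
      if k % 2 = 0 then a (k / 2 - 1) else b (k / 2) := ⟨_, rfl⟩
  have hτ0 : τ 0 = κ := by rw [hτ]; rfl
  have hτa : ∀ i, τ (2 * i + 2) = a i := by
    intro i
    rw [hτ]
    change (if 2 * i + 2 = 0 then κ else
      if (2 * i + 2) % 2 = 0 then a ((2 * i + 2) / 2 - 1) else _) = _
    rw [if_neg (by omega), if_pos (by omega), show (2 * i + 2) / 2 - 1 = i by omega]
  have hτb : ∀ i, τ (2 * i + 1) = b i := by
    intro i
    rw [hτ]
    change (if 2 * i + 1 = 0 then κ else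
      if (2 * i + 1) % 2 = 0 then _ else b ((2 * i + 1) / 2)) = _
    rw [if_neg (by omega), if_neg (by omega), show (2 * i + 1) / 2 = i by omega]
  have hτfix : ∀ k, FixOut (2 * (m : ℝ) + 6) (3 / 4) (τ k) := by
    intro k
    rcases Nat.eq_zero_or_pos k with h | h
    · rw [h, hτ0]; exact hκ.fix
    · rcases Nat.even_or_odd' k with ⟨c, hc | hc⟩
      · have : k = 2 * (c - 1) + 2 := by omega
        rw [this, hτa]
        exact (ha _).mono (by norm_num)
      · rw [hc, hτb]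
        exact (hb _).mono (by norm_num)
  obtain ⟨g, hg⟩ := finite_code (2 * r + 1) (N := 2 * (m : ℝ) + 6) (by
    rw [hm]; push_cast; linarith) τ fun j _ => hτfix j
  refine ⟨φ⁻¹ * tr 1 * φ, φ⁻¹ * g * φ, fun i hi => ?_⟩
  have h1 : φ * f i * φ⁻¹ ∈ Subgroup.closure ({tr 1, g} : Set H) := by
    apply hab i hi
    · exact Subgroup.subset_closure (by simp)
    · have := hg 0 (by omega)
      rwa [hτ0] at this
    · have := hg (2 * i + 2) (by omega)
      rwa [hτa] at this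
    · have := hg (2 * i + 1) (by omega)
      rwa [hτb] at this
  have h2 := closure_conj h1
  rwa [Set.image_pair] at h2

/-- Countably many elements lie in a finitely generated subgroup. -/
theorem countable_fin (f : ℕ → H) :
    ∃ c : ℕ → H, ∀ i, f i ∈ Subgroup.closure (c '' {j | j < 5}) := by
  obtain ⟨F, hF1, hF2⟩ := dominate2 f
  obtain ⟨φ, hφ⟩ := abel F hF1
  obtain ⟨κ, hκ⟩ := exists_disp (N := 2 * ((4 : ℕ) : ℝ) + 6) (r := 1 / 2) (R := 3 / 4) (by norm_num)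
    (by norm_num) (by norm_num)
  obtain ⟨s, hs⟩ := exists_disp (N := 2 * ((4 : ℕ) : ℝ) + 6) (r := 3 / 4) (R := 1) (by norm_num)
    (by norm_num) (by norm_num)
  obtain ⟨f', hf'⟩ : ∃ f' : ℕ → H, ∀ i, f' i = φ * f i * φ⁻¹ := ⟨_, fun _ => rfl⟩
  obtain ⟨v, hv⟩ : ∃ v : ℕ → H, ∀ i, v i = hsup (tr (-(1 / 2))) (hinf (f' i) (tr (1 / 2))) :=
    ⟨_, fun _ => rfl⟩
  obtain ⟨w, hw⟩ : ∃ w : H, w = aff (1 / 2) 0 (by norm_num) := ⟨_, rfl⟩
  have hvap : ∀ i x, v i x = max (x - 1 / 2) (min (f' i x) (x + 1 / 2)) := by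
    intro i x
    rw [hv, hsup_ap, hinf_ap, tr_ap, tr_ap, sub_eq_add_neg]
  have hvsmall : ∀ i x, |v i x - x| ≤ 1 / 2 := by
    intro i x
    rw [hvap, abs_le]
    constructor
    · have := le_max_left (x - 1 / 2) (min (f' i x) (x + 1 / 2))
      linarith
    · have : max (x - 1 / 2) (min (f' i x) (x + 1 / 2)) ≤ x + 1 / 2 :=
        max_le (by linarith) (min_le_right _ _)
      linarith
  -- far away, `v i` and `f' i` agree
  have hagree : ∀ i, ∃ R : ℝ, ∀ y, R ≤ |y| → f' i ((v i)⁻¹ y) = y := by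
    intro i
    obtain ⟨R, hR⟩ := hF2 i
    have h1 : ∀ x, R ≤ |φ⁻¹ x| → v i x = f' i x := by
      intro x hx
      obtain ⟨h2, h3⟩ := hR _ hx
      have h4 := φ.monotone h3
      rw [hφ, self_inv] at h4
      have h5 := φ.monotone ((inv_le_iff _ _ _).1 h2)
      rw [hφ, self_inv] at h5
      rw [hvap, hf', mul_ap, mul_ap, min_eq_left h4, max_eq_right (by linarith)]
    refine ⟨max |v i (φ |R|)| |v i (φ (-|R|))|, fun y hy => ?_⟩
    have h2 : R ≤ |φ⁻¹ ((v i)⁻¹ y)| := by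
      rcases le_abs.1 hy with h | h
      · have h3 := (le_abs_self _).trans ((le_max_left _ _).trans h)
        have h4 : |R| ≤ φ⁻¹ ((v i)⁻¹ y) := by
          rw [le_inv_iff, le_inv_iff]; exact h3
        exact (le_abs_self R).trans (h4.trans (le_abs_self _))
      · have h3 := (neg_le_abs _).trans ((le_max_right _ _).trans h)
        have h4 : φ⁻¹ ((v i)⁻¹ y) ≤ -|R| := by
          rw [inv_le_iff, inv_le_iff]; linarith
        have h5 := neg_le_abs (φ⁻¹ ((v i)⁻¹ y))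
        have h6 := le_abs_self R
        linarith
    rw [← h1 _ h2, self_inv]
  have hn : ∀ i, ∃ n : ℕ, ∀ y : ℝ, (2 : ℝ) ^ n / 2 ≤ |y| → f' i ((v i)⁻¹ y) = y := by
    intro i
    obtain ⟨R, hR⟩ := hagree i
    obtain ⟨n, hn⟩ := pow_unbounded_of_one_lt (2 * R) one_lt_two
    exact ⟨n, fun y hy => hR y (by linarith)⟩
  choose n hn using hn
  have hwap : ∀ (k : ℕ) (x : ℝ), (w ^ k) x = x / 2 ^ k := by
    intro k x
    induction k with
    | zero => rw [pow_zero, one_ap, pow_zero, div_one]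
    | succ k ih =>
      rw [pow_succ_ap, ih, hw, aff_ap, pow_succ]
      field_simp
      ring
  have hwinv : ∀ (k : ℕ) (x : ℝ), (w ^ k)⁻¹ x = x * 2 ^ k := by
    intro k x
    have h1 : (w ^ k) (x * 2 ^ k) = x := by
      rw [hwap]
      field_simp
    conv_lhs => rw [← h1]
    exact inv_self _ _
  have hufix : ∀ i, FixOut (2 * ((4 : ℕ) : ℝ) + 6) (1 / 2)
      (w ^ n i * (f' i * (v i)⁻¹) * (w ^ n i)⁻¹) := by
    intro i x hx
    have h1 := hx 0
    rw [Int.cast_zero, mul_zero, sub_zero] at h1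
    have h2 : (0 : ℝ) < 2 ^ n i := by positivity
    rw [mul_ap, mul_ap, mul_ap, hwinv, hn i _ (by
      rw [abs_mul, abs_of_pos h2]
      nlinarith), hwap]
    field_simp
  choose a b ha hb hab using fun i => frag_mem (m := 4) (by norm_num) (v i) (hvsmall i) le_rfl hκ
  obtain ⟨τ, hτ⟩ : ∃ τ : ℕ → H, τ = fun k => if k % 3 = 0 then
      w ^ n (k / 3) * (f' (k / 3) * (v (k / 3))⁻¹) * (w ^ n (k / 3))⁻¹ else
      if k % 3 = 1 then a (k / 3) else b (k / 3) := ⟨_, rfl⟩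
  have hτ0 : ∀ i, τ (3 * i) = w ^ n i * (f' i * (v i)⁻¹) * (w ^ n i)⁻¹ := by
    intro i
    rw [hτ]
    change (if 3 * i % 3 = 0 then w ^ n (3 * i / 3) * (f' (3 * i / 3) * (v (3 * i / 3))⁻¹) *
      (w ^ n (3 * i / 3))⁻¹ else _) = _
    rw [if_pos (by omega), show 3 * i / 3 = i by omega]
  have hτ1 : ∀ i, τ (3 * i + 1) = a i := by
    intro i
    rw [hτ]
    change (if (3 * i + 1) % 3 = 0 then _ else
      if (3 * i + 1) % 3 = 1 then a ((3 * i + 1) / 3) else _) = _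
    rw [if_neg (by omega), if_pos (by omega), show (3 * i + 1) / 3 = i by omega]
  have hτ2 : ∀ i, τ (3 * i + 2) = b i := by
    intro i
    rw [hτ]
    change (if (3 * i + 2) % 3 = 0 then _ else
      if (3 * i + 2) % 3 = 1 then _ else b ((3 * i + 2) / 3)) = _
    rw [if_neg (by omega), if_neg (by omega), show (3 * i + 2) / 3 = i by omega]
  have hτfix : ∀ k, FixOut (2 * ((4 : ℕ) : ℝ) + 6) (1 / 2) (τ k) := by
    intro k
    have hk : k = 3 * (k / 3) ∨ k = 3 * (k / 3) + 1 ∨ k = 3 * (k / 3) + 2 := by omega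
    rcases hk with h | h | h
    · rw [h, hτ0]; exact hufix _
    · rw [h, hτ1]; exact ha _
    · rw [h, hτ2]; exact hb _
  obtain ⟨g, hg⟩ := lemmaC (by norm_num) hκ hs τ hτfix
  obtain ⟨c, hc⟩ : ∃ c : ℕ → H, c = fun k => if k = 0 then φ⁻¹ * tr 1 * φ else
      if k = 1 then φ⁻¹ * κ * φ else if k = 2 then φ⁻¹ * w * φ else
      if k = 3 then φ⁻¹ * s * φ else φ⁻¹ * g * φ := ⟨_, rfl⟩
  refine ⟨c, fun i => ?_⟩
  have hmem : φ * f i * φ⁻¹ ∈ Subgroup.closure ({tr 1, κ, w, s, g} : Set H) := by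
    have m1 : (tr 1 : H) ∈ Subgroup.closure ({tr 1, κ, w, s, g} : Set H) :=
      Subgroup.subset_closure (by simp)
    have m2 : κ ∈ Subgroup.closure ({tr 1, κ, w, s, g} : Set H) :=
      Subgroup.subset_closure (by simp)
    have m3 : w ∈ Subgroup.closure ({tr 1, κ, w, s, g} : Set H) :=
      Subgroup.subset_closure (by simp)
    have hle : Subgroup.closure ({κ, s, g} : Set H) ≤
        Subgroup.closure ({tr 1, κ, w, s, g} : Set H) := by
      apply Subgroup.closure_mono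
      intro x hx
      simp only [Set.mem_insert_iff, Set.mem_singleton_iff] at hx ⊢
      tauto
    have ha' : a i ∈ Subgroup.closure ({tr 1, κ, w, s, g} : Set H) := by
      have := hle (hg (3 * i + 1))
      rwa [hτ1] at this
    have hb' : b i ∈ Subgroup.closure ({tr 1, κ, w, s, g} : Set H) := by
      have := hle (hg (3 * i + 2))
      rwa [hτ2] at this
    have hu' : w ^ n i * (f' i * (v i)⁻¹) * (w ^ n i)⁻¹ ∈
        Subgroup.closure ({tr 1, κ, w, s, g} : Set H) := by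
      have := hle (hg (3 * i))
      rwa [hτ0] at this
    have hv' := hab i _ m1 m2 ha' hb'
    have e : φ * f i * φ⁻¹ = (w ^ n i)⁻¹ * (w ^ n i * (f' i * (v i)⁻¹) * (w ^ n i)⁻¹) *
        (w ^ n i) * v i := by
      rw [← hf']; group
    rw [e]
    exact mul_mem (mul_mem (mul_mem (inv_mem (pow_mem m3 _)) hu') (pow_mem m3 _)) hv'
  have h2 := closure_conj hmem
  refine Subgroup.closure_mono ?_ h2
  rintro _ ⟨x, hx, rfl⟩
  simp only [Set.mem_insert_iff, Set.mem_singleton_iff] at hx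
  rw [hc]
  rcases hx with rfl | rfl | rfl | rfl | rfl
  · exact ⟨0, by norm_num, rfl⟩
  · exact ⟨1, by norm_num, rfl⟩
  · exact ⟨2, by norm_num, rfl⟩
  · exact ⟨3, by norm_num, rfl⟩
  · exact ⟨4, by norm_num, rfl⟩

/-- Countably many elements lie in a two-generated subgroup. -/
theorem countable_two (f : ℕ → H) :
    ∃ c g : H, ∀ i, f i ∈ Subgroup.closure ({c, g} : Set H) := by
  obtain ⟨e, he⟩ := countable_fin f
  obtain ⟨c, g, hcg⟩ := finite_two 5 e
  refine ⟨c, g, fun i => closure_le_of ?_ (he i)⟩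
  rintro _ ⟨j, hj, rfl⟩
  exact hcg j hj

/-! ### Transfer to permutations -/

/-- the forgetful homomorphism -/
def toPerm : H →* Equiv.Perm ℝ where
  toFun f := f.toEquiv
  map_one' := rfl
  map_mul' _ _ := rfl

lemma toPerm_strictMono (f : H) : StrictMono (toPerm f) := f.strictMono

/-- monotone permutations -/
def ofPerm (σ : Equiv.Perm ℝ) (h : StrictMono σ) : H where
  toEquiv := σ
  map_rel_iff' := h.le_iff_le

lemma toPerm_ofPerm (σ : Equiv.Perm ℝ) (h : StrictMono σ) : toPerm (ofPerm σ h) = σ := rfl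

theorem perm_two (S : Set (Equiv.Perm ℝ)) (hS : S.Countable) (hm : ∀ σ ∈ S, StrictMono ⇑σ) :
    ∃ f g : Equiv.Perm ℝ, StrictMono ⇑f ∧ StrictMono ⇑g ∧
      S ⊆ (Subgroup.closure ({f, g} : Set (Equiv.Perm ℝ)) : Set (Equiv.Perm ℝ)) := by
  rcases S.eq_empty_or_nonempty with hne | hne
  · exact ⟨1, 1, strictMono_id, strictMono_id, by rw [hne]; exact Set.empty_subset _⟩
  · obtain ⟨e, he⟩ := hS.exists_eq_range hne
    have hm' : ∀ i, StrictMono ⇑(e i) := fun i => hm _ (by rw [he]; exact ⟨i, rfl⟩)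
    obtain ⟨c, g, hcg⟩ := countable_two fun i => ofPerm (e i) (hm' i)
    refine ⟨toPerm c, toPerm g, toPerm_strictMono c, toPerm_strictMono g, ?_⟩
    rw [he]
    rintro _ ⟨i, rfl⟩
    have h1 : toPerm (ofPerm (e i) (hm' i)) ∈
        (Subgroup.closure ({c, g} : Set H)).map toPerm := ⟨_, hcg i, rfl⟩
    rw [MonoidHom.map_closure, Set.image_pair, toPerm_ofPerm] at h1
    exact h1

end Pool.Agent.V1123.HomeoR
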