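import Mathlib

set_option autoImplicit false

namespace Pool.Agent.V1123.SSPCore

/-- the contradiction lemma -/
theorem keyK {b3 b4 b5 c3 c4 c5 q u v w : ℝ} (hb3 : b3 ≠ 0) (hb4 : b4 ≠ 0) (hb5 : b5 ≠ 0)
    (hc3 : c3 ≠ 0) (hc4 : c4 ≠ 0) (hc5 : c5 ≠ 0) (hq : q ≠ 0)
    (e3 : b4 * u + b5 * v = q * c3) (e4 : b3 * u + b5 * w = q * c4) (e5 : b3 * v + b4 * w = q * c5)
    (hT : c3 * c4 * u + c3 * c5 * v + c4 * c5 * w = 0) (hδ : u * v * w = 0) : False := by
  rcases mul_eq_zero.1 hδ with h | h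
  · rcases mul_eq_zero.1 h with h | h
    · -- u = 0
      subst h
      have h1 : b5 * (v ^ 2 + w ^ 2) = 0 := by
        have h2 : c5 * (c3 * v + c4 * w) = 0 := by linear_combination hT
        have h3 : c3 * v + c4 * w = 0 := (mul_eq_zero.1 h2).resolve_left hc5
        linear_combination q * h3 + v * e3 + w * e4
      have h4 : v ^ 2 + w ^ 2 = 0 := (mul_eq_zero.1 h1).resolve_left hb5
      have h5 : v = 0 := by nlinarith [sq_nonneg v, sq_nonneg w]
      have h6 : q * c3 = 0 := by rw [← e3, h5]; ring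
      exact (mul_ne_zero hq hc3) h6
    · -- v = 0
      subst h
      have h1 : b4 * (u ^ 2 + w ^ 2) = 0 := by
        have h2 : c4 * (c3 * u + c5 * w) = 0 := by linear_combination hT
        have h3 : c3 * u + c5 * w = 0 := (mul_eq_zero.1 h2).resolve_left hc4
        linear_combination q * h3 + u * e3 + w * e5
      have h4 : u ^ 2 + w ^ 2 = 0 := (mul_eq_zero.1 h1).resolve_left hb4
      have h5 : u = 0 := by nlinarith [sq_nonneg u, sq_nonneg w]
      have h6 : q * c3 = 0 := by rw [← e3, h5]; ring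
      exact (mul_ne_zero hq hc3) h6
  · -- w = 0
    subst h
    have h1 : b3 * (u ^ 2 + v ^ 2) = 0 := by
      have h2 : c3 * (c4 * u + c5 * v) = 0 := by linear_combination hT
      have h3 : c4 * u + c5 * v = 0 := (mul_eq_zero.1 h2).resolve_left hc3
      linear_combination q * h3 + u * e4 + v * e5
    have h4 : u ^ 2 + v ^ 2 = 0 := (mul_eq_zero.1 h1).resolve_left hb3
    have h5 : u = 0 := by nlinarith [sq_nonneg u, sq_nonneg v]
    have h6 : q * c4 = 0 := by rw [← e4, h5]; ring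
    exact (mul_ne_zero hq hc4) h6

/-- the core computation -/
theorem core {d0 d1 d2 d3 d4 d5 d6 e g a3 a4 a5 b3 b4 b5 c3 c4 c5 p q r s u v w z3 z4 z5 : ℝ}
    (he : e ≠ 0) (hg : g ≠ 0) (ha3 : a3 ≠ 0) (ha4 : a4 ≠ 0) (ha5 : a5 ≠ 0)
    (hb3 : b3 ≠ 0) (hb4 : b4 ≠ 0) (hb5 : b5 ≠ 0) (hc3 : c3 ≠ 0) (hc4 : c4 ≠ 0) (hc5 : c5 ≠ 0)
    (e01 : g * r = 0) (e02 : d0 * p + e * q + g * s = p * d2)
    (e03 : a4 * u + a5 * v + g * z3 = p * c3) (e04 : a3 * u + a5 * w + g * z4 = p * c4)
    (e05 : a3 * v + a4 * w + g * z5 = p * c5)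
    (e06 : e * r + a3 * z3 + a4 * z4 + a5 * z5 = 0)
    (e12 : e * p + d1 * q = q * d2)
    (e13 : b4 * u + b5 * v = q * c3) (e14 : b3 * u + b5 * w = q * c4) (e15 : b3 * v + b4 * w = q * c5)
    (e16 : d1 * r + b3 * z3 + b4 * z4 + b5 * z5 = r * d6)
    (e23 : c4 * u + c5 * v = p * a3 + q * b3) (e24 : c3 * u + c5 * w = p * a4 + q * b4)
    (e25 : c3 * v + c4 * w = p * a5 + q * b5)
    (e26 : d2 * s + c3 * z3 + c4 * z4 + c5 * z5 = p * g + s * d6)
    (e34 : d3 * u = u * d4) (e35 : d3 * v = v * d5) (e45 : d4 * w = w * d5)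
    (e36 : d3 * z3 + b3 * r + c3 * s = z3 * d6) (e46 : d4 * z4 + b4 * r + c4 * s = z4 * d6)
    (e56 : d5 * z5 + b5 * r + c5 * s = z5 * d6) :
    p = 0 ∧ q = 0 ∧ r = 0 ∧ s = 0 ∧ u = 0 ∧ v = 0 ∧ w = 0 ∧ z3 = 0 ∧ z4 = 0 ∧ z5 = 0 := by
  have hr : r = 0 := (mul_eq_zero.1 e01).resolve_left hg
  subst hr
  by_cases hq : q = 0
  · subst hq
    have hp : p = 0 := by
      have : e * p = 0 := by linear_combination e12
      exact (mul_eq_zero.1 this).resolve_left he
    subst hp
    have hs : s = 0 := by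
      have : g * s = 0 := by linear_combination e02
      exact (mul_eq_zero.1 this).resolve_left hg
    subst hs
    have hu : u = 0 := by
      have : (c3 * c4) * u = 0 := by linear_combination (c3 * e23 + c4 * e24 - c5 * e25) / 2
      exact (mul_eq_zero.1 this).resolve_left (mul_ne_zero hc3 hc4)
    have hv : v = 0 := by
      have : (c3 * c5) * v = 0 := by linear_combination (c3 * e23 - c4 * e24 + c5 * e25) / 2
      exact (mul_eq_zero.1 this).resolve_left (mul_ne_zero hc3 hc5)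
    have hw : w = 0 := by
      have : (c4 * c5) * w = 0 := by linear_combination (-c3 * e23 + c4 * e24 + c5 * e25) / 2
      exact (mul_eq_zero.1 this).resolve_left (mul_ne_zero hc4 hc5)
    subst hu hv hw
    have h3 : z3 = 0 := by
      have : g * z3 = 0 := by linear_combination e03
      exact (mul_eq_zero.1 this).resolve_left hg
    have h4 : z4 = 0 := by
      have : g * z4 = 0 := by linear_combination e04
      exact (mul_eq_zero.1 this).resolve_left hg
    have h5 : z5 = 0 := by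
      have : g * z5 = 0 := by linear_combination e05
      exact (mul_eq_zero.1 this).resolve_left hg
    exact ⟨rfl, rfl, rfl, rfl, rfl, rfl, rfl, h3, h4, h5⟩
  · exfalso
    -- the diagonal entries are equal
    have hd : d3 = d4 ∧ d4 = d5 := by
      have r3 : u ≠ 0 ∨ v ≠ 0 := by
        by_contra hcon
        push Not at hcon
        apply mul_ne_zero hq hc3
        rw [← e13, hcon.1, hcon.2]; ring
      have r4 : u ≠ 0 ∨ w ≠ 0 := by
        by_contra hcon
        push Not at hcon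
        apply mul_ne_zero hq hc4
        rw [← e14, hcon.1, hcon.2]; ring
      have r5 : v ≠ 0 ∨ w ≠ 0 := by
        by_contra hcon
        push Not at hcon
        apply mul_ne_zero hq hc5
        rw [← e15, hcon.1, hcon.2]; ring
      have k34 : u ≠ 0 → d3 = d4 := fun h => by
        apply mul_left_cancel₀ h; linear_combination e34
      have k35 : v ≠ 0 → d3 = d5 := fun h => by
        apply mul_left_cancel₀ h; linear_combination e35
      have k45 : w ≠ 0 → d4 = d5 := fun h => by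
        apply mul_left_cancel₀ h; linear_combination e45
      by_cases hu : u = 0
      · have hv : v ≠ 0 := r3.resolve_left (fun h => h hu)
        have hw : w ≠ 0 := r4.resolve_left (fun h => h hu)
        exact ⟨(k35 hv).trans (k45 hw).symm, k45 hw⟩
      · by_cases hv : v = 0
        · have hw : w ≠ 0 := r5.resolve_left (fun h => h hv)
          exact ⟨k34 hu, k45 hw⟩
        · exact ⟨k34 hu, (k34 hu).symm.trans (k35 hv)⟩
    obtain ⟨hd1, hd2⟩ := hd
    subst hd2
    subst hd1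
    -- the vector φ = Y c = p a + q b, and the Cayley-Hamilton identity
    have haz : a3 * z3 + a4 * z4 + a5 * z5 = 0 := by linear_combination e06
    have hbz : b3 * z3 + b4 * z4 + b5 * z5 = 0 := by linear_combination e16
    have hT2 : c3 * (p * a3 + q * b3) + c4 * (p * a4 + q * b4) + c5 * (p * a5 + q * b5) =
        2 * (c3 * c4 * u + c3 * c5 * v + c4 * c5 * w) := by
      linear_combination -c3 * e23 - c4 * e24 - c5 * e25
    -- Y φ = m c - p g z
    have hY3 : u * (p * a4 + q * b4) + v * (p * a5 + q * b5) = (p ^ 2 + q ^ 2) * c3 - p * g * z3 := by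
      linear_combination p * e03 + q * e13
    have hY4 : u * (p * a3 + q * b3) + w * (p * a5 + q * b5) = (p ^ 2 + q ^ 2) * c4 - p * g * z4 := by
      linear_combination p * e04 + q * e14
    have hY5 : v * (p * a3 + q * b3) + w * (p * a4 + q * b4) = (p ^ 2 + q ^ 2) * c5 - p * g * z5 := by
      linear_combination p * e05 + q * e15
    -- if T = 0 then a contradiction
    have hcc : 0 < c3 ^ 2 + c4 ^ 2 + c5 ^ 2 := by positivity
    have hTne : c3 * c4 * u + c3 * c5 * v + c4 * c5 * w = 0 → False := by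
      intro hT
      apply keyK hb3 hb4 hb5 hc3 hc4 hc5 hq e13 e14 e15 hT
      have hid : (c4 * u + c5 * v) * (u * (c3 * u + c5 * w) + v * (c3 * v + c4 * w)) +
          (c3 * u + c5 * w) * (u * (c4 * u + c5 * v) + w * (c3 * v + c4 * w)) +
          (c3 * v + c4 * w) * (v * (c4 * u + c5 * v) + w * (c3 * u + c5 * w)) =
          (u ^ 2 + v ^ 2 + w ^ 2) * (2 * (c3 * c4 * u + c3 * c5 * v + c4 * c5 * w)) +
          2 * (u * v * w) * (c3 ^ 2 + c4 ^ 2 + c5 ^ 2) := by ring
      rw [e23, e24, e25, hY3, hY4, hY5, hT] at hid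
      have h1 : (u * v * w) * (c3 ^ 2 + c4 ^ 2 + c5 ^ 2) = 0 := by
        have h2 : c3 * (p * a3 + q * b3) + c4 * (p * a4 + q * b4) + c5 * (p * a5 + q * b5) = 0 := by
          rw [hT2, hT]; ring
        linear_combination (-1 / 2) * hid + (p ^ 2 + q ^ 2) / 2 * h2 - (p * g * p) / 2 * haz - (p * g * q) / 2 * hbz
      exact (mul_eq_zero.1 h1).resolve_right hcc.ne'
    -- S1 and S3
    have S1 : q * (a3 * c3 + a4 * c4 + a5 * c5) = p * (b3 * c3 + b4 * c4 + b5 * c5) := by
      linear_combination b3 * e03 + b4 * e04 + b5 * e05 - a3 * e13 - a4 * e14 - a5 * e15 - g * hbz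
    have S3 : p * (a3 * b3 + a4 * b4 + a5 * b5) + q * (b3 ^ 2 + b4 ^ 2 + b5 ^ 2) =
        q * (c3 ^ 2 + c4 ^ 2 + c5 ^ 2) := by
      linear_combination c3 * e13 + c4 * e14 + c5 * e15 - b3 * e23 - b4 * e24 - b5 * e25
    have hTac : a3 * c3 + a4 * c4 + a5 * c5 = 0 → b3 * c3 + b4 * c4 + b5 * c5 = 0 → False := by
      intro h1 h2
      apply hTne
      linear_combination (-1 / 2) * hT2 + p / 2 * h1 + q / 2 * h2
    by_cases hdd : d3 = d6
    · subst hdd
      have hs : s = 0 := by
        have : c3 * s = 0 := by linear_combination e36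
        exact (mul_eq_zero.1 this).resolve_left hc3
      subst hs
      have hp : p ≠ 0 := by
        rintro rfl
        apply mul_ne_zero he hq
        linear_combination e02
      have hcz : c3 * z3 + c4 * z4 + c5 * z5 = p * g := by linear_combination e26
      have hdet : z3 * (b4 * c5 - b5 * c4) + z4 * (b5 * c3 - b3 * c5) + z5 * (b3 * c4 - b4 * c3) = 0 := by
        have h1 : g * (z3 * (b4 * c5 - b5 * c4) + z4 * (b5 * c3 - b3 * c5) + z5 * (b3 * c4 - b4 * c3)) = 0 := by
          linear_combination (b4 * c5 - b5 * c4) * e03 + (b5 * c3 - b3 * c5) * e04 + (b3 * c4 - b4 * c3) * e05 +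
            (a5 * c4 - a4 * c5) * e13 + (a3 * c5 - a5 * c3) * e14 + (a4 * c3 - a3 * c4) * e15 +
            (a4 * b5 - a5 * b4) * e23 + (a5 * b3 - a3 * b5) * e24 + (a3 * b4 - a4 * b3) * e25
        exact (mul_eq_zero.1 h1).resolve_left hg
      have hgram : (b3 ^ 2 + b4 ^ 2 + b5 ^ 2) * (a3 * c3 + a4 * c4 + a5 * c5) -
          (b3 * c3 + b4 * c4 + b5 * c5) * (a3 * b3 + a4 * b4 + a5 * b5) = 0 := by
        have hid : (a3 * z3 + a4 * z4 + a5 * z5) *
            ((b3 ^ 2 + b4 ^ 2 + b5 ^ 2) * (c3 ^ 2 + c4 ^ 2 + c5 ^ 2) - (b3 * c3 + b4 * c4 + b5 * c5) ^ 2) =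
            (z3 * (b4 * c5 - b5 * c4) + z4 * (b5 * c3 - b3 * c5) + z5 * (b3 * c4 - b4 * c3)) *
            (a3 * (b4 * c5 - b5 * c4) + a4 * (b5 * c3 - b3 * c5) + a5 * (b3 * c4 - b4 * c3)) +
            ((b3 * z3 + b4 * z4 + b5 * z5) * (c3 ^ 2 + c4 ^ 2 + c5 ^ 2) -
              (c3 * z3 + c4 * z4 + c5 * z5) * (b3 * c3 + b4 * c4 + b5 * c5)) * (a3 * b3 + a4 * b4 + a5 * b5) +
            ((c3 * z3 + c4 * z4 + c5 * z5) * (b3 ^ 2 + b4 ^ 2 + b5 ^ 2) -
              (b3 * z3 + b4 * z4 + b5 * z5) * (b3 * c3 + b4 * c4 + b5 * c5)) * (a3 * c3 + a4 * c4 + a5 * c5) := by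
          ring
        rw [haz, hbz, hcz, hdet] at hid
        have h1 : (p * g) * ((b3 ^ 2 + b4 ^ 2 + b5 ^ 2) * (a3 * c3 + a4 * c4 + a5 * c5) -
          (b3 * c3 + b4 * c4 + b5 * c5) * (a3 * b3 + a4 * b4 + a5 * b5)) = 0 := by
          linear_combination -hid
        exact (mul_eq_zero.1 h1).resolve_left (mul_ne_zero hp hg)
      have hfac : (b3 * c3 + b4 * c4 + b5 * c5) *
          (p * (b3 ^ 2 + b4 ^ 2 + b5 ^ 2) - q * (a3 * b3 + a4 * b4 + a5 * b5)) = 0 := by
        linear_combination q * hgram - (b3 ^ 2 + b4 ^ 2 + b5 ^ 2) * S1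
      rcases mul_eq_zero.1 hfac with h | h
      · apply hTac _ h
        have h1 : q * (a3 * c3 + a4 * c4 + a5 * c5) = 0 := by rw [S1, h]; ring
        exact (mul_eq_zero.1 h1).resolve_left hq
      · -- m |b|² = q² |c|²
        have hm : (p ^ 2 + q ^ 2) * (b3 ^ 2 + b4 ^ 2 + b5 ^ 2) = q ^ 2 * (c3 ^ 2 + c4 ^ 2 + c5 ^ 2) := by
          linear_combination p * h + q * S3
        have hbφ : b3 * (p * a3 + q * b3) + b4 * (p * a4 + q * b4) + b5 * (p * a5 + q * b5) =
            q * (c3 ^ 2 + c4 ^ 2 + c5 ^ 2) := by linear_combination S3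
        have hφφ : (p * a3 + q * b3) ^ 2 + (p * a4 + q * b4) ^ 2 + (p * a5 + q * b5) ^ 2 =
            (p ^ 2 + q ^ 2) * (c3 ^ 2 + c4 ^ 2 + c5 ^ 2) - p ^ 2 * g ^ 2 := by
          linear_combination -(p * a3 + q * b3) * e23 - (p * a4 + q * b4) * e24 - (p * a5 + q * b5) * e25 +
            c3 * hY3 + c4 * hY4 + c5 * hY5 - p * g * hcz
        have hfin : ((p ^ 2 + q ^ 2) * b3 - q * (p * a3 + q * b3)) ^ 2 +
            ((p ^ 2 + q ^ 2) * b4 - q * (p * a4 + q * b4)) ^ 2 +
            ((p ^ 2 + q ^ 2) * b5 - q * (p * a5 + q * b5)) ^ 2 = -(q * p * g) ^ 2 := by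
          linear_combination (p ^ 2 + q ^ 2) * hm - 2 * (p ^ 2 + q ^ 2) * q * hbφ + q ^ 2 * hφφ
        have hpos : 0 < (q * p * g) ^ 2 := by positivity
        have k1 := sq_nonneg ((p ^ 2 + q ^ 2) * b3 - q * (p * a3 + q * b3))
        have k2 := sq_nonneg ((p ^ 2 + q ^ 2) * b4 - q * (p * a4 + q * b4))
        have k3 := sq_nonneg ((p ^ 2 + q ^ 2) * b5 - q * (p * a5 + q * b5))
        have k4 := add_nonneg (add_nonneg k1 k2) k3
        rw [hfin] at k4
        exact absurd k4 (not_le.2 (neg_neg_of_pos hpos))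
    · have hD : d3 - d6 ≠ 0 := sub_ne_zero.2 hdd
      by_cases hs : s = 0
      · subst hs
        have h3 : z3 = 0 := by
          have : (d3 - d6) * z3 = 0 := by linear_combination e36
          exact (mul_eq_zero.1 this).resolve_left hD
        have h4 : z4 = 0 := by
          have : (d3 - d6) * z4 = 0 := by linear_combination e46
          exact (mul_eq_zero.1 this).resolve_left hD
        have h5 : z5 = 0 := by
          have : (d3 - d6) * z5 = 0 := by linear_combination e56
          exact (mul_eq_zero.1 this).resolve_left hD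
        subst h3 h4 h5
        have hp : p = 0 := by
          have : p * g = 0 := by linear_combination -e26
          exact (mul_eq_zero.1 this).resolve_right hg
        subst hp
        apply mul_ne_zero he hq
        linear_combination e02
      · apply hTac
        · have h1 : s * (a3 * c3 + a4 * c4 + a5 * c5) = 0 := by
            linear_combination a3 * e36 + a4 * e46 + a5 * e56 - (d3 - d6) * haz
          exact (mul_eq_zero.1 h1).resolve_left hs
        · have h1 : s * (b3 * c3 + b4 * c4 + b5 * c5) = 0 := by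
            linear_combination b3 * e36 + b4 * e46 + b5 * e56 - (d3 - d6) * hbz
          exact (mul_eq_zero.1 h1).resolve_left hs

end Pool.Agent.V1123.SSPCore
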